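import Mathlib

/-!
# Nonrepetitive 4-choosable subdivisions: interface between the thread theorem and the graph part

Constants: `s = 10` (middle block), `N = 50K` (length of a leg), `D = 2N + s + 1 = 100K + 11`
(length of a thread = number of edges of the path replacing an edge).
A thread from `u` to `v` has vertices at distances `0 (=u), 1, ..., D-1, D (=v)`.
-/

set_option autoImplicit false

namespace Pool.Agent.H58.NR

/-- `Threat h`: the word `h 0, h 1, ..., h 8` (`h 0` newest) threatens some letter. -/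
def Threat (h : ℕ → ℕ) : Prop :=
  (h 0 = h 2) ∨
  (h 0 = h 3 ∧ h 1 = h 4) ∨
  (h 0 = h 4 ∧ h 1 = h 5 ∧ h 2 = h 6) ∨
  (h 0 = h 5 ∧ h 1 = h 6 ∧ h 2 = h 7 ∧ h 3 = h 8) ∨
  (h 1 = h 3 ∧ h 3 = h 5 ∧ h 0 = h 4) ∨
  (h 1 = h 4 ∧ h 4 = h 6 ∧ h 0 = h 5 ∧ h 2 = h 7)

lemma Threat.congr {h h' : ℕ → ℕ} (e : ∀ j < 9, h j = h' j) (H : Threat h) : Threat h' := by
  unfold Threat at *
  rw [e 0 (by norm_num), e 1 (by norm_num), e 2 (by norm_num), e 3 (by norm_num),
    e 4 (by norm_num), e 5 (by norm_num), e 6 (by norm_num), e 7 (by norm_num),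
    e 8 (by norm_num)] at H
  exact H

/-- leg length -/
def NN (K : ℕ) : ℕ := 50 * K
/-- thread length -/
def DD (K : ℕ) : ℕ := 100 * K + 11

/-- the window (word) of length `K` of `g` starting at position `x`. -/
def window (K : ℕ) (g : ℕ → ℕ) (x : ℕ) : List ℕ := (List.range K).map (fun i => g (x + i))

/-- What is required of one end of a thread: `g i` is the colour at distance `i` from the branch
vertex, whose colour is `c`; `forb` is a set of forbidden windows. -/
structure LegGood (K c : ℕ) (forb : Finset (List ℕ)) (g : ℕ → ℕ) : Prop where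
  /-- the first nine letters avoid `c` -/
  first : ∀ i, 1 ≤ i → i ≤ 9 → g i ≠ c
  /-- no threat for the reading that starts at distance 1 -/
  nothreat : ¬ Threat (fun j => g (j + 1))
  /-- the rule near the branch vertex -/
  rule : ∀ t, 10 ≤ t → t < 7 * K → g t = c → Threat (fun j => g (t - 1 - j))
  /-- no long repetition next to a letter `c` -/
  lp : ∀ t, 10 ≤ t → t < 7 * K → g t = c → ∃ b, 1 ≤ b ∧ b + 9 ≤ t ∧ g (t + b) ≠ g b
  /-- disjoint windows of the leg are different -/
  win : ∀ x y, 1 ≤ x → x + K ≤ y → y + K ≤ NN K + 1 → ∃ i < K, g (x + i) ≠ g (y + i)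
  /-- windows of the leg are not forbidden -/
  avoid : ∀ x, 1 ≤ x → x + K ≤ NN K + 1 → window K g x ∉ forb
  /-- no almost-square covering most of the thread -/
  near : ∀ t, NN K < t + K → t ≤ NN K + 3 * K →
    ∃ b, 1 ≤ b ∧ b + 5 * K ≤ NN K ∧ g b ≠ g (b + t)

/-- A good thread between branch vertices coloured `c` and `c'`. -/
structure ThreadGood (K c c' : ℕ) (forb : Finset (List ℕ)) (g : ℕ → ℕ) : Prop where
  /-- the interior of the thread is squarefree -/
  sqfree : ∀ p i, 1 ≤ p → 1 ≤ i → i + 2 * p ≤ DD K → ∃ k < p, g (i + k) ≠ g (i + p + k)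
  left : LegGood K c forb g
  right : LegGood K c' forb (fun i => g (DD K - i))

/-- The thread theorem: for all `C` there is `K ≥ 100` such that any thread with lists of size
exactly `4` on its `D - 1` interior vertices can be coloured well, avoiding any family of at most
`C * K` forbidden windows. -/
def ThreadThm : Prop :=
  ∀ C : ℕ, ∃ K : ℕ, 100 ≤ K ∧ ∀ (c c' : ℕ) (Λ : ℕ → Finset ℕ) (forb : Finset (List ℕ)),
    (∀ i, (Λ i).card = 4) → forb.card ≤ C * K →
    ∃ g : ℕ → ℕ, (∀ i, 1 ≤ i → i < DD K → g i ∈ Λ i) ∧ ThreadGood K c c' forb g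

/-- The target statement (S12077). -/
def Target : Prop :=
    ∀ (V : Type) [Fintype V] (G : SimpleGraph V),
      ∃ (W : Type) (_ : Fintype W) (H : SimpleGraph W) (f : V → W)
        (P : ∀ u v : V, G.Adj u v → H.Walk (f u) (f v)),
        Function.Injective f ∧
        (∀ (u v : V) (h : G.Adj u v), (P u v h).IsPath) ∧
        (∀ (u v : V) (h : G.Adj u v) (x : V),
            f x ∈ (P u v h).support → x = u ∨ x = v) ∧
        (∀ (u v : V) (h : G.Adj u v) (u' v' : V) (h' : G.Adj u' v') (w : W),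
            w ∈ (P u v h).support → w ∈ (P u' v' h').support →
              (∃ x, f x = w) ∨ (u = u' ∧ v = v') ∨ (u = v' ∧ v = u')) ∧
        (∀ L : W → Finset ℕ, (∀ w, 4 ≤ (L w).card) →
          ∃ c : W → ℕ, (∀ w, c w ∈ L w) ∧
            ∀ (a b : W) (p : H.Walk a b) (t : ℕ), p.IsPath → 0 < t →
              p.length = 2 * t - 1 →
                ∃ i < t, c (p.getVert i) ≠ c (p.getVert (i + t)))

end Pool.Agent.H58.NR
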