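import Pool.Agent.H58.NRGame

set_option autoImplicit false

namespace Pool.Agent.H58.NR

open Finset

/-- `e i (i+p), ..., e (i+f-1) (i+f-1+p)` all hold -/
def sqA (e : ℕ → ℕ → Bool) (p : ℕ) : ℕ → ℕ → Bool
  | 0, _ => true
  | f + 1, i => match e i (i + p) with
    | false => false
    | true => sqA e p f (i + 1)

/-- no square of period `p` starting at one of the positions `0..m-1` -/
def nosq (e : ℕ → ℕ → Bool) (p : ℕ) : ℕ → Bool
  | 0 => true
  | m + 1 => match sqA e p p m with
    | true => false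
    | false => nosq e p m

/-- weights, per mille -/
def wt : ℕ → ℕ
  | 0 => 1000
  | 1 => 426
  | 2 => 182
  | 3 => 78
  | 4 => 33
  | 5 => 14
  | 6 => 6
  | 7 => 3
  | 8 => 2
  | _ => 1

def runL (e : ℕ → ℕ → Bool) (p : ℕ) : ℕ → ℕ → ℕ
  | 0, _ => 0
  | f + 1, c => match e c (c + p) with
    | true => wt (p - (c + 1)) + runL e p f (c + 1)
    | false => 0

def costL (e : ℕ → ℕ → Bool) : ℕ :=
  runL e 2 1 0 + runL e 3 2 0 + runL e 4 3 0 + runL e 5 4 0 + runL e 6 4 0 + runL e 7 3 0 +
  runL e 8 2 0 + runL e 9 1 0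

def cstC (e : ℕ → ℕ → Bool) (p m wgt : ℕ) : ℕ := match sqA e p m 0 with
  | true => wgt
  | false => 0

def costC (e : ℕ → ℕ → Bool) : ℕ :=
  cstC e 9 1 (7 * wt 8) + cstC e 8 2 (5 * wt 6) + cstC e 7 3 (3 * wt 4) + cstC e 6 4 (wt 2)

def nosqAll (e : ℕ → ℕ → Bool) : Bool :=
  nosq e 1 9 && nosq e 2 7 && nosq e 3 5 && nosq e 4 3 && nosq e 5 1

def leafCost (il ir c : ℕ) : Bool :=
  match Nat.ble il 332 with
  | false => false
  | true => match Nat.ble ir 332 with
    | false => false
    | true => Nat.ble (1000 * c + 40000) ((333 - il) * (333 - ir))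

def blockLeaf (n : ℕ) : Bool :=
  match nosqAll (ed n) with
  | false => false
  | true => leafCost (costL (ed n)) (costL (fun i j => ed n (9 - i) (9 - j))) (costC (ed n))

def preB (n : ℕ) : Bool := nosqAll (ed n)

def ini (a b : ℕ) : ℕ := 1 + 2 * 2^5 + 18 * 2^10 + 19 * 2^15 + 20 * 2^20 + 21 * 2^25 + 22 * 2^30 +
  23 * 2^35 + a * 2^40 + b * 2^45

def ord : List ℕ := [2, 3, 5, 6, 7, 4]

theorem win12 : win blockLeaf preB 3 ord (ini 1 2) 2 = true := by decide +kernel
theorem win13 : win blockLeaf preB 3 ord (ini 1 3) 3 = true := by decide +kernel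
theorem win21 : win blockLeaf preB 3 ord (ini 2 1) 2 = true := by decide +kernel
theorem win23 : win blockLeaf preB 3 ord (ini 2 3) 3 = true := by decide +kernel
theorem win31 : win blockLeaf preB 3 ord (ini 3 1) 3 = true := by decide +kernel
theorem win32 : win blockLeaf preB 3 ord (ini 3 2) 3 = true := by decide +kernel
theorem win34 : win blockLeaf preB 3 ord (ini 3 4) 4 = true := by decide +kernel

/-! ### Semantics -/

lemma sqA_iff (e : ℕ → ℕ → Bool) (p : ℕ) : ∀ (f i : ℕ),
    sqA e p f i = true ↔ ∀ k < f, e (i + k) (i + k + p) = true := by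
  intro f
  induction f with
  | zero => intro i; simp [sqA]
  | succ f ih =>
    intro i
    unfold sqA
    cases h : e i (i + p) with
    | false =>
      simp only [Bool.false_eq_true, false_iff]
      intro hcon
      have := hcon 0 (by omega)
      simp [h] at this
    | true =>
      simp only [ih]
      constructor
      · intro H k hk
        rcases k with _ | k
        · simpa using h
        · have := H k (by omega)
          have e1 : i + (k + 1) = i + 1 + k := by omega
          rw [e1]; exact this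
      · intro H k hk
        have := H (k + 1) (by omega)
        have e1 : i + (k + 1) = i + 1 + k := by omega
        rw [e1] at this; exact this

lemma nosq_sound (e : ℕ → ℕ → Bool) (p : ℕ) : ∀ m, nosq e p m = true →
    ∀ i < m, ∃ k < p, e (i + k) (i + k + p) = false := by
  intro m
  induction m with
  | zero => intro _ i hi; omega
  | succ m ih =>
    intro h i hi
    unfold nosq at h
    cases hs : sqA e p p m with
    | true => rw [hs] at h; simp at h
    | false =>
      rw [hs] at h
      simp only at h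
      rcases Nat.lt_or_ge i m with h1 | h1
      · exact ih h i h1
      · have : i = m := by omega
        subst this
        by_contra hcon
        push Not at hcon
        have : sqA e p p i = true := by
          rw [sqA_iff]
          intro k hk
          have := hcon k hk
          simpa using this
        rw [this] at hs; exact absurd hs (by simp)

lemma nosqAll_sound (e : ℕ → ℕ → Bool) (h : nosqAll e = true) :
    ∀ p i, 1 ≤ p → i + 2 * p ≤ 10 → ∃ k < p, e (i + k) (i + k + p) = false := by
  unfold nosqAll at h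
  simp only [Bool.and_eq_true] at h
  obtain ⟨⟨⟨⟨h1, h2⟩, h3⟩, h4⟩, h5⟩ := h
  intro p i hp hi
  have : p ≤ 5 := by omega
  interval_cases p
  · exact nosq_sound e 1 9 h1 i (by omega)
  · exact nosq_sound e 2 7 h2 i (by omega)
  · exact nosq_sound e 3 5 h3 i (by omega)
  · exact nosq_sound e 4 3 h4 i (by omega)
  · exact nosq_sound e 5 1 h5 i (by omega)

lemma runL_eq (e : ℕ → ℕ → Bool) (p : ℕ) : ∀ (f c : ℕ),
    ∑ j ∈ range f, (if ∀ i ≤ j, e (c + i) (c + i + p) = true then wt (p - (c + j + 1)) else 0)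
      ≤ runL e p f c := by
  intro f
  induction f with
  | zero => intro c; simp [runL]
  | succ f ih =>
    intro c
    unfold runL
    cases h : e c (c + p) with
    | false =>
      simp only [nonpos_iff_eq_zero, sum_eq_zero_iff, mem_range]
      intro j _
      rw [if_neg]
      intro H
      have := H 0 (by omega)
      simp [h] at this
    | true =>
      simp only
      rw [sum_range_succ']
      have h0 : (if ∀ i ≤ 0, e (c + i) (c + i + p) = true then wt (p - (c + 0 + 1)) else 0)
          = wt (p - (c + 1)) := by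
        have hc : ∀ i ≤ 0, e (c + i) (c + i + p) = true := by
          intro i hi
          have : i = 0 := by omega
          subst this; simpa using h
        rw [if_pos hc, add_zero]
      rw [h0, add_comm]
      apply Nat.add_le_add_left
      refine le_trans (sum_le_sum ?_) (ih (c + 1))
      intro j _
      by_cases hj : ∀ i ≤ j + 1, e (c + i) (c + i + p) = true
      · rw [if_pos hj, if_pos]
        · apply le_of_eq; congr 1; omega
        · intro i hi
          have := hj (i + 1) (by omega)
          have e1 : c + (i + 1) = c + 1 + i := by omega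
          rw [e1] at this; exact this
      · rw [if_neg hj]; exact Nat.zero_le _

/-- left cost of a block -/
def CL (r : ℕ → ℕ) : ℕ := ∑ p ∈ Icc 2 9, ∑ c ∈ Icc 1 (min (p - 1) (10 - p)),
  if ∀ i < c, r i = r (i + p) then wt (p - c) else 0

/-- cost of the squares covering the block -/
def CC (r : ℕ → ℕ) : ℕ := ∑ p ∈ Icc 6 9,
  if ∀ i < 10 - p, r i = r (i + p) then (2 * p - 11) * wt (2 * p - 10) else 0

lemma CL_le (r : ℕ → ℕ) (e : ℕ → ℕ → Bool)
    (he : ∀ i j, i < 10 → j < 10 → (r i = r j ↔ e i j = true)) : CL r ≤ costL e := by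
  have key : ∀ p, 2 ≤ p → p ≤ 9 → ∑ c ∈ Icc 1 (min (p - 1) (10 - p)),
      (if ∀ i < c, r i = r (i + p) then wt (p - c) else 0) ≤
      runL e p (min (p - 1) (10 - p)) 0 := by
    intro p hp1 hp2
    refine le_trans (le_of_eq ?_) (runL_eq e p _ 0)
    have : Icc 1 (min (p - 1) (10 - p)) = (range (min (p - 1) (10 - p))).image (· + 1) := by
      ext x
      simp only [mem_Icc, mem_image, mem_range]
      constructor
      · intro h; exact ⟨x - 1, by omega, by omega⟩
      · rintro ⟨y, hy, rfl⟩; omega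
    rw [this, sum_image (fun a _ b _ h => by simpa using h)]
    apply sum_congr rfl
    intro j hj
    rw [mem_range] at hj
    have h1 : (∀ i < j + 1, r i = r (i + p)) ↔ ∀ i ≤ j, e (0 + i) (0 + i + p) = true := by
      constructor
      · intro H i hi
        rw [zero_add]
        exact (he i (i + p) (by omega) (by omega)).1 (H i (by omega))
      · intro H i hi
        have := H i (by omega)
        rw [zero_add] at this
        exact (he i (i + p) (by omega) (by omega)).2 this
    by_cases h2 : ∀ i < j + 1, r i = r (i + p)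
    · rw [if_pos h2, if_pos (h1.1 h2)]; congr 1; omega
    · rw [if_neg h2, if_neg (fun h => h2 (h1.2 h))]
  have k2 := key 2 (by norm_num) (by norm_num)
  have k3 := key 3 (by norm_num) (by norm_num)
  have k4 := key 4 (by norm_num) (by norm_num)
  have k5 := key 5 (by norm_num) (by norm_num)
  have k6 := key 6 (by norm_num) (by norm_num)
  have k7 := key 7 (by norm_num) (by norm_num)
  have k8 := key 8 (by norm_num) (by norm_num)
  have k9 := key 9 (by norm_num) (by norm_num)
  unfold CL costL
  have hI : Icc 2 9 = ({2, 3, 4, 5, 6, 7, 8, 9} : Finset ℕ) := by decide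
  rw [hI]
  rw [sum_insert (by decide), sum_insert (by decide), sum_insert (by decide),
    sum_insert (by decide), sum_insert (by decide), sum_insert (by decide),
    sum_insert (by decide), sum_singleton]
  norm_num at k2 k3 k4 k5 k6 k7 k8 k9 ⊢
  omega

lemma cst_le (r : ℕ → ℕ) (e : ℕ → ℕ → Bool) (p m wgt : ℕ) (hm : m + p ≤ 10)
    (he : ∀ i j, i < 10 → j < 10 → (r i = r j ↔ e i j = true)) :
    (if ∀ i < m, r i = r (i + p) then wgt else 0) ≤ cstC e p m wgt := by
  by_cases h : ∀ i < m, r i = r (i + p)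
  · have : sqA e p m 0 = true := by
      rw [sqA_iff]
      intro k hk
      rw [zero_add]
      exact (he k (k + p) (by omega) (by omega)).1 (h k hk)
    unfold cstC
    rw [if_pos h, this]
  · rw [if_neg h]; exact Nat.zero_le _

lemma CC_le (r : ℕ → ℕ) (e : ℕ → ℕ → Bool)
    (he : ∀ i j, i < 10 → j < 10 → (r i = r j ↔ e i j = true)) : CC r ≤ costC e := by
  have k6 := cst_le r e 6 4 (wt 2) (by norm_num) he
  have k7 := cst_le r e 7 3 (3 * wt 4) (by norm_num) he
  have k8 := cst_le r e 8 2 (5 * wt 6) (by norm_num) he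
  have k9 := cst_le r e 9 1 (7 * wt 8) (by norm_num) he
  unfold CC costC
  have hI : Icc 6 9 = ({6, 7, 8, 9} : Finset ℕ) := by decide
  rw [hI, sum_insert (by decide), sum_insert (by decide), sum_insert (by decide), sum_singleton]
  norm_num at k6 k7 k8 k9 ⊢
  omega

structure BlockOK (r : ℕ → ℕ) : Prop where
  sf : ∀ p i, 1 ≤ p → i + 2 * p ≤ 10 → ∃ k < p, r (i + k) ≠ r (i + p + k)
  cost : ∃ il ir cc : ℕ, il ≤ 332 ∧ ir ≤ 332 ∧ 1000 * cc + 40000 ≤ (333 - il) * (333 - ir) ∧
    CL r ≤ il ∧ CL (fun i => r (9 - i)) ≤ ir ∧ CC r ≤ cc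

lemma block_of_win (n mx : ℕ) (f : ℕ → ℕ) (Λ : ℕ → Finset ℕ)
    (hΛ : ∀ i, 2 ≤ i → i ≤ 7 → 4 ≤ (Λ i).card) (hmx : mx ≤ 4)
    (hf : Set.InjOn f (Icc 1 mx : Finset ℕ))
    (h2 : ∀ p ∈ ord, p < 16 ∧ dg n p = 16 + p)
    (hq : ∀ q < 10, q ∉ ord → 1 ≤ dg n q ∧ dg n q ≤ mx)
    (hw : win blockLeaf preB 3 ord n mx = true) :
    ∃ r : ℕ → ℕ, (∀ i, i ∉ ord → i < 10 → r i = f (dg n i)) ∧
      (∀ i, 2 ≤ i → i ≤ 7 → r i ∈ Λ i) ∧ BlockOK r := by
  obtain ⟨n', mx', f', r1, r2, r3, r4, r5, r6⟩ := win_sound blockLeaf preB 3 10 ord n mx f Λ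
    (by decide) h2 hq (by simp [ord]; omega) hf
    (fun p hp => hΛ p (by simp [ord] at hp; omega) (by simp [ord] at hp; omega)) hw
  refine ⟨fun i => f' (dg n' i), ?_, ?_, ?_⟩
  · intro i hi hi10
    simp only
    rw [r2 i hi]
    have := hq i hi10 hi
    exact r3 _ (by rw [mem_Icc]; exact this)
  · intro i h1 h7
    have : i ∈ ord := by
      interval_cases i <;> decide
    exact r4 i this
  · have he : ∀ i j, i < 10 → j < 10 → (f' (dg n' i) = f' (dg n' j) ↔ ed n' i j = true) := by
      intro i j hi hj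
      unfold ed
      constructor
      · intro h
        have := r5 (by simpa using r6 i hi) (by simpa using r6 j hj) h
        rw [this]; exact Nat.beq_refl _
      · intro h; rw [Nat.eq_of_beq_eq_true h]
    have he' : ∀ i j, i < 10 → j < 10 →
        (f' (dg n' (9 - i)) = f' (dg n' (9 - j)) ↔ ed n' (9 - i) (9 - j) = true) :=
      fun i j hi hj => he (9 - i) (9 - j) (by omega) (by omega)
    have hs : nosqAll (ed n') = true := by
      unfold blockLeaf at r1
      cases h : nosqAll (ed n') with
      | true => rfl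
      | false => rw [h] at r1; simp at r1
    have hc : leafCost (costL (ed n')) (costL (fun i j => ed n' (9 - i) (9 - j)))
        (costC (ed n')) = true := by
      unfold blockLeaf at r1
      rw [hs] at r1
      exact r1
    refine ⟨?_, costL (ed n'), costL (fun i j => ed n' (9 - i) (9 - j)), costC (ed n'), ?_⟩
    · intro p i hp hi
      obtain ⟨k, hk, hek⟩ := nosqAll_sound _ hs p i hp hi
      refine ⟨k, hk, ?_⟩
      intro hcon
      have e1 : i + p + k = i + k + p := by omega
      rw [e1] at hcon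
      have := (he (i + k) (i + k + p) (by omega) (by omega)).1 hcon
      rw [hek] at this
      exact absurd this (by simp)
    · unfold leafCost at hc
      cases h1 : Nat.ble (costL (ed n')) 332 with
      | false => rw [h1] at hc; simp at hc
      | true =>
        rw [h1] at hc
        simp only at hc
        cases h2 : Nat.ble (costL (fun i j => ed n' (9 - i) (9 - j))) 332 with
        | false => rw [h2] at hc; simp at hc
        | true =>
          rw [h2] at hc
          simp only at hc
          refine ⟨Nat.le_of_ble_eq_true h1, Nat.le_of_ble_eq_true h2,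
            Nat.le_of_ble_eq_true hc, CL_le _ _ he, CL_le _ _ he', CC_le _ _ he⟩

theorem block_exists (Λ : ℕ → Finset ℕ) (hΛ : ∀ i, 2 ≤ i → i ≤ 7 → 4 ≤ (Λ i).card)
    (r0 r1 r8 r9 : ℕ) (h01 : r0 ≠ r1) (h89 : r8 ≠ r9) :
    ∃ r : ℕ → ℕ, r 0 = r0 ∧ r 1 = r1 ∧ r 8 = r8 ∧ r 9 = r9 ∧
      (∀ i, 2 ≤ i → i ≤ 7 → r i ∈ Λ i) ∧ BlockOK r := by
  -- generic
  have gen : ∀ (a b mx : ℕ) (f : ℕ → ℕ), mx ≤ 4 → Set.InjOn f (Icc 1 mx : Finset ℕ) →
      f 1 = r0 → f 2 = r1 → f a = r8 → f b = r9 →
      (dg (ini a b) 0 = 1 ∧ dg (ini a b) 1 = 2 ∧ dg (ini a b) 8 = a ∧ dg (ini a b) 9 = b) →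
      (∀ p ∈ ord, p < 16 ∧ dg (ini a b) p = 16 + p) →
      (∀ q < 10, q ∉ ord → 1 ≤ dg (ini a b) q ∧ dg (ini a b) q ≤ mx) →
      win blockLeaf preB 3 ord (ini a b) mx = true →
      ∃ r : ℕ → ℕ, r 0 = r0 ∧ r 1 = r1 ∧ r 8 = r8 ∧ r 9 = r9 ∧
      (∀ i, 2 ≤ i → i ≤ 7 → r i ∈ Λ i) ∧ BlockOK r := by
    intro a b mx f hmx hf f1 f2 fa fb hd h2 hq hw
    obtain ⟨r, e1, e2, e3⟩ := block_of_win (ini a b) mx f Λ hΛ hmx hf h2 hq hw
    refine ⟨r, ?_, ?_, ?_, ?_, e2, e3⟩
    · rw [e1 0 (by decide) (by norm_num), hd.1, f1]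
    · rw [e1 1 (by decide) (by norm_num), hd.2.1, f2]
    · rw [e1 8 (by decide) (by norm_num), hd.2.2.1, fa]
    · rw [e1 9 (by decide) (by norm_num), hd.2.2.2, fb]
  -- injectivity helper
  have inj : ∀ (mx : ℕ) (f : ℕ → ℕ), mx ≤ 4 →
      (∀ x y, 1 ≤ x → x < y → y ≤ mx → f x ≠ f y) → Set.InjOn f (Icc 1 mx : Finset ℕ) := by
    intro mx f _ H x hx y hy hxy
    simp only [coe_Icc, Set.mem_Icc] at hx hy
    rcases lt_trichotomy x y with h | h | h
    · exact absurd hxy (H x y hx.1 h hy.2)
    · exact h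
    · exact absurd hxy.symm (H y x hy.1 h hx.2)
  let f4 : ℕ → ℕ → ℕ → ℕ := fun c3 c4 x =>
    if x = 1 then r0 else if x = 2 then r1 else if x = 3 then c3 else c4
  have injf : ∀ (mx c3 c4 : ℕ), mx ≤ 4 → (3 ≤ mx → c3 ≠ r0 ∧ c3 ≠ r1) →
      (4 ≤ mx → c4 ≠ r0 ∧ c4 ≠ r1 ∧ c4 ≠ c3) → Set.InjOn (f4 c3 c4) (Icc 1 mx : Finset ℕ) := by
    intro mx c3 c4 hmx h3 h4
    apply inj mx _ hmx
    intro x y hx hxy hy
    have hx4 : x ≤ 4 := by omega
    have hy4 : y ≤ 4 := by omega
    interval_cases x <;> interval_cases y <;> simp [f4]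
    · exact h01
    · exact (h3 (by omega)).1.symm
    · exact (h4 (by omega)).1.symm
    · exact (h3 (by omega)).2.symm
    · exact (h4 (by omega)).2.1.symm
    · exact (h4 (by omega)).2.2.symm
  by_cases h80 : r8 = r0
  · by_cases h91 : r9 = r1
    · exact gen 1 2 2 (f4 0 0) (by norm_num) (injf 2 0 0 (by norm_num) (by omega) (by omega))
        (by simp [f4]) (by simp [f4]) (by simp [f4, h80]) (by simp [f4, h91]) (by decide)
        (by decide) (by decide) win12
    · exact gen 1 3 3 (f4 r9 0) (by norm_num)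
        (injf 3 r9 0 (by norm_num) (fun _ => ⟨fun h => h89 (by rw [h, h80]), h91⟩) (by omega))
        (by simp [f4]) (by simp [f4]) (by simp [f4, h80]) (by simp [f4]) (by decide)
        (by decide) (by decide) win13
  · by_cases h81 : r8 = r1
    · by_cases h90 : r9 = r0
      · exact gen 2 1 2 (f4 0 0) (by norm_num) (injf 2 0 0 (by norm_num) (by omega) (by omega))
          (by simp [f4]) (by simp [f4]) (by simp [f4, h81]) (by simp [f4, h90]) (by decide)
          (by decide) (by decide) win21
      · exact gen 2 3 3 (f4 r9 0) (by norm_num)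
          (injf 3 r9 0 (by norm_num) (fun _ => ⟨h90, fun h => h89 (by rw [h, h81])⟩) (by omega))
          (by simp [f4]) (by simp [f4]) (by simp [f4, h81]) (by simp [f4]) (by decide)
          (by decide) (by decide) win23
    · by_cases h90 : r9 = r0
      · exact gen 3 1 3 (f4 r8 0) (by norm_num)
          (injf 3 r8 0 (by norm_num) (fun _ => ⟨h80, h81⟩) (by omega))
          (by simp [f4]) (by simp [f4]) (by simp [f4]) (by simp [f4, h90]) (by decide)
          (by decide) (by decide) win31
      · by_cases h91 : r9 = r1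
        · exact gen 3 2 3 (f4 r8 0) (by norm_num)
            (injf 3 r8 0 (by norm_num) (fun _ => ⟨h80, h81⟩) (by omega))
            (by simp [f4]) (by simp [f4]) (by simp [f4]) (by simp [f4, h91]) (by decide)
            (by decide) (by decide) win32
        · exact gen 3 4 4 (f4 r8 r9) (by norm_num)
            (injf 4 r8 r9 (by norm_num) (fun _ => ⟨h80, h81⟩)
              (fun _ => ⟨h90, h91, fun h => h89 h.symm⟩))
            (by simp [f4]) (by simp [f4]) (by simp [f4]) (by simp [f4]) (by decide)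
            (by decide) (by decide) win34

end Pool.Agent.H58.NR
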