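import Pool.Agent.H58.NRLeg

set_option autoImplicit false

namespace Pool.Agent.H58.NR

open Finset

/-- colours along the thread: left leg `l`, block `r`, right leg `m` (both legs with the letter
next to the block first). -/
def GF (N : ℕ) (r : ℕ → ℕ) (l m : List ℕ) (x : ℕ) : ℕ :=
  if x ≤ N then l.getD (N - x) 0 else if x ≤ N + 10 then r (x - N - 1)
  else m.getD (x - N - 11) 0

def Sq (g : ℕ → ℕ) (p i : ℕ) : Prop := ∀ k < p, g (i + k) = g (i + p + k)

/-- reversed block -/
def rrev (r : ℕ → ℕ) (i : ℕ) : ℕ := r (9 - i)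

lemma GF_left {N : ℕ} {r : ℕ → ℕ} {l m : List ℕ} {x : ℕ} (h : x ≤ N) :
    GF N r l m x = l.getD (N - x) 0 := by
  unfold GF; rw [if_pos h]

lemma GF_mid {N : ℕ} {r : ℕ → ℕ} {l m : List ℕ} {x : ℕ} (h : N < x) (h' : x ≤ N + 10) :
    GF N r l m x = r (x - N - 1) := by
  unfold GF; rw [if_neg (by omega), if_pos h']

lemma GF_right {N : ℕ} {r : ℕ → ℕ} {l m : List ℕ} {x : ℕ} (h : N + 10 < x) :
    GF N r l m x = m.getD (x - N - 11) 0 := by
  unfold GF; rw [if_neg (by omega), if_neg (by omega)]

lemma GF_mirror {N : ℕ} {r : ℕ → ℕ} {l m : List ℕ} {x : ℕ} (h1 : 1 ≤ x) (h2 : x ≤ 2 * N + 10) :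
    GF N r l m (2 * N + 11 - x) = GF N (rrev r) m l x := by
  by_cases a1 : x ≤ N
  · rw [GF_left a1, GF_right (by omega)]
    congr 1; omega
  · by_cases a2 : x ≤ N + 10
    · rw [GF_mid (by omega) a2, GF_mid (by omega) (by omega)]
      unfold rrev
      congr 1; omega
    · rw [GF_right (x := x) (by omega), GF_left (by omega)]
      congr 1; omega

lemma Sq_mirror {N : ℕ} {r : ℕ → ℕ} {l m : List ℕ} {p i : ℕ} (h1 : 1 ≤ i)
    (h2 : i + 2 * p ≤ 2 * N + 11) (h : Sq (GF N r l m) p i) :
    Sq (GF N (rrev r) m l) p (2 * N + 12 - (i + 2 * p)) := by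
  intro k hk
  rw [← GF_mirror (by omega) (by omega), ← GF_mirror (by omega) (by omega)]
  have := h (p - 1 - k) (by omega)
  have e1 : 2 * N + 11 - (2 * N + 12 - (i + 2 * p) + k) = i + p + (p - 1 - k) := by omega
  have e2 : 2 * N + 11 - (2 * N + 12 - (i + 2 * p) + p + k) = i + (p - 1 - k) := by omega
  rw [e1, e2, this]

/-- equality of lists from equality of the colours -/
lemma list_eq_of_GF {N : ℕ} {l l' : List ℕ} (hl : l.length = N) (hl' : l'.length = N)
    (h : ∀ x, 1 ≤ x → x ≤ N → l.getD (N - x) 0 = l'.getD (N - x) 0) : l = l' := by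
  apply List.ext_getElem
  · rw [hl, hl']
  · intro i h1 h2
    have := h (N - i) (by omega) (by omega)
    have e : N - (N - i) = i := by omega
    rw [e, List.getD_eq_getElem _ _ h1, List.getD_eq_getElem _ _ h2] at this
    exact this

lemma getD_of_drop {l l' : List ℕ} {k : ℕ} (h : l.drop k = l'.drop k) {i : ℕ} (hi : k ≤ i) :
    l.getD i 0 = l'.getD i 0 := by
  have : (l.drop k).getD (i - k) 0 = (l'.drop k).getD (i - k) 0 := by rw [h]
  rw [getD_drop, getD_drop] at this
  have e : k + (i - k) = i := by omega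
  rwa [e] at this

open Classical in
/-- pairs of legs for which a given square occurs -/
noncomputable def Ev (A B : Finset (List ℕ)) (N : ℕ) (r : ℕ → ℕ) (p i : ℕ) :
    Finset (List ℕ × List ℕ) :=
  (A ×ˢ B).filter (fun q => Sq (GF N r q.1 q.2) p i)

lemma mem_Ev {A B : Finset (List ℕ)} {N : ℕ} {r : ℕ → ℕ} {p i : ℕ} {q : List ℕ × List ℕ} :
    q ∈ Ev A B N r p i ↔ q.1 ∈ A ∧ q.2 ∈ B ∧ Sq (GF N r q.1 q.2) p i := by
  classical
  unfold Ev
  rw [mem_filter, mem_product, and_assoc]

lemma Ev_swap {A B : Finset (List ℕ)} {N : ℕ} {r : ℕ → ℕ} {p i : ℕ} (h1 : 1 ≤ i)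
    (h2 : i + 2 * p ≤ 2 * N + 11) :
    (Ev A B N r p i).card ≤ (Ev B A N (rrev r) p (2 * N + 12 - (i + 2 * p))).card := by
  apply card_le_card_of_injOn Prod.swap
  · intro q hq
    rw [mem_coe, mem_Ev] at hq
    rw [mem_coe, mem_Ev]
    exact ⟨hq.2.1, hq.1, Sq_mirror h1 h2 hq.2.2⟩
  · intro q _ q' _ h
    exact Prod.swap_injective h

/-- the left leg is determined by its suffix of length `N - k` -/
lemma Ev_card_gen {P : Par} {B : Finset (List ℕ)} {N : ℕ} {r : ℕ → ℕ} {p i k : ℕ} (hk : k ≤ N)
    (hdet : ∀ l ∈ S P N, ∀ l' ∈ S P N, ∀ m, Sq (GF N r l m) p i → Sq (GF N r l' m) p i →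
      l.drop k = l'.drop k → l = l') :
    (Ev (S P N) B N r p i).card ≤ (S P (N - k)).card * B.card := by
  rw [← card_product]
  apply card_le_card_of_injOn (fun q => (q.1.drop k, q.2))
  · intro q hq
    rw [mem_coe, mem_Ev] at hq
    rw [mem_coe, mem_product]
    exact ⟨drop_S hq.1 k hk, hq.2.1⟩
  · intro q hq q' hq' h
    rw [mem_coe, mem_Ev] at hq hq'
    simp only [Prod.mk.injEq] at h
    have h2 := hq'.2.2
    rw [← h.2] at h2
    exact Prod.ext (hdet _ hq.1 _ hq'.1 _ hq.2.2 h2 h.1) h.2

/-- type L: first half in the left leg, at least two letters of the second half outside. -/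
lemma detL {P : Par} {N : ℕ} {r : ℕ → ℕ} {p i : ℕ} (hp : 2 ≤ p) (hpN : p ≤ N)
    (he : i + p ≤ N + 1) (hf : N + 3 ≤ i + 2 * p) {l l' : List ℕ} (hl : l ∈ S P N)
    (hl' : l' ∈ S P N) {m : List ℕ} (s : Sq (GF N r l m) p i) (s' : Sq (GF N r l' m) p i)
    (h : l.drop (p - 2) = l'.drop (p - 2)) : l = l' := by
  apply list_eq_of_GF (length_S hl) (length_S hl')
  have known : ∀ x, (x ≤ N + 2 - p ∨ N < x) → GF N r l m x = GF N r l' m x := by
    intro x hx
    rcases hx with hx | hx
    · rw [GF_left (by omega), GF_left (by omega)]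
      exact getD_of_drop h (by omega)
    · simp only [GF, if_neg (show ¬ x ≤ N by omega)]
  intro x hx1 hxN
  rw [← GF_left (r := r) (m := m) hxN, ← GF_left (r := r) (m := m) hxN]
  by_cases h1 : x ≤ N + 2 - p
  · exact known x (Or.inl h1)
  · by_cases h2 : x < i + p
    · have a := s (x - i) (by omega)
      have a' := s' (x - i) (by omega)
      have e1 : i + (x - i) = x := by omega
      have e2 : i + p + (x - i) = x + p := by omega
      rw [e1, e2] at a a'
      rw [a, a']
      exact known _ (Or.inr (by omega))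
    · have a := s (x - i - p) (by omega)
      have a' := s' (x - i - p) (by omega)
      have e1 : i + (x - i - p) = x - p := by omega
      have e2 : i + p + (x - i - p) = x := by omega
      rw [e1, e2] at a a'
      rw [← a, ← a']
      exact known _ (Or.inl (by omega))

/-- type C: the second half starts in the block or further right -/
lemma detC {P : Par} {N : ℕ} {r : ℕ → ℕ} {p i : ℕ} (hi : 1 ≤ i) (hiN : i ≤ N)
    (he : N + 1 ≤ i + p) {l l' : List ℕ} (hl : l ∈ S P N)
    (hl' : l' ∈ S P N) {m : List ℕ} (s : Sq (GF N r l m) p i) (s' : Sq (GF N r l' m) p i)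
    (h : l.drop (N + 1 - i) = l'.drop (N + 1 - i)) : l = l' := by
  apply list_eq_of_GF (length_S hl) (length_S hl')
  intro x hx1 hxN
  by_cases h1 : x < i
  · exact getD_of_drop h (by omega)
  · rw [← GF_left (r := r) (m := m) hxN, ← GF_left (r := r) (m := m) hxN]
    have a := s (x - i) (by omega)
    have a' := s' (x - i) (by omega)
    have e1 : i + (x - i) = x := by omega
    have e2 : i + p + (x - i) = x + p := by omega
    rw [e1, e2] at a a'
    rw [a, a']
    simp only [GF, if_neg (show ¬ x + p ≤ N by omega)]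

lemma Ev_L {P : Par} {B : Finset (List ℕ)} {N : ℕ} {r : ℕ → ℕ} {p i : ℕ}
    (hp : 2 ≤ p) (hpN : p ≤ N) (he : i + p ≤ N + 1) (hf : N + 3 ≤ i + 2 * p) :
    (Ev (S P N) B N r p i).card ≤ (S P (N + 2 - p)).card * B.card := by
  have := Ev_card_gen (P := P) (B := B) (N := N) (r := r) (p := p) (i := i) (k := p - 2)
    (by omega) (fun l hl l' hl' m s s' h => detL hp hpN he hf hl hl' s s' h)
  have e : N - (p - 2) = N + 2 - p := by omega
  rwa [e] at this

lemma Ev_C {P : Par} {B : Finset (List ℕ)} {N : ℕ} {r : ℕ → ℕ} {p i : ℕ}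
    (hi : 1 ≤ i) (hiN : i ≤ N) (he : N + 1 ≤ i + p) :
    (Ev (S P N) B N r p i).card ≤ (S P (i - 1)).card * B.card := by
  have := Ev_card_gen (P := P) (B := B) (N := N) (r := r) (p := p) (i := i) (k := N + 1 - i)
    (by omega) (fun l hl l' hl' m s s' h => detC hi hiN he hl hl' s s' h)
  have e : N - (N + 1 - i) = i - 1 := by omega
  rwa [e] at this

/-- type C with `p ≤ 10`: both legs are determined by suffixes -/
lemma Ev_CC {P P' : Par} {N : ℕ} {r : ℕ → ℕ} {p i : ℕ}
    (hi : 1 ≤ i) (hiN : i ≤ N) (he : N + 1 ≤ i + p) (he' : i + p ≤ N + 11) (hp : p ≤ 10)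
    (hf : N + 11 ≤ i + 2 * p) (hf' : i + 2 * p ≤ 2 * N + 11) :
    (Ev (S P N) (S P' N) N r p i).card ≤
      (S P (i - 1)).card * (S P' (2 * N + 11 - (i + 2 * p))).card := by
  rw [← card_product]
  apply card_le_card_of_injOn (fun q => (q.1.drop (N + 1 - i), q.2.drop (i + 2 * p - (N + 11))))
  · intro q hq
    rw [mem_coe, mem_Ev] at hq
    rw [mem_coe, mem_product]
    have h1 := drop_S hq.1 (N + 1 - i) (by omega)
    have h2 := drop_S hq.2.1 (i + 2 * p - (N + 11)) (by omega)
    have e1 : N - (N + 1 - i) = i - 1 := by omega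
    have e2 : N - (i + 2 * p - (N + 11)) = 2 * N + 11 - (i + 2 * p) := by omega
    rw [e1] at h1
    rw [e2] at h2
    exact ⟨h1, h2⟩
  · rintro ⟨l, m⟩ hq ⟨l', m'⟩ hq' h
    rw [mem_coe, mem_Ev] at hq hq'
    simp only at hq hq'
    simp only [Prod.mk.injEq] at h
    obtain ⟨hl, hm, s⟩ := hq
    obtain ⟨hl', hm', s'⟩ := hq'
    obtain ⟨h1, h2⟩ := h
    have hmid : ∀ x, N < x → x ≤ N + 10 → GF N r l m x = GF N r l' m' x := by
      intro x a b
      rw [GF_mid a b, GF_mid a b]
    refine Prod.ext ?_ ?_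
    · apply list_eq_of_GF (length_S hl) (length_S hl')
      intro x hx1 hxN
      by_cases hxi : x < i
      · exact getD_of_drop h1 (by omega)
      · rw [← GF_left (r := r) (m := m) hxN, ← GF_left (r := r) (m := m') hxN]
        have a := s (x - i) (by omega)
        have a' := s' (x - i) (by omega)
        have e1 : i + (x - i) = x := by omega
        have e2 : i + p + (x - i) = x + p := by omega
        rw [e1, e2] at a a'
        rw [a, a']
        exact hmid _ (by omega) (by omega)
    · apply list_eq_of_GF (length_S hm) (length_S hm')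
      intro x hx1 hxN
      -- position of this letter: 2N+11-x
      by_cases hxi : x ≤ 2 * N + 11 - (i + 2 * p)
      · exact getD_of_drop h2 (by omega)
      · have b1 : m.getD (N - x) 0 = GF N r l m (2 * N + 11 - x) := by
          rw [GF_right (by omega)]; congr 1; omega
        have b2 : m'.getD (N - x) 0 = GF N r l' m' (2 * N + 11 - x) := by
          rw [GF_right (by omega)]; congr 1; omega
        rw [b1, b2]
        have a := s (2 * N + 11 - x - i - p) (by omega)
        have a' := s' (2 * N + 11 - x - i - p) (by omega)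
        have e1 : i + (2 * N + 11 - x - i - p) = 2 * N + 11 - x - p := by omega
        have e2 : i + p + (2 * N + 11 - x - i - p) = 2 * N + 11 - x := by omega
        rw [e1, e2] at a a'
        rw [← a, ← a']
        exact hmid _ (by omega) (by omega)

/-! ### almost squares -/

open Classical in
/-- pairs of legs with a given almost-square -/
noncomputable def Ne (A B : Finset (List ℕ)) (K : ℕ) (r : ℕ → ℕ) (t : ℕ) :
    Finset (List ℕ × List ℕ) :=
  (A ×ˢ B).filter (fun q => ∀ b, 1 ≤ b → b + 5 * K ≤ NN K →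
    GF (NN K) r q.1 q.2 b = GF (NN K) r q.1 q.2 (b + t))

lemma fiber_card {P : Par} {d : ℕ → ℕ} (h : ParOK P d) :
    ∀ (k n : ℕ) (X : Finset (List ℕ)), X ⊆ S P n → k ≤ n →
      X.card ≤ 4 ^ k * (X.image (fun w => w.drop k)).card := by
  intro k
  induction k with
  | zero =>
    intro n X _ _
    simp
  | succ k ih =>
    intro n X hX hk
    have h1 := ih n X hX (by omega)
    set Y := X.image (fun w => w.drop k) with hY
    have hYS : ∀ w ∈ Y, w ∈ S P (n - k) := by
      intro w hw
      rw [hY, mem_image] at hw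
      obtain ⟨v, hv, rfl⟩ := hw
      exact drop_S (hX hv) k (by omega)
    have h2 : Y.card ≤ 4 * (Y.image (fun w => w.tail)).card := by
      apply card_le_mul_card_image
      intro u _
      obtain ⟨m, hm⟩ : ∃ m, n - k = m + 1 := ⟨n - k - 1, by omega⟩
      have hsub : Y.filter (fun w => w.tail = u) ⊆ (P.L m).image (fun x => x :: u) := by
        intro w hw
        rw [mem_filter] at hw
        have := hYS w hw.1
        rw [hm, mem_S_succ] at this
        obtain ⟨x, l, rfl, hx, _, _⟩ := this
        rw [mem_image]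
        refine ⟨x, hx, ?_⟩
        have := hw.2
        simp at this
        rw [this]
      refine (card_le_card hsub).trans (card_image_le.trans ?_)
      by_cases h9 : m < 9
      · rw [h.L9 m h9]; simp
      · rw [h.L4 m (by omega)]
    have h3 : X.image (fun w => w.drop (k + 1)) = Y.image (fun w => w.tail) := by
      rw [hY, image_image]
      apply image_congr
      intro w _
      simp [List.tail_drop]
    rw [h3, pow_succ, mul_assoc]
    exact h1.trans (Nat.mul_le_mul_left _ h2)

lemma Ne_card {P : Par} {d : ℕ → ℕ} (h : ParOK P d) {B : Finset (List ℕ)} {r : ℕ → ℕ} {t : ℕ}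
    (ht : NN P.K < t + P.K) :
    (Ne (S P (NN P.K)) B P.K r t).card ≤
      4 ^ (5 * P.K) * (S P (NN P.K - 35 * P.K)).card * B.card := by
  classical
  have hK := h.K100
  have hN : NN P.K = 50 * P.K := rfl
  set N := NN P.K with hNdef
  have hfib : ∀ m ∈ B, ((Ne (S P N) B P.K r t).filter (fun q => q.2 = m)).card ≤
      4 ^ (5 * P.K) * (S P (N - 35 * P.K)).card := by
    intro m _
    set X := (S P N).filter (fun l => ∀ b, 1 ≤ b → b + 5 * P.K ≤ N →
      GF N r l m b = GF N r l m (b + t)) with hX
    have h1 : ((Ne (S P N) B P.K r t).filter (fun q => q.2 = m)).card ≤ X.card := by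
      apply card_le_card_of_injOn Prod.fst
      · rintro ⟨l, m'⟩ hq
        rw [mem_coe, mem_filter] at hq
        obtain ⟨hq1, rfl⟩ := hq
        unfold Ne at hq1
        rw [mem_filter, mem_product] at hq1
        rw [mem_coe, hX, mem_filter]
        exact ⟨hq1.1.1, hq1.2⟩
      · rintro ⟨l, m'⟩ hq ⟨l', m''⟩ hq' hh
        rw [mem_coe, mem_filter] at hq hq'
        simp only at hh
        rw [Prod.mk.injEq]
        exact ⟨hh, hq.2.trans hq'.2.symm⟩
    refine h1.trans ((fiber_card h (5 * P.K) N X (filter_subset _ _) (by omega)).trans ?_)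
    apply Nat.mul_le_mul_left
    have e : N - 35 * P.K = (N - 5 * P.K) - 30 * P.K := by omega
    apply card_le_of_drop (p := 30 * P.K)
    · intro w hw
      rw [mem_image] at hw
      obtain ⟨l, hl, rfl⟩ := hw
      rw [hX, mem_filter] at hl
      rw [e]
      exact drop_S (drop_S hl.1 _ (by omega)) _ (by omega)
    · intro w hw w' hw' hww
      rw [mem_image] at hw hw'
      obtain ⟨l, hl, rfl⟩ := hw
      obtain ⟨l', hl', rfl⟩ := hw'
      rw [hX, mem_filter] at hl hl'
      rw [List.drop_drop, List.drop_drop] at hww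
      have len := length_S hl.1
      have len' := length_S hl'.1
      apply List.ext_getElem
      · simp [len, len']
      · intro i h1 h2
        rw [List.length_drop] at h1 h2
        rw [List.getElem_drop, List.getElem_drop]
        rw [← List.getD_eq_getElem l 0, ← List.getD_eq_getElem l' 0]
        by_cases hi : 30 * P.K ≤ i
        · exact getD_of_drop hww (by omega)
        · -- position b = N - (5K + i)
          have a := hl.2 (N - (5 * P.K + i)) (by omega) (by omega)
          have a' := hl'.2 (N - (5 * P.K + i)) (by omega) (by omega)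
          rw [GF_left (by omega), GF_right (by omega)] at a a'
          have e1 : N - (N - (5 * P.K + i)) = 5 * P.K + i := by omega
          rw [e1] at a a'
          rw [a, a']
  calc (Ne (S P N) B P.K r t).card
      = ∑ m ∈ B, ((Ne (S P N) B P.K r t).filter (fun q => q.2 = m)).card := by
        apply card_eq_sum_card_fiberwise
        intro q hq
        rw [mem_coe] at hq
        unfold Ne at hq
        rw [mem_filter, mem_product] at hq
        exact hq.1.2
    _ ≤ ∑ _m ∈ B, 4 ^ (5 * P.K) * (S P (N - 35 * P.K)).card := sum_le_sum hfib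
    _ = _ := by rw [sum_const, smul_eq_mul, mul_comm]

end Pool.Agent.H58.NR
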