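import Pool.Agent.H58.NRClose1

set_option autoImplicit false

namespace Pool.Agent.H58.NR

open Finset

/-- no square inside the left leg -/
lemma no_sq_left {P : Par} {N : ℕ} {r : ℕ → ℕ} {l m : List ℕ} (hl : l ∈ S P N) {p i : ℕ}
    (hp : 1 ≤ p) (hi : 1 ≤ i) (hf : i + 2 * p ≤ N + 1) : ¬ Sq (GF N r l m) p i := by
  intro s
  apply okS_S hl (N + 1 - (i + 2 * p)) p
  rw [HSq_iff]
  refine ⟨hp, by rw [List.length_drop, length_S hl]; omega, ?_⟩
  intro q hq
  rw [getD_drop, getD_drop]
  have := s (p - 1 - q) (by omega)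
  rw [GF_left (by omega), GF_left (by omega)] at this
  have e1 : N - (i + (p - 1 - q)) = N + 1 - (i + 2 * p) + (p + q) := by omega
  have e2 : N - (i + p + (p - 1 - q)) = N + 1 - (i + 2 * p) + q := by omega
  rw [e1, e2] at this
  exact this.symm

open Classical in
/-- legs `l` such that some square starting in `l` ends in the block -/
noncomputable def LBad (P : Par) (r : ℕ → ℕ) : Finset (List ℕ) :=
  (S P (NN P.K)).filter (fun l => ∃ p i, 1 ≤ p ∧ 1 ≤ i ∧ i ≤ NN P.K ∧
    i + 2 * p ≤ NN P.K + 11 ∧ Sq (GF (NN P.K) r l []) p i)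

open Classical in
noncomputable def Bad1 (P : Par) (x : ℕ) : Finset (List ℕ) :=
  (S P (NN P.K)).filter (fun l => ¬ OkS (x :: l))

open Classical in
/-- words of length `N - k` that end with `x y` (`y` newest) -/
noncomputable def Fk (P : Par) (x y k : ℕ) : Finset (List ℕ) :=
  (S P (NN P.K - k)).filter (fun u => u.getD 0 0 = y ∧ u.getD 1 0 = x)

open Classical in
noncomputable def TL (P : Par) (r : ℕ → ℕ) (k j : ℕ) : Finset (List ℕ) :=
  (S P (NN P.K)).filter (fun l => ∃ i, 1 ≤ i ∧ i + 2 * (k + 2) = NN P.K + 1 + j ∧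
    Sq (GF (NN P.K) r l []) (k + 2) i)

open Classical in
noncomputable def TC (P : Par) (r : ℕ → ℕ) (p c : ℕ) : Finset (List ℕ) :=
  (S P (NN P.K)).filter (fun l => ∃ i, 1 ≤ i ∧ i + p = NN P.K + 1 + c ∧
    Sq (GF (NN P.K) r l []) p i)

lemma TL_card {P : Par} {r : ℕ → ℕ} {k j : ℕ} (hj : 2 ≤ j) (hjk : j ≤ k + 2)
    (hk : k + 2 ≤ NN P.K) :
    (TL P r k j).card ≤ (Fk P (r 0) (r 1) k).card := by
  classical
  set N := NN P.K with hN
  apply card_le_card_of_injOn (fun l => l.drop k)
  · intro l hl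
    rw [mem_coe, TL, mem_filter] at hl
    obtain ⟨hl1, i, hi, hi2, s⟩ := hl
    rw [mem_coe, Fk, mem_filter]
    refine ⟨drop_S hl1 k (by omega), ?_, ?_⟩
    · rw [getD_drop]
      have h1 : GF N r l [] (N - k) = l.getD (k + 0) 0 := by
        rw [GF_left (by omega)]; congr 1; omega
      rw [← h1]
      have := s (N - k - i) (by omega)
      have e1 : i + (N - k - i) = N - k := by omega
      have e2 : i + (k + 2) + (N - k - i) = N + 2 := by omega
      rw [e1, e2] at this
      rw [this, GF_mid (by omega) (by omega)]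
      congr 1; omega
    · rw [getD_drop]
      have h1 : GF N r l [] (N - k - 1) = l.getD (k + 1) 0 := by
        rw [GF_left (by omega)]; congr 1; omega
      rw [← h1]
      have := s (N - k - 1 - i) (by omega)
      have e1 : i + (N - k - 1 - i) = N - k - 1 := by omega
      have e2 : i + (k + 2) + (N - k - 1 - i) = N + 1 := by omega
      rw [e1, e2] at this
      rw [this, GF_mid (by omega) (by omega)]
      congr 1; omega
  · intro l hl l' hl' h
    rw [mem_coe, TL, mem_filter] at hl hl'
    obtain ⟨hl1, i, hi, hi2, s⟩ := hl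
    obtain ⟨hl1', i', hi', hi2', s'⟩ := hl'
    have : i' = i := by omega
    subst this
    exact detL (p := k + 2) (by omega) (by omega) (by omega) (by omega) hl1 hl1' s s' h

lemma TC_card {P : Par} {r : ℕ → ℕ} {p c : ℕ} (hc : 1 ≤ c) (hcp : c < p) (hcp' : c + p ≤ 10)
    (hN : 20 ≤ NN P.K) :
    (TC P r p c).card ≤
      if ∀ i < c, r i = r (i + p) then (S P (NN P.K - (p - c))).card else 0 := by
  classical
  set N := NN P.K with hNdef
  split_ifs with hm
  · apply card_le_of_drop (p := p - c)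
    · intro l hl
      rw [TC, mem_filter] at hl
      exact drop_S hl.1 _ (by omega)
    · intro l hl l' hl' h
      rw [TC, mem_filter] at hl hl'
      obtain ⟨hl1, i, hi, hi2, s⟩ := hl
      obtain ⟨hl1', i', hi', hi2', s'⟩ := hl'
      have : i' = i := by omega
      subst this
      have e : N + 1 - i' = p - c := by omega
      exact detC (p := p) hi (by omega) (by omega) hl1 hl1' s s' (by rw [e]; exact h)
  · rw [Nat.le_zero, card_eq_zero, eq_empty_iff_forall_notMem]
    intro l hl
    rw [TC, mem_filter] at hl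
    obtain ⟨hl1, i, hi, hi2, s⟩ := hl
    apply hm
    intro x hx
    have := s (N + 1 + x - i) (by omega)
    have e1 : i + (N + 1 + x - i) = N + 1 + x := by omega
    have e2 : i + p + (N + 1 + x - i) = N + 1 + x + p := by omega
    rw [e1, e2, GF_mid (by omega) (by omega), GF_mid (by omega) (by omega)] at this
    have e3 : N + 1 + x - N - 1 = x := by omega
    have e4 : N + 1 + x + p - N - 1 = x + p := by omega
    rwa [e3, e4] at this

lemma left_count {P : Par} {r : ℕ → ℕ} (hN : 20 ≤ NN P.K) :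
    (LBad P r).card ≤ (Bad1 P (r 0)).card +
      ∑ k ∈ range (NN P.K - 1), (k + 1) * (Fk P (r 0) (r 1) k).card +
      ∑ p ∈ Icc 2 9, ∑ c ∈ Icc 1 (min (p - 1) (10 - p)),
        (if ∀ i < c, r i = r (i + p) then (S P (NN P.K - (p - c))).card else 0) := by
  classical
  have hsub : LBad P r ⊆ Bad1 P (r 0) ∪
      (range (NN P.K - 1)).biUnion (fun k => (Icc 2 (k + 2)).biUnion (fun j => TL P r k j)) ∪
      (Icc 2 9).biUnion (fun p => (Icc 1 (min (p - 1) (10 - p))).biUnion
        (fun c => TC P r p c)) := by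
    intro l hl
    rw [LBad, mem_filter] at hl
    obtain ⟨hl1, p, i, hp, hi, hiN, hf, s⟩ := hl
    have hf1 : NN P.K + 1 < i + 2 * p := by
      by_contra hcon
      exact no_sq_left hl1 hp hi (by omega) s
    simp only [mem_union]
    by_cases h2 : i + 2 * p = NN P.K + 2
    · left; left
      rw [Bad1, mem_filter]
      refine ⟨hl1, ?_⟩
      intro hok
      apply hok p
      rw [HSq_iff]
      refine ⟨hp, by rw [List.length_cons, length_S hl1]; omega, ?_⟩
      have hget : ∀ q, q ≤ NN P.K → (r 0 :: l).getD q 0 = GF (NN P.K) r l [] (NN P.K + 1 - q) := by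
        intro q hq
        rcases q with _ | q
        · rw [List.getD_cons_zero, GF_mid (by omega) (by omega)]
          congr 1; omega
        · rw [List.getD_cons_succ, GF_left (by omega)]
          congr 1; omega
      intro q hq
      rw [hget q (by omega), hget (p + q) (by omega)]
      have := s (p - 1 - q) (by omega)
      have e1 : i + (p - 1 - q) = NN P.K + 1 - (p + q) := by omega
      have e2 : i + p + (p - 1 - q) = NN P.K + 1 - q := by omega
      rw [e1, e2] at this
      exact this.symm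
    · by_cases h3 : i + p ≤ NN P.K + 1
      · left; right
        rw [mem_biUnion]
        refine ⟨p - 2, by rw [mem_range]; omega, ?_⟩
        rw [mem_biUnion]
        refine ⟨i + 2 * p - (NN P.K + 1), by rw [mem_Icc]; omega, ?_⟩
        rw [TL, mem_filter]
        refine ⟨hl1, i, hi, by omega, ?_⟩
        have e : p - 2 + 2 = p := by omega
        rw [e]; exact s
      · right
        rw [mem_biUnion]
        refine ⟨p, by rw [mem_Icc]; omega, ?_⟩
        rw [mem_biUnion]
        refine ⟨i + p - (NN P.K + 1), by rw [mem_Icc]; omega, ?_⟩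
        rw [TC, mem_filter]
        exact ⟨hl1, i, hi, by omega, s⟩
  refine (card_le_card hsub).trans ((card_union_le _ _).trans (add_le_add
    ((card_union_le _ _).trans (add_le_add le_rfl ?_)) ?_))
  · refine card_biUnion_le.trans (sum_le_sum ?_)
    intro k hk
    rw [mem_range] at hk
    refine card_biUnion_le.trans ?_
    have : ∀ j ∈ Icc 2 (k + 2), (TL P r k j).card ≤ (Fk P (r 0) (r 1) k).card := by
      intro j hj
      rw [mem_Icc] at hj
      exact TL_card hj.1 hj.2 (by omega)
    refine (sum_le_card_nsmul _ _ _ this).trans (le_of_eq ?_)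
    rw [smul_eq_mul, Nat.card_Icc]
    congr 1
  · refine card_biUnion_le.trans (sum_le_sum ?_)
    intro p hp
    rw [mem_Icc] at hp
    refine card_biUnion_le.trans (sum_le_sum ?_)
    intro c hc
    rw [mem_Icc] at hc
    exact TC_card (by omega) (by omega) (by omega) hN

/-- all numerical facts about one leg -/
structure LegNum (P : Par) : Prop where
  K100 : 100 ≤ P.K
  pos : 1 ≤ an P (NN P.K)
  geo : ∀ k, k ≤ 20 → an P (NN P.K - k) ≤ (1000/2349) ^ k * an P (NN P.K)
  ts : ∀ k, k ≤ 20 → Ts (an P) (NN P.K - k) ≤ 1743/1000 * an P (NN P.K - k)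
  fs : ∀ k, k ≤ 20 → Fs (an P) (NN P.K - k) ≤ 381/125 * an P (NN P.K - k)
  v : ∀ A : Finset ℕ, A.card = 4 → 235/100 * an P (NN P.K) ≤ vn P (NN P.K) A
  geo2 : ∀ k, k ≤ 36 * P.K → an P (NN P.K - k) ≤ (4/7) ^ k * an P (NN P.K)

theorem legNum_of {P : Par} {d : ℕ → ℕ} (h : ParOK P d)
    (hε : (GG P : ℝ) * (4/7) ^ (P.K - 19) ≤ 1/10000) : LegNum P := by
  have hK := h.K100
  have g := growth_pop h
  have hN : NN P.K = 50 * P.K := rfl
  obtain ⟨S1, S2, S3⟩ := growth_final g hK (by omega) (by positivity) hε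
  have hp := growth_pos g hK (by omega) (by positivity) hε
  refine ⟨hK, hp _ (by omega), ?_, ?_, ?_, ?_, ?_⟩
  · intro k hk
    apply geom (n0 := 14 * P.K + 60) (by norm_num) _ k (by omega)
    intro m h1 _
    have := S2.ratio m h1
    have h2 := an_nonneg P (m + 1)
    linarith
  · intro k hk
    exact S2.ts _ (by omega)
  · intro k hk
    exact S2.fs _ (by omega)
  · intro A hA
    exact S3 _ (by omega) _ (vb_all h _ (by omega) hA)
  · intro k hk
    apply geom (n0 := 18) (by norm_num) _ k (by omega)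
    intro m h1 _
    have := S1.ratio m h1
    linarith

lemma wt_bound {P : Par} (h : LegNum P) (k : ℕ) (h1 : 1 ≤ k) (h9 : k ≤ 9) :
    an P (NN P.K - k) ≤ (wt k : ℝ) / 1000 * an P (NN P.K) := by
  refine (h.geo k (by omega)).trans ?_
  apply mul_le_mul_of_nonneg_right _ (an_nonneg _ _)
  interval_cases k <;> norm_num [wt]

open Classical in
lemma sum_bad1 {P : Par} (h : LegNum P) {A : Finset ℕ} (hA : A.card = 4) :
    ((∑ x ∈ A, (Bad1 P x).card : ℕ) : ℝ) ≤ (4 - 235/100) * an P (NN P.K) := by
  have h1 : vn P (NN P.K) A ≤ ∑ x ∈ A, ((S P (NN P.K)).filter (fun l => OkS (x :: l))).card := by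
    unfold vn
    have hsub : (extF (S P (NN P.K)) (fun _ => A)).filter (fun w => OkS w) ⊆
        A.biUnion (fun x => ((S P (NN P.K)).filter (fun l => OkS (x :: l))).image
          (fun l => x :: l)) := by
      intro w hw
      rw [mem_filter, mem_extF] at hw
      obtain ⟨⟨x, l, rfl, h1, h2⟩, h3⟩ := hw
      rw [mem_biUnion]
      refine ⟨x, h2, ?_⟩
      rw [mem_image]
      exact ⟨l, by rw [mem_filter]; exact ⟨h1, h3⟩, rfl⟩
    exact (card_le_card hsub).trans (card_biUnion_le.trans (sum_le_sum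
      (fun x _ => card_image_le)))
  have h2 : ∑ x ∈ A, (Bad1 P x).card +
      ∑ x ∈ A, ((S P (NN P.K)).filter (fun l => OkS (x :: l))).card =
      4 * (S P (NN P.K)).card := by
    rw [← sum_add_distrib]
    rw [sum_congr rfl (g := fun _ => (S P (NN P.K)).card)]
    · rw [sum_const, hA, smul_eq_mul]
    · intro x _
      unfold Bad1
      rw [add_comm]
      exact card_filter_add_card_filter_not _
  have h3 : ((∑ x ∈ A, (Bad1 P x).card : ℕ) : ℝ) + (vn P (NN P.K) A : ℝ) ≤
      4 * an P (NN P.K) := by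
    unfold an
    have : ∑ x ∈ A, (Bad1 P x).card + vn P (NN P.K) A ≤ 4 * (S P (NN P.K)).card := by omega
    exact_mod_cast this
  have := h.v A hA
  linarith

open Classical in
theorem pair_exists {P : Par} (h : LegNum P) {A B : Finset ℕ} (hA : A.card = 4)
    (hB : B.card = 4) : ∃ x ∈ A, ∃ y ∈ B, x ≠ y ∧
      ((Bad1 P x).card : ℝ) + ∑ k ∈ range (NN P.K - 1), ((k : ℝ) + 1) * (Fk P x y k).card ≤
        6665/10000 * an P (NN P.K) := by
  -- choose three letters `y ≠ x` for each `x`
  have hC : ∀ x : ℕ, ∃ C : Finset ℕ, C ⊆ B.erase x ∧ C.card = 3 := by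
    intro x
    apply exists_subset_card_eq
    have := pred_card_le_card_erase (s := B) (a := x)
    omega
  choose C hC1 hC2 using hC
  set Q : Finset (Σ _ : ℕ, ℕ) := A.sigma C with hQ
  have hQc : Q.card = 12 := by
    rw [hQ, card_sigma, sum_congr rfl (fun x _ => hC2 x), sum_const, hA]
    rfl
  set f : (Σ _ : ℕ, ℕ) → ℝ := fun q => ((Bad1 P q.1).card : ℝ) +
    ∑ k ∈ range (NN P.K - 1), ((k : ℝ) + 1) * (Fk P q.1 q.2 k).card with hf
  have hsum : ∑ q ∈ Q, f q ≤ ∑ _q ∈ Q, 6665/10000 * an P (NN P.K) := by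
    rw [sum_const, hQc]
    rw [hf, sum_add_distrib]
    have s1 : ∑ q ∈ Q, ((Bad1 P q.1).card : ℝ) ≤ 3 * ((4 - 235/100) * an P (NN P.K)) := by
      rw [hQ, sum_sigma]
      have : ∑ x ∈ A, ∑ _y ∈ C x, ((Bad1 P x).card : ℝ) = 3 * ((∑ x ∈ A, (Bad1 P x).card : ℕ) : ℝ) := by
        push_cast
        rw [mul_sum]
        apply sum_congr rfl
        intro x _
        rw [sum_const, hC2]; simp
      rw [this]
      have := sum_bad1 h hA
      linarith
    have s2 : ∑ q ∈ Q, ∑ k ∈ range (NN P.K - 1), ((k : ℝ) + 1) * (Fk P q.1 q.2 k).card ≤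
        381/125 * an P (NN P.K) := by
      rw [sum_comm]
      have hk : ∀ k ∈ range (NN P.K - 1), ∑ q ∈ Q, ((k : ℝ) + 1) * (Fk P q.1 q.2 k).card ≤
          ((k : ℝ) + 1) * an P (NN P.K - k) := by
        intro k _
        rw [← mul_sum]
        apply mul_le_mul_of_nonneg_left _ (by positivity)
        have : ∑ q ∈ Q, (Fk P q.1 q.2 k).card ≤ (S P (NN P.K - k)).card := by
          rw [← card_biUnion]
          · apply card_le_card
            intro u hu
            rw [mem_biUnion] at hu
            obtain ⟨q, _, hq⟩ := hu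
            rw [Fk, mem_filter] at hq
            exact hq.1
          · intro q _ q' _ hne
            rw [Function.onFun, disjoint_left]
            intro u hu hu'
            rw [Fk, mem_filter] at hu hu'
            apply hne
            apply Sigma.ext
            · exact hu.2.2.symm.trans hu'.2.2
            · exact heq_of_eq (hu.2.1.symm.trans hu'.2.1)
        unfold an
        exact_mod_cast this
      refine (sum_le_sum hk).trans ?_
      refine (sum_le_Fs _ (an_nonneg P) _ _ (by omega)).trans ?_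
      have := h.fs 0 (by norm_num)
      simpa using this
    have := an_nonneg P (NN P.K)
    rw [nsmul_eq_mul]
    push_cast
    linarith
  have hQne : Q.Nonempty := by
    rw [← card_pos, hQc]; norm_num
  obtain ⟨q, hq, hfq⟩ := exists_le_of_sum_le hQne hsum
  rw [hQ, mem_sigma] at hq
  have h3 := hC1 q.1 hq.2
  rw [mem_erase] at h3
  exact ⟨q.1, hq.1, q.2, h3.2, fun e => h3.1 e.symm, hfq⟩

/-- the bound for the bad left legs -/
theorem left_bound {P : Par} (h : LegNum P) {r : ℕ → ℕ}
    (hr : ((Bad1 P (r 0)).card : ℝ) +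
      ∑ k ∈ range (NN P.K - 1), ((k : ℝ) + 1) * (Fk P (r 0) (r 1) k).card ≤
        6665/10000 * an P (NN P.K)) :
    ((LBad P r).card : ℝ) ≤ (6665/10000 + (CL r : ℝ) / 1000) * an P (NN P.K) := by
  have hN : NN P.K = 50 * P.K := rfl
  have hK := h.K100
  have h1 := left_count (P := P) (r := r) (by omega)
  have h2 : ((LBad P r).card : ℝ) ≤ ((Bad1 P (r 0)).card : ℝ) +
      ∑ k ∈ range (NN P.K - 1), ((k : ℝ) + 1) * (Fk P (r 0) (r 1) k).card +
      ∑ p ∈ Icc 2 9, ∑ c ∈ Icc 1 (min (p - 1) (10 - p)),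
        (if ∀ i < c, r i = r (i + p) then an P (NN P.K - (p - c)) else 0) := by
    have h3 : ((LBad P r).card : ℝ) ≤ (((Bad1 P (r 0)).card +
      ∑ k ∈ range (NN P.K - 1), (k + 1) * (Fk P (r 0) (r 1) k).card +
      ∑ p ∈ Icc 2 9, ∑ c ∈ Icc 1 (min (p - 1) (10 - p)),
        (if ∀ i < c, r i = r (i + p) then (S P (NN P.K - (p - c))).card else 0) : ℕ) : ℝ) := by
      exact_mod_cast h1
    refine h3.trans (le_of_eq ?_)
    push_cast
    congr 1
  have h4 : ∑ p ∈ Icc 2 9, ∑ c ∈ Icc 1 (min (p - 1) (10 - p)),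
        (if ∀ i < c, r i = r (i + p) then an P (NN P.K - (p - c)) else 0) ≤
      (CL r : ℝ) / 1000 * an P (NN P.K) := by
    unfold CL
    push_cast
    rw [sum_div, sum_mul]
    apply sum_le_sum
    intro p hp
    rw [mem_Icc] at hp
    rw [sum_div, sum_mul]
    apply sum_le_sum
    intro c hc
    rw [mem_Icc] at hc
    split_ifs with hm
    · exact wt_bound h (p - c) (by omega) (by omega)
    · simp
  linarith

end Pool.Agent.H58.NR
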