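import Pool.Agent.H58.NRClose2

set_option autoImplicit false

namespace Pool.Agent.H58.NR

open Finset

open Classical in
/-- pairs of legs for which a square of period `p` ending at `f` (exclusive) occurs -/
noncomputable def EvF (A B : Finset (List ℕ)) (N : ℕ) (r : ℕ → ℕ) (p f : ℕ) :
    Finset (List ℕ × List ℕ) :=
  (A ×ˢ B).filter (fun q => ∃ i, 1 ≤ i ∧ i + 2 * p = f ∧ Sq (GF N r q.1 q.2) p i)

lemma EvF_card {A B : Finset (List ℕ)} {N : ℕ} {r : ℕ → ℕ} {p f M : ℕ}
    (h : ∀ i, 1 ≤ i → i + 2 * p = f → (Ev A B N r p i).card ≤ M) :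
    (EvF A B N r p f).card ≤ M := by
  classical
  by_cases hf : 2 * p < f
  · refine le_trans (card_le_card ?_) (h (f - 2 * p) (by omega) (by omega))
    intro q hq
    rw [EvF, mem_filter, mem_product] at hq
    obtain ⟨h1, i, h2, h3, h4⟩ := hq
    have : f - 2 * p = i := by omega
    rw [this, mem_Ev]
    exact ⟨h1.1, h1.2, h4⟩
  · have : EvF A B N r p f = ∅ := by
      rw [eq_empty_iff_forall_notMem]
      intro q hq
      rw [EvF, mem_filter] at hq
      obtain ⟨h1, i, h2, h3, h4⟩ := hq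
      omega
    rw [this]; simp

open Classical in
/-- cross pairs with a square whose first half is in the left leg -/
noncomputable def XL (P P' : Par) (N : ℕ) (r : ℕ → ℕ) : Finset (List ℕ × List ℕ) :=
  (S P N ×ˢ S P' N).filter (fun q => ∃ p i, 1 ≤ i ∧ i + p ≤ N + 1 ∧ N + 12 ≤ i + 2 * p ∧
    i + 2 * p ≤ 2 * N + 11 ∧ Sq (GF N r q.1 q.2) p i)

lemma XL_card {P P' : Par} {N : ℕ} {r : ℕ → ℕ} (hN : 20 ≤ N) :
    ((XL P P' N r).card : ℝ) ≤ Fs (an P) (N - 9) * an P' N := by
  classical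
  have h1 : (XL P P' N r).card ≤ ∑ k ∈ range (N - 10), (k + 1) *
      ((S P (N - 9 - k)).card * (S P' N).card) := by
    have hsub : XL P P' N r ⊆ (range (N - 10)).biUnion (fun k => (Icc 11 (k + 11)).biUnion
        (fun j => EvF (S P N) (S P' N) N r (k + 11) (N + 1 + j))) := by
      intro q hq
      rw [XL, mem_filter] at hq
      obtain ⟨h1, p, i, h2, h3, h4, h5, s⟩ := hq
      rw [mem_biUnion]
      refine ⟨p - 11, by rw [mem_range]; omega, ?_⟩
      rw [mem_biUnion]
      refine ⟨i + 2 * p - (N + 1), by rw [mem_Icc]; omega, ?_⟩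
      rw [EvF, mem_filter]
      have e : p - 11 + 11 = p := by omega
      rw [e]
      exact ⟨h1, i, h2, by omega, s⟩
    refine (card_le_card hsub).trans (card_biUnion_le.trans (sum_le_sum ?_))
    intro k hk
    rw [mem_range] at hk
    refine card_biUnion_le.trans ?_
    have : ∀ j ∈ Icc 11 (k + 11), (EvF (S P N) (S P' N) N r (k + 11) (N + 1 + j)).card ≤
        (S P (N - 9 - k)).card * (S P' N).card := by
      intro j hj
      rw [mem_Icc] at hj
      apply EvF_card
      intro i hi hf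
      have := Ev_L (P := P) (B := S P' N) (N := N) (r := r) (p := k + 11) (i := i)
        (by omega) (by omega) (by omega) (by omega)
      have e : N + 2 - (k + 11) = N - 9 - k := by omega
      rwa [e] at this
    refine (sum_le_card_nsmul _ _ _ this).trans (le_of_eq ?_)
    rw [smul_eq_mul, Nat.card_Icc]
    congr 1
  have h2 : ((XL P P' N r).card : ℝ) ≤ ∑ k ∈ range (N - 10), ((k : ℝ) + 1) *
      (an P (N - 9 - k) * an P' N) := by
    have : ((XL P P' N r).card : ℝ) ≤ ((∑ k ∈ range (N - 10), (k + 1) *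
      ((S P (N - 9 - k)).card * (S P' N).card) : ℕ) : ℝ) := by exact_mod_cast h1
    refine this.trans (le_of_eq ?_)
    push_cast
    rfl
  refine h2.trans ?_
  have h3 : ∑ k ∈ range (N - 10), ((k : ℝ) + 1) * (an P (N - 9 - k) * an P' N) =
      (∑ k ∈ range (N - 10), ((k : ℝ) + 1) * an P (N - 9 - k)) * an P' N := by
    rw [sum_mul]
    apply sum_congr rfl
    intro k _
    ring
  rw [h3]
  exact mul_le_mul_of_nonneg_right (sum_le_Fs _ (an_nonneg P) _ _ (by omega)) (an_nonneg _ _)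

/-- type C squares, `6 ≤ p ≤ 9` -/
lemma C_card {P P' : Par} {N : ℕ} {r : ℕ → ℕ} (hN : 40 ≤ N) {p c : ℕ} (hp : p ≤ 10)
    (hc : 11 ≤ c + p) (hc' : c < p) :
    (EvF (S P N) (S P' N) N r p (N + 1 + c + p)).card ≤
      if ∀ i < 10 - p, r i = r (i + p) then
        (S P (N - (p - c))).card * (S P' (N - (c + p - 10))).card else 0 := by
  classical
  split_ifs with hm
  · apply EvF_card
    intro i hi hf
    have := Ev_CC (P := P) (P' := P') (N := N) (r := r) (p := p) (i := i) hi (by omega)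
      (by omega) (by omega) hp (by omega) (by omega)
    have e1 : i - 1 = N - (p - c) := by omega
    have e2 : 2 * N + 11 - (i + 2 * p) = N - (c + p - 10) := by omega
    rwa [e1, e2] at this
  · rw [Nat.le_zero, card_eq_zero, eq_empty_iff_forall_notMem]
    intro q hq
    rw [EvF, mem_filter] at hq
    obtain ⟨_, i, hi, hf, s⟩ := hq
    apply hm
    intro x hx
    have := s (N + 1 + x - i) (by omega)
    have e1 : i + (N + 1 + x - i) = N + 1 + x := by omega
    have e2 : i + p + (N + 1 + x - i) = N + 1 + x + p := by omega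
    rw [e1, e2, GF_mid (by omega) (by omega), GF_mid (by omega) (by omega)] at this
    have e3 : N + 1 + x - N - 1 = x := by omega
    have e4 : N + 1 + x + p - N - 1 = x + p := by omega
    rwa [e3, e4] at this

open Classical in
noncomputable def X3 (P P' : Par) (N : ℕ) (r : ℕ → ℕ) : Finset (List ℕ × List ℕ) :=
  (Icc 6 9).biUnion (fun p => (Icc (11 - p) (p - 1)).biUnion (fun c =>
    EvF (S P N) (S P' N) N r p (N + 1 + c + p)))

lemma X3_card {P P' : Par} (h : LegNum P) (h' : LegNum P') (hKK : P'.K = P.K) {r : ℕ → ℕ} :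
    ((X3 P P' (NN P.K) r).card : ℝ) ≤
      (CC r : ℝ) / 1000 * (an P (NN P.K) * an P' (NN P.K)) := by
  classical
  have hK := h.K100
  have hN : NN P.K = 50 * P.K := rfl
  have h1 : (X3 P P' (NN P.K) r).card ≤ ∑ p ∈ Icc 6 9, ∑ c ∈ Icc (11 - p) (p - 1),
      if ∀ i < 10 - p, r i = r (i + p) then
        (S P (NN P.K - (p - c))).card * (S P' (NN P.K - (c + p - 10))).card else 0 := by
    unfold X3
    refine card_biUnion_le.trans (sum_le_sum ?_)
    intro p hp
    rw [mem_Icc] at hp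
    refine card_biUnion_le.trans (sum_le_sum ?_)
    intro c hc
    rw [mem_Icc] at hc
    exact C_card (by omega) (by omega) (by omega) (by omega)
  have h2 : ((X3 P P' (NN P.K) r).card : ℝ) ≤ ∑ p ∈ Icc 6 9, ∑ c ∈ Icc (11 - p) (p - 1),
      if ∀ i < 10 - p, r i = r (i + p) then
        (an P (NN P.K - (p - c)) * an P' (NN P.K - (c + p - 10))) else 0 := by
    refine (Nat.cast_le.2 h1).trans (le_of_eq ?_)
    push_cast
    rfl
  refine h2.trans ?_
  unfold CC
  push_cast
  rw [sum_div, sum_mul]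
  apply sum_le_sum
  intro p hp
  rw [mem_Icc] at hp
  by_cases hm : ∀ i < 10 - p, r i = r (i + p)
  · simp only [if_pos hm]
    have key : ∀ c ∈ Icc (11 - p) (p - 1),
        an P (NN P.K - (p - c)) * an P' (NN P.K - (c + p - 10)) ≤
        (wt (2 * p - 10) : ℝ) / 1000 * (an P (NN P.K) * an P' (NN P.K)) := by
      intro c hc
      rw [mem_Icc] at hc
      have g1 := h.geo (p - c) (by omega)
      have g2 := h'.geo (c + p - 10) (by omega)
      rw [hKK] at g2
      calc an P (NN P.K - (p - c)) * an P' (NN P.K - (c + p - 10))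
          ≤ ((1000/2349) ^ (p - c) * an P (NN P.K)) *
            ((1000/2349) ^ (c + p - 10) * an P' (NN P.K)) :=
            mul_le_mul g1 g2 (an_nonneg _ _) (mul_nonneg (by positivity) (an_nonneg _ _))
        _ = (1000/2349) ^ (2 * p - 10) * (an P (NN P.K) * an P' (NN P.K)) := by
            have e : 2 * p - 10 = (p - c) + (c + p - 10) := by omega
            rw [e, pow_add]; ring
        _ ≤ (wt (2 * p - 10) : ℝ) / 1000 * (an P (NN P.K) * an P' (NN P.K)) := by
            apply mul_le_mul_of_nonneg_right _ (mul_nonneg (an_nonneg _ _) (an_nonneg _ _))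
            obtain ⟨q1, q2⟩ := hp
            interval_cases p <;> norm_num [wt]
    refine (sum_le_card_nsmul _ _ _ key).trans (le_of_eq ?_)
    rw [nsmul_eq_mul, Nat.card_Icc]
    have e : ((p - 1 + 1 - (11 - p) : ℕ) : ℝ) = ((2 * p - 11 : ℕ) : ℝ) := by
      congr 1; omega
    rw [e]
    push_cast
    ring
  · simp only [if_neg hm]
    simp

open Classical in
noncomputable def X4 (P P' : Par) (N : ℕ) (r : ℕ → ℕ) : Finset (List ℕ × List ℕ) :=
  (Icc 1 9).biUnion (fun c => EvF (S P N) (S P' N) N r 10 (N + 1 + c + 10))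

lemma X4_card {P P' : Par} (h : LegNum P) (h' : LegNum P') (hKK : P'.K = P.K) {r : ℕ → ℕ} :
    ((X4 P P' (NN P.K) r).card : ℝ) ≤
      (9 * (1000/2349) ^ 10) * (an P (NN P.K) * an P' (NN P.K)) := by
  classical
  have hK := h.K100
  have hN : NN P.K = 50 * P.K := rfl
  have key : ∀ c ∈ Icc 1 9, ((EvF (S P (NN P.K)) (S P' (NN P.K)) (NN P.K) r 10
      (NN P.K + 1 + c + 10)).card : ℝ) ≤
      (1000/2349) ^ 10 * (an P (NN P.K) * an P' (NN P.K)) := by
    intro c hc
    rw [mem_Icc] at hc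
    have h1 := C_card (P := P) (P' := P') (N := NN P.K) (r := r) (p := 10) (c := c) (by omega)
      le_rfl (by omega) (by omega)
    rw [if_pos (by intro i hi; omega)] at h1
    have h2 : ((EvF (S P (NN P.K)) (S P' (NN P.K)) (NN P.K) r 10
      (NN P.K + 1 + c + 10)).card : ℝ) ≤ an P (NN P.K - (10 - c)) *
        an P' (NN P.K - (c + 10 - 10)) := by
      unfold an; exact_mod_cast h1
    have g1 := h.geo (10 - c) (by omega)
    have g2 := h'.geo (c + 10 - 10) (by omega)
    rw [hKK] at g2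
    refine h2.trans ?_
    calc an P (NN P.K - (10 - c)) * an P' (NN P.K - (c + 10 - 10))
          ≤ ((1000/2349) ^ (10 - c) * an P (NN P.K)) *
            ((1000/2349) ^ (c + 10 - 10) * an P' (NN P.K)) :=
            mul_le_mul g1 g2 (an_nonneg _ _) (mul_nonneg (by positivity) (an_nonneg _ _))
        _ = (1000/2349) ^ 10 * (an P (NN P.K) * an P' (NN P.K)) := by
            have e : (1000/2349 : ℝ) ^ 10 = (1000/2349) ^ ((10 - c) + (c + 10 - 10)) := by
              congr 1; omega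
            rw [e, pow_add]; ring
  unfold X4
  have h1 : (((Icc 1 9).biUnion (fun c => EvF (S P (NN P.K)) (S P' (NN P.K)) (NN P.K) r 10
      (NN P.K + 1 + c + 10))).card : ℝ) ≤ ∑ c ∈ Icc 1 9, ((EvF (S P (NN P.K)) (S P' (NN P.K))
      (NN P.K) r 10 (NN P.K + 1 + c + 10)).card : ℝ) := by
    have := card_biUnion_le (s := Icc 1 9) (t := fun c => EvF (S P (NN P.K)) (S P' (NN P.K))
      (NN P.K) r 10 (NN P.K + 1 + c + 10))
    exact_mod_cast this
  refine h1.trans ((sum_le_card_nsmul _ _ _ key).trans (le_of_eq ?_))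
  rw [nsmul_eq_mul, Nat.card_Icc]
  norm_num
  ring

open Classical in
/-- type C, `p ≥ 11`, bounded from the left side, given offset `c` -/
noncomputable def X5 (P P' : Par) (N : ℕ) (r : ℕ → ℕ) (c : ℕ) : Finset (List ℕ × List ℕ) :=
  (S P N ×ˢ S P' N).filter (fun q => ∃ p i, 11 ≤ p ∧ 1 ≤ i ∧ i ≤ N ∧ i + p = N + 1 + c ∧
    i + 2 * p ≤ 2 * N + 11 ∧ Sq (GF N r q.1 q.2) p i)

lemma X5_card {P P' : Par} {N : ℕ} {r : ℕ → ℕ} {c : ℕ} (hN : 40 ≤ N) (hc : c ≤ 10) :
    ((X5 P P' N r c).card : ℝ) ≤ Ts (an P) (N - (11 - c)) * an P' N := by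
  classical
  have h1 : (X5 P P' N r c).card ≤ ∑ k ∈ range (N + c - 10),
      ((S P (N - (11 - c) - k)).card * (S P' N).card) := by
    have hsub : X5 P P' N r c ⊆ (range (N + c - 10)).biUnion (fun k =>
        EvF (S P N) (S P' N) N r (k + 11) (N + 1 + c + (k + 11))) := by
      intro q hq
      rw [X5, mem_filter] at hq
      obtain ⟨h1, p, i, h2, h3, h4, h5, h6, s⟩ := hq
      rw [mem_biUnion]
      refine ⟨p - 11, by rw [mem_range]; omega, ?_⟩
      rw [EvF, mem_filter]
      have e : p - 11 + 11 = p := by omega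
      rw [e]
      exact ⟨h1, i, h3, by omega, s⟩
    refine (card_le_card hsub).trans (card_biUnion_le.trans (sum_le_sum ?_))
    intro k hk
    rw [mem_range] at hk
    apply EvF_card
    intro i hi hf
    have := Ev_C (P := P) (B := S P' N) (N := N) (r := r) (p := k + 11) (i := i) hi
      (by omega) (by omega)
    have e : i - 1 = N - (11 - c) - k := by omega
    rwa [e] at this
  have h2 : ((X5 P P' N r c).card : ℝ) ≤ ∑ k ∈ range (N + c - 10),
      (an P (N - (11 - c) - k) * an P' N) := by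
    refine (Nat.cast_le.2 h1).trans (le_of_eq ?_)
    push_cast
    rfl
  refine h2.trans ?_
  rw [← sum_mul]
  exact mul_le_mul_of_nonneg_right (sum_le_Ts _ (an_nonneg P) _ _ (by omega)) (an_nonneg _ _)

/-- swapping the two legs -/
lemma X5_swap {P P' : Par} {N : ℕ} {r : ℕ → ℕ} {c : ℕ} (hc : c ≤ 9) (hc1 : 1 ≤ c)
    (hN : 40 ≤ N) {q : List ℕ × List ℕ} (hq : q ∈ X5 P P' N r c)  :
    Prod.swap q ∈ X5 P' P N (rrev r) (10 - c) := by
  classical
  rw [X5, mem_filter, mem_product] at hq ⊢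
  obtain ⟨h1, p, i, h2, h3, h4, h5, h6, s⟩ := hq
  refine ⟨⟨h1.2, h1.1⟩, p, 2 * N + 12 - (i + 2 * p), h2, by omega, by omega, by omega, by omega,
    Sq_mirror h3 h6 s⟩

lemma XL_swap {P P' : Par} {N : ℕ} {r : ℕ → ℕ} {q : List ℕ × List ℕ} {p i : ℕ}
    (h1 : q.1 ∈ S P N) (h2 : q.2 ∈ S P' N) (hi : 1 ≤ i) (hiN : i ≤ N) (he : N + 11 ≤ i + p)
    (hf : i + 2 * p ≤ 2 * N + 11) (s : Sq (GF N r q.1 q.2) p i) :
    Prod.swap q ∈ XL P' P N (rrev r) := by
  classical
  rw [XL, mem_filter, mem_product]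
  exact ⟨⟨h2, h1⟩, p, 2 * N + 12 - (i + 2 * p), by omega, by omega, by omega, by omega,
    Sq_mirror hi hf s⟩

/-- all remaining squares across the block -/
lemma cross_cases {P P' : Par} {N : ℕ} {r : ℕ → ℕ} {q : List ℕ × List ℕ} {p i : ℕ}
    (hN : 40 ≤ N)
    (h1 : q.1 ∈ S P N) (h2 : q.2 ∈ S P' N) (hi : 1 ≤ i) (hiN : i ≤ N) (hf : N + 12 ≤ i + 2 * p)
    (hf' : i + 2 * p ≤ 2 * N + 11) (s : Sq (GF N r q.1 q.2) p i) :
    q ∈ XL P P' N r ∨ Prod.swap q ∈ XL P' P N (rrev r) ∨ q ∈ X3 P P' N r ∨ q ∈ X4 P P' N r ∨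
    (∃ c ∈ Icc 1 5, q ∈ X5 P P' N r c) ∨
    (∃ c ∈ Icc 1 4, Prod.swap q ∈ X5 P' P N (rrev r) c) := by
  classical
  by_cases a1 : i + p ≤ N + 1
  · left
    rw [XL, mem_filter, mem_product]
    exact ⟨⟨h1, h2⟩, p, i, hi, a1, hf, hf', s⟩
  by_cases a2 : N + 11 ≤ i + p
  · right; left
    exact XL_swap h1 h2 hi hiN a2 hf' s
  right; right
  by_cases a3 : p ≤ 9
  · left
    rw [X3, mem_biUnion]
    refine ⟨p, by rw [mem_Icc]; omega, ?_⟩
    rw [mem_biUnion]
    refine ⟨i + p - (N + 1), by rw [mem_Icc]; omega, ?_⟩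
    rw [EvF, mem_filter, mem_product]
    exact ⟨⟨h1, h2⟩, i, hi, by omega, s⟩
  right
  by_cases a4 : p = 10
  · left
    subst a4
    rw [X4, mem_biUnion]
    refine ⟨i + 10 - (N + 1), by rw [mem_Icc]; omega, ?_⟩
    rw [EvF, mem_filter, mem_product]
    exact ⟨⟨h1, h2⟩, i, hi, by omega, s⟩
  right
  have hq : q ∈ X5 P P' N r (i + p - (N + 1)) := by
    rw [X5, mem_filter, mem_product]
    exact ⟨⟨h1, h2⟩, p, i, by omega, hi, hiN, by omega, hf', s⟩
  by_cases a5 : i + p - (N + 1) ≤ 5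
  · left
    exact ⟨_, by rw [mem_Icc]; omega, hq⟩
  · right
    exact ⟨10 - (i + p - (N + 1)), by rw [mem_Icc]; omega,
      X5_swap (by omega) (by omega) hN hq⟩

end Pool.Agent.H58.NR
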