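import Pool.Agent.H58.NRClose3

set_option autoImplicit false

namespace Pool.Agent.H58.NR

open Finset

lemma near_num (K : ℕ) (hK : 100 ≤ K) :
    (4 * K : ℝ) * (4 ^ (5 * K) * (4/7) ^ (35 * K)) ≤ 1/1000 := by
  have h1 : (4 : ℝ) ^ (5 * K) * (4/7) ^ (35 * K) = (4 ^ 5 * (4/7) ^ 35) ^ K := by
    rw [mul_pow, ← pow_mul, ← pow_mul]
  have h2 : (4 : ℝ) ^ 5 * (4/7) ^ 35 ≤ 1/1000 := by norm_num
  have h3 : ((4 : ℝ) ^ 5 * (4/7) ^ 35) ^ K ≤ (1/1000) ^ K :=
    pow_le_pow_left₀ (by positivity) h2 K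
  have h4 : (K : ℝ) ≤ 2 ^ K := by exact_mod_cast Nat.lt_two_pow_self.le
  rw [h1]
  calc (4 * K : ℝ) * (4 ^ 5 * (4/7) ^ 35) ^ K ≤ (4 * 2 ^ K) * (1/1000) ^ K := by
        apply mul_le_mul _ h3 (by positivity) (by positivity)
        linarith
    _ = 4 * (1/500) ^ K := by
        rw [mul_assoc, ← mul_pow]; norm_num
    _ ≤ 4 * (1/500) ^ 2 := by
        apply mul_le_mul_of_nonneg_left _ (by norm_num)
        exact pow_le_pow_of_le_one (by norm_num) (by norm_num) (by omega)
    _ ≤ 1/1000 := by norm_num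

lemma near_bound {P : Par} {d : ℕ → ℕ} (hP : ParOK P d) (n : LegNum P) {B : Finset (List ℕ)}
    {r : ℕ → ℕ} :
    ((∑ t ∈ Icc (NN P.K - P.K + 1) (NN P.K + 3 * P.K),
      (Ne (S P (NN P.K)) B P.K r t).card : ℕ) : ℝ) ≤ 1/1000 * (an P (NN P.K) * B.card) := by
  have hK := n.K100
  have hN : NN P.K = 50 * P.K := rfl
  have key : ∀ t ∈ Icc (NN P.K - P.K + 1) (NN P.K + 3 * P.K),
      ((Ne (S P (NN P.K)) B P.K r t).card : ℝ) ≤
      (4 ^ (5 * P.K) * (4/7) ^ (35 * P.K)) * (an P (NN P.K) * B.card) := by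
    intro t ht
    rw [mem_Icc] at ht
    have h1 := Ne_card hP (B := B) (r := r) (t := t) (by omega)
    have h2 : ((Ne (S P (NN P.K)) B P.K r t).card : ℝ) ≤
        4 ^ (5 * P.K) * an P (NN P.K - 35 * P.K) * B.card := by
      unfold an; exact_mod_cast h1
    have h3 := n.geo2 (35 * P.K) (by omega)
    refine h2.trans ?_
    calc (4 : ℝ) ^ (5 * P.K) * an P (NN P.K - 35 * P.K) * B.card
        ≤ 4 ^ (5 * P.K) * ((4/7) ^ (35 * P.K) * an P (NN P.K)) * B.card := by gcongr
      _ = _ := by ring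
  push_cast
  refine (sum_le_card_nsmul _ _ _ key).trans ?_
  rw [nsmul_eq_mul, Nat.card_Icc]
  have e : ((NN P.K + 3 * P.K + 1 - (NN P.K - P.K + 1) : ℕ) : ℝ) = 4 * P.K := by
    have : NN P.K + 3 * P.K + 1 - (NN P.K - P.K + 1) = 4 * P.K := by omega
    rw [this]; push_cast; ring
  rw [e, ← mul_assoc]
  apply mul_le_mul_of_nonneg_right (near_num P.K hK)
  exact mul_nonneg (an_nonneg _ _) (by positivity)

lemma Ne_bad {A B : Finset (List ℕ)} {K : ℕ} {r : ℕ → ℕ} {q : List ℕ × List ℕ}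
    (h1 : q.1 ∈ A) (h2 : q.2 ∈ B)
    (h : q ∉ (Icc (NN K - K + 1) (NN K + 3 * K)).biUnion (fun t => Ne A B K r t)) :
    ∀ t, NN K < t + K → t ≤ NN K + 3 * K → ∃ b, 1 ≤ b ∧ b + 5 * K ≤ NN K ∧
      GF (NN K) r q.1 q.2 b ≠ GF (NN K) r q.1 q.2 (b + t) := by
  classical
  intro t ht1 ht2
  by_contra hcon
  push Not at hcon
  apply h
  have hN : NN K = 50 * K := rfl
  rw [mem_biUnion]
  refine ⟨t, by rw [mem_Icc]; omega, ?_⟩
  unfold Ne
  rw [mem_filter, mem_product]
  exact ⟨⟨h1, h2⟩, hcon⟩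

theorem close_exists {P P' : Par} {d d' : ℕ → ℕ} (hP : ParOK P d) (hP' : ParOK P' d')
    (hKK : P'.K = P.K) (n : LegNum P) (n' : LegNum P') {r : ℕ → ℕ} (hb : BlockOK r)
    (hr : ((Bad1 P (r 0)).card : ℝ) +
      ∑ k ∈ range (NN P.K - 1), ((k : ℝ) + 1) * (Fk P (r 0) (r 1) k).card ≤
        6665/10000 * an P (NN P.K))
    (hr' : ((Bad1 P' (rrev r 0)).card : ℝ) +
      ∑ k ∈ range (NN P'.K - 1), ((k : ℝ) + 1) * (Fk P' (rrev r 0) (rrev r 1) k).card ≤
        6665/10000 * an P' (NN P'.K)) :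
    ∃ l ∈ S P (NN P.K), ∃ m ∈ S P' (NN P.K),
      (∀ p i, 1 ≤ p → 1 ≤ i → i + 2 * p ≤ 2 * NN P.K + 11 → ¬ Sq (GF (NN P.K) r l m) p i) ∧
      (∀ t, NN P.K < t + P.K → t ≤ NN P.K + 3 * P.K → ∃ b, 1 ≤ b ∧ b + 5 * P.K ≤ NN P.K ∧
        GF (NN P.K) r l m b ≠ GF (NN P.K) r l m (b + t)) ∧
      (∀ t, NN P.K < t + P.K → t ≤ NN P.K + 3 * P.K → ∃ b, 1 ≤ b ∧ b + 5 * P.K ≤ NN P.K ∧
        GF (NN P.K) (rrev r) m l b ≠ GF (NN P.K) (rrev r) m l (b + t)) := by
  classical
  obtain ⟨il, ir, cc, c1, c2, c3, c4, c5, c6⟩ := hb.cost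
  have hK := n.K100
  have hN : NN P.K = 50 * P.K := rfl
  have lb := left_bound n hr
  have lb' := left_bound n' hr'
  have hS' : S P' (NN P'.K) = S P' (NN P.K) := by rw [hKK]
  have han' : an P' (NN P'.K) = an P' (NN P.K) := by rw [hKK]
  set N := NN P.K with hNdef
  set a := an P N with ha
  set b := an P' N with hbdef
  have ha1 : 1 ≤ a := n.pos
  have hb1 : 1 ≤ b := by have := n'.pos; rw [han'] at this; exact this
  have hab : 0 < a * b := by positivity
  -- good legs
  set Gl := S P N \ LBad P r with hGl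
  set Gr := S P' N \ LBad P' (rrev r) with hGr
  have hLsub : LBad P r ⊆ S P N := filter_subset _ _
  have hRsub : LBad P' (rrev r) ⊆ S P' N := by rw [← hS']; exact filter_subset _ _
  have gl : (Gl.card : ℝ) = a - (LBad P r).card := by
    rw [hGl, cast_card_sdiff hLsub]; rfl
  have gr : (Gr.card : ℝ) = b - (LBad P' (rrev r)).card := by
    rw [hGr, cast_card_sdiff hRsub]; rfl
  rw [han'] at lb'
  have CLl : (CL r : ℝ) ≤ il := by exact_mod_cast c4
  have CLr : (CL (rrev r) : ℝ) ≤ ir := by exact_mod_cast c5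
  have CCc : (CC r : ℝ) ≤ cc := by exact_mod_cast c6
  have hil : (il : ℝ) ≤ 332 := by exact_mod_cast c1
  have hir : (ir : ℝ) ≤ 332 := by exact_mod_cast c2
  have hcc : (1000 * (cc : ℝ) + 40000) ≤ (333 - il) * (333 - ir) := by
    have h1 : ((333 - il : ℕ) : ℝ) = 333 - il := by
      rw [Nat.cast_sub (by omega)]; norm_num
    have h2 : ((333 - ir : ℕ) : ℝ) = 333 - ir := by
      rw [Nat.cast_sub (by omega)]; norm_num
    rw [← h1, ← h2]
    exact_mod_cast c3
  have gl2 : (333 - (il : ℝ)) / 1000 * a ≤ Gl.card := by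
    rw [gl]
    have : (CL r : ℝ) / 1000 * a ≤ (il : ℝ) / 1000 * a := by gcongr
    nlinarith
  have gr2 : (333 - (ir : ℝ)) / 1000 * b ≤ Gr.card := by
    rw [gr]
    have : (CL (rrev r) : ℝ) / 1000 * b ≤ (ir : ℝ) / 1000 * b := by gcongr
    nlinarith
  have gg : (1000 * (cc : ℝ) + 40000) / 1000000 * (a * b) ≤ (Gl.card : ℝ) * Gr.card := by
    calc (1000 * (cc : ℝ) + 40000) / 1000000 * (a * b)
        ≤ ((333 - (il : ℝ)) * (333 - ir)) / 1000000 * (a * b) := by gcongr
      _ = ((333 - (il : ℝ)) / 1000 * a) * ((333 - (ir : ℝ)) / 1000 * b) := by ring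
      _ ≤ (Gl.card : ℝ) * Gr.card := by
        apply mul_le_mul gl2 gr2
        · have : 0 ≤ 333 - (ir : ℝ) := by linarith
          positivity
        · positivity
  -- cross events
  set B1 := XL P P' N r
  set B2 := (XL P' P N (rrev r)).image Prod.swap
  set B3 := X3 P P' N r
  set B4 := X4 P P' N r
  set B5 := (Icc 1 5).biUnion (fun c => X5 P P' N r c)
  set B6 := (Icc 1 4).biUnion (fun c => (X5 P' P N (rrev r) c).image Prod.swap)
  set B7 := (Icc (N - P.K + 1) (N + 3 * P.K)).biUnion (fun t => Ne (S P N) (S P' N) P.K r t)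
  set B8 := (Icc (N - P.K + 1) (N + 3 * P.K)).biUnion (fun t =>
    (Ne (S P' N) (S P N) P.K (rrev r) t).image Prod.swap)
  have fsP := n.fs 9 (by norm_num)
  have fsP' := n'.fs 9 (by norm_num)
  have geoP := n.geo
  have geoP' := n'.geo
  have tsP := n.ts
  have tsP' := n'.ts
  rw [hKK] at fsP'
  simp only [hKK] at geoP' tsP'
  have b1 : (B1.card : ℝ) ≤ 381/125 * (1000/2349) ^ 9 * (a * b) := by
    refine (XL_card (by omega)).trans ?_
    have h1 := geoP 9 (by norm_num)
    calc Fs (an P) (N - 9) * an P' N ≤ (381/125 * ((1000/2349) ^ 9 * a)) * b := by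
          gcongr
          exact fsP.trans (by gcongr)
      _ = _ := by ring
  have b2 : (B2.card : ℝ) ≤ 381/125 * (1000/2349) ^ 9 * (a * b) := by
    refine (Nat.cast_le.2 card_image_le).trans ?_
    refine (XL_card (by omega)).trans ?_
    have h1 := geoP' 9 (by norm_num)
    calc Fs (an P') (N - 9) * an P N ≤ (381/125 * ((1000/2349) ^ 9 * b)) * a := by
          gcongr
          exact fsP'.trans (by gcongr)
      _ = _ := by ring
  have b3 : (B3.card : ℝ) ≤ (cc : ℝ) / 1000 * (a * b) := by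
    refine (X3_card n n' hKK).trans ?_
    gcongr
  have b4 : (B4.card : ℝ) ≤ (9 * (1000/2349) ^ 10) * (a * b) := X4_card n n' hKK
  have b5 : (B5.card : ℝ) ≤ ∑ c ∈ Icc 1 5, 1743/1000 * (1000/2349) ^ (11 - c) * (a * b) := by
    have h1 : (B5.card : ℝ) ≤ ∑ c ∈ Icc 1 5, ((X5 P P' N r c).card : ℝ) := by
      have := card_biUnion_le (s := Icc 1 5) (t := fun c => X5 P P' N r c)
      exact_mod_cast this
    refine h1.trans (sum_le_sum ?_)
    intro c hc
    rw [mem_Icc] at hc
    refine (X5_card (by omega) (by omega)).trans ?_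
    have h2 := tsP (11 - c) (by omega)
    have h3 := geoP (11 - c) (by omega)
    calc Ts (an P) (N - (11 - c)) * an P' N ≤ (1743/1000 * ((1000/2349) ^ (11 - c) * a)) * b := by
          gcongr
          exact h2.trans (by gcongr)
      _ = _ := by ring
  have b6 : (B6.card : ℝ) ≤ ∑ c ∈ Icc 1 4, 1743/1000 * (1000/2349) ^ (11 - c) * (a * b) := by
    have h1 : (B6.card : ℝ) ≤ ∑ c ∈ Icc 1 4, ((X5 P' P N (rrev r) c).card : ℝ) := by
      have := card_biUnion_le (s := Icc 1 4)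
        (t := fun c => (X5 P' P N (rrev r) c).image Prod.swap)
      have h2 : ∑ c ∈ Icc 1 4, ((X5 P' P N (rrev r) c).image Prod.swap).card ≤
          ∑ c ∈ Icc 1 4, (X5 P' P N (rrev r) c).card := sum_le_sum (fun c _ => card_image_le)
      exact_mod_cast this.trans h2
    refine h1.trans (sum_le_sum ?_)
    intro c hc
    rw [mem_Icc] at hc
    refine (X5_card (by omega) (by omega)).trans ?_
    have h2 := tsP' (11 - c) (by omega)
    have h3 := geoP' (11 - c) (by omega)
    calc Ts (an P') (N - (11 - c)) * an P N ≤ (1743/1000 * ((1000/2349) ^ (11 - c) * b)) * a := by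
          gcongr
          exact h2.trans (by gcongr)
      _ = _ := by ring
  have b7 : (B7.card : ℝ) ≤ 1/1000 * (a * b) := by
    refine (Nat.cast_le.2 card_biUnion_le).trans ?_
    exact near_bound hP n
  have b8 : (B8.card : ℝ) ≤ 1/1000 * (a * b) := by
    have h1 : B8.card ≤ ∑ t ∈ Icc (N - P.K + 1) (N + 3 * P.K),
        (Ne (S P' N) (S P N) P.K (rrev r) t).card :=
      card_biUnion_le.trans (sum_le_sum (fun t _ => card_image_le))
    refine (Nat.cast_le.2 h1).trans ?_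
    have h2 := near_bound hP' n' (B := S P N) (r := rrev r)
    rw [hKK] at h2
    refine h2.trans (le_of_eq ?_)
    rw [mul_comm a b]
    rfl
  -- the total
  have hlt : ((B1 ∪ B2 ∪ B3 ∪ B4 ∪ B5 ∪ B6 ∪ B7 ∪ B8).card : ℝ) < ((Gl ×ˢ Gr).card : ℝ) := by
    have u : (B1 ∪ B2 ∪ B3 ∪ B4 ∪ B5 ∪ B6 ∪ B7 ∪ B8).card ≤ B1.card + B2.card + B3.card +
        B4.card + B5.card + B6.card + B7.card + B8.card := by
      have k1 := card_union_le (B1 ∪ B2 ∪ B3 ∪ B4 ∪ B5 ∪ B6 ∪ B7) B8
      have k2 := card_union_le (B1 ∪ B2 ∪ B3 ∪ B4 ∪ B5 ∪ B6) B7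
      have k3 := card_union_le (B1 ∪ B2 ∪ B3 ∪ B4 ∪ B5) B6
      have k4 := card_union_le (B1 ∪ B2 ∪ B3 ∪ B4) B5
      have k5 := card_union_le (B1 ∪ B2 ∪ B3) B4
      have k6 := card_union_le (B1 ∪ B2) B3
      have k7 := card_union_le B1 B2
      omega
    have u' : ((B1 ∪ B2 ∪ B3 ∪ B4 ∪ B5 ∪ B6 ∪ B7 ∪ B8).card : ℝ) ≤ B1.card + B2.card + B3.card +
        B4.card + B5.card + B6.card + B7.card + B8.card := by exact_mod_cast u
    rw [card_product]
    push_cast
    refine lt_of_le_of_lt u' (lt_of_lt_of_le ?_ gg)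
    have i5 : (Icc 1 5 : Finset ℕ) = {1, 2, 3, 4, 5} := by decide
    have i4 : (Icc 1 4 : Finset ℕ) = {1, 2, 3, 4} := by decide
    rw [i5] at b5
    rw [i4] at b6
    rw [sum_insert (by decide), sum_insert (by decide), sum_insert (by decide),
      sum_insert (by decide), sum_singleton] at b5
    rw [sum_insert (by decide), sum_insert (by decide), sum_insert (by decide),
      sum_singleton] at b6
    norm_num at b1 b2 b4 b5 b6
    linarith
  have hlt' : (B1 ∪ B2 ∪ B3 ∪ B4 ∪ B5 ∪ B6 ∪ B7 ∪ B8).card < (Gl ×ˢ Gr).card := by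
    exact_mod_cast hlt
  obtain ⟨⟨l, m⟩, hq, hnq⟩ := exists_mem_notMem_of_card_lt_card hlt'
  rw [mem_product] at hq
  obtain ⟨hql, hqm⟩ := hq
  simp only at hql hqm
  rw [hGl, mem_sdiff] at hql
  rw [hGr, mem_sdiff] at hqm
  simp only [mem_union, not_or] at hnq
  obtain ⟨⟨⟨⟨⟨⟨⟨n1, n2⟩, n3⟩, n4⟩, n5⟩, n6⟩, n7⟩, n8⟩ := hnq
  refine ⟨l, hql.1, m, hqm.1, ?_, ?_, ?_⟩
  · intro p i hp hi hf s
    by_cases hiN : i ≤ N
    · by_cases hf1 : i + 2 * p ≤ N + 1
      · exact no_sq_left hql.1 hp hi hf1 s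
      · by_cases hf2 : i + 2 * p ≤ N + 11
        · apply hql.2
          rw [LBad, mem_filter]
          refine ⟨hql.1, p, i, hp, hi, hiN, hf2, ?_⟩
          intro k hk
          have e : ∀ x, x ≤ N + 10 → GF N r l [] x = GF N r l m x := by
            intro x hx
            by_cases hx' : x ≤ N
            · rw [GF_left hx', GF_left hx']
            · rw [GF_mid (by omega) hx, GF_mid (by omega) hx]
          rw [e _ (by omega), e _ (by omega)]
          exact s k hk
        · rcases cross_cases (q := (l, m)) (by omega) hql.1 hqm.1 hi hiN (by omega) hf s with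
            h | h | h | h | ⟨c, hc, h⟩ | ⟨c, hc, h⟩
          · exact n1 h
          · apply n2
            rw [mem_image]
            exact ⟨_, h, rfl⟩
          · exact n3 h
          · exact n4 h
          · apply n5
            rw [mem_biUnion]
            exact ⟨c, hc, h⟩
          · apply n6
            rw [mem_biUnion]
            refine ⟨c, hc, ?_⟩
            rw [mem_image]
            exact ⟨_, h, rfl⟩
    · by_cases hf2 : i + 2 * p ≤ N + 11
      · obtain ⟨k, hk, hne⟩ := hb.sf p (i - N - 1) hp (by omega)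
        apply hne
        have := s k hk
        rw [GF_mid (by omega) (by omega), GF_mid (by omega) (by omega)] at this
        have e1 : i + k - N - 1 = i - N - 1 + k := by omega
        have e2 : i + p + k - N - 1 = i - N - 1 + p + k := by omega
        rwa [e1, e2] at this
      · have s' := Sq_mirror hi hf s
        by_cases hf1 : (2 * N + 12 - (i + 2 * p)) + 2 * p ≤ N + 1
        · exact no_sq_left hqm.1 hp (by omega) hf1 s'
        · apply hqm.2
          rw [LBad, mem_filter]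
          rw [hKK]
          refine ⟨hqm.1, p, 2 * N + 12 - (i + 2 * p), hp, by omega, by omega, by omega, ?_⟩
          intro k hk
          have e : ∀ x, x ≤ N + 10 → GF N (rrev r) m [] x = GF N (rrev r) m l x := by
            intro x hx
            by_cases hx' : x ≤ N
            · rw [GF_left hx', GF_left hx']
            · rw [GF_mid (by omega) hx, GF_mid (by omega) hx]
          have := s' k hk
          rw [← e _ (by omega), ← e _ (by omega)] at this
          exact this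
  · exact Ne_bad (q := (l, m)) hql.1 hqm.1 n7
  · apply Ne_bad (q := (m, l)) hqm.1 hql.1
    intro h
    apply n8
    rw [mem_biUnion] at h ⊢
    obtain ⟨t, ht, h⟩ := h
    refine ⟨t, ht, ?_⟩
    rw [mem_image]
    exact ⟨_, h, rfl⟩

end Pool.Agent.H58.NR
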