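import Pool.Agent.H58.NRDefs

set_option autoImplicit false

namespace Pool.Agent.H58.NR

open Finset

/-- among the labels `1, ..., x` at most `k` are not good -/
def atMost (good : ℕ → Bool) : ℕ → ℕ → Bool
  | 0, _ => true
  | x + 1, k =>
    match good (x + 1) with
    | true => atMost good x k
    | false =>
      match k with
      | 0 => false
      | k' + 1 => atMost good x k'

/-- A word of labels is coded in base 32; the unknown digit `p` is coded by `16 + p`.
`setd n p x` sets the unknown digit `p` to `x`. -/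
def setd (n p x : ℕ) : ℕ := n + x * 2 ^ (5 * p) - (16 + p) * 2 ^ (5 * p)

/-- game value: positions `ps` remain to be filled, `w` is the current (coded) word of labels, the
labels used are `1, ..., mx`, at most `k` labels may be losing. -/
def win (P : ℕ → Bool) (pre : ℕ → Bool) (k : ℕ) : List ℕ → ℕ → ℕ → Bool
  | [], w, _ => P w
  | p :: ps, w, mx =>
    match win P pre k ps (setd w p (mx + 1)) (mx + 1) with
    | false => false
    | true => atMost (fun x => match pre (setd w p x) with
        | false => false
        | true => win P pre k ps (setd w p x) mx) mx k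

/-- digit -/
def dg (n i : ℕ) : ℕ := (n >>> (5 * i)) % 32

/-- equality of digits -/
def ed (n i j : ℕ) : Bool := Nat.beq (dg n i) (dg n j)

lemma atMost_sound (good : ℕ → Bool) : ∀ (m k : ℕ), atMost good m k = true →
    ((Icc 1 m).filter (fun x => good x = false)).card ≤ k := by
  intro m
  induction m with
  | zero => intro k _; simp
  | succ m ih =>
    intro k h
    have hI : Icc 1 (m + 1) = insert (m + 1) (Icc 1 m) := by
      ext x; simp only [mem_Icc, mem_insert]; omega
    rw [hI, filter_insert]
    unfold atMost at h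
    cases hg : good (m + 1) with
    | true =>
      rw [hg] at h
      simp only [Bool.true_eq_false, if_false]
      exact ih k h
    | false =>
      rw [hg] at h
      simp only [if_true]
      cases k with
      | zero => simp at h
      | succ k =>
        simp only at h
        refine (card_insert_le _ _).trans ?_
        have := ih k h
        omega

lemma dg_eq (n i : ℕ) : dg n i = n / 32 ^ i % 32 := by
  unfold dg
  rw [Nat.shiftRight_eq_div_pow, pow_mul]
  norm_num

lemma dg_aux (r x B p q : ℕ) (hr : r < 32 ^ p) (hx : x < 32) :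
    (r + 32 ^ p * (x + 32 * B)) / 32 ^ q % 32 =
      if q < p then r / 32 ^ q % 32 else if q = p then x else B / 32 ^ (q - p - 1) % 32 := by
  split_ifs with h1 h2
  · obtain ⟨d, rfl⟩ : ∃ d, p = q + (d + 1) := ⟨p - q - 1, by omega⟩
    have e : r + 32 ^ (q + (d + 1)) * (x + 32 * B) =
        r + 32 ^ q * (32 * (32 ^ d * (x + 32 * B))) := by ring
    rw [e, Nat.add_mul_div_left _ _ (by positivity), Nat.add_mul_mod_self_left]
  · subst h2
    rw [Nat.add_mul_div_left _ _ (by positivity), Nat.div_eq_of_lt hr, zero_add,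
      Nat.add_mul_mod_self_left, Nat.mod_eq_of_lt hx]
  · obtain ⟨d, rfl⟩ : ∃ d, q = p + (1 + d) := ⟨q - p - 1, by omega⟩
    rw [pow_add, ← Nat.div_div_eq_div_mul, Nat.add_mul_div_left _ _ (by positivity),
      Nat.div_eq_of_lt hr, zero_add, pow_add, ← Nat.div_div_eq_div_mul, pow_one,
      Nat.add_mul_div_left _ _ (by norm_num), Nat.div_eq_of_lt hx, zero_add]
    congr 3
    omega

lemma dg_setd (n p x : ℕ) (hp : p < 16) (h : dg n p = 16 + p) (hx : x < 32) (q : ℕ) :
    dg (setd n p x) q = if q = p then x else dg n q := by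
  rw [dg_eq] at h
  obtain ⟨r, B, hr, hn⟩ : ∃ r B, r < 32 ^ p ∧ n = r + 32 ^ p * ((16 + p) + 32 * B) := by
    refine ⟨n % 32 ^ p, n / 32 ^ p / 32, Nat.mod_lt _ (by positivity), ?_⟩
    rw [← h, Nat.mod_add_div, Nat.mod_add_div]
  have hs : setd n p x = r + 32 ^ p * (x + 32 * B) := by
    unfold setd
    rw [pow_mul, hn]
    norm_num
    have e1 : r + 32 ^ p * (16 + p + 32 * B) + x * 32 ^ p =
      (r + 32 ^ p * (x + 32 * B)) + (16 + p) * 32 ^ p := by ring
    rw [e1, Nat.add_sub_cancel]
  rw [dg_eq, dg_eq, hs, hn, dg_aux r x B p q hr hx, dg_aux r (16 + p) B p q hr (by omega)]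
  split_ifs <;> first | rfl | omega

theorem win_sound (P pre : ℕ → Bool) (k M : ℕ) :
    ∀ (ps : List ℕ) (n mx : ℕ) (f : ℕ → ℕ) (A : ℕ → Finset ℕ),
      ps.Nodup → (∀ p ∈ ps, p < 16 ∧ dg n p = 16 + p) →
      (∀ q < M, q ∉ ps → 1 ≤ dg n q ∧ dg n q ≤ mx) → mx + ps.length ≤ 15 →
      Set.InjOn f (Icc 1 mx : Finset ℕ) → (∀ p ∈ ps, k + 1 ≤ (A p).card) →
      win P pre k ps n mx = true →
      ∃ (n' mx' : ℕ) (f' : ℕ → ℕ), P n' = true ∧ (∀ q, q ∉ ps → dg n' q = dg n q) ∧
        (∀ x ∈ Icc 1 mx, f' x = f x) ∧ (∀ p ∈ ps, f' (dg n' p) ∈ A p) ∧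
        Set.InjOn f' (Icc 1 mx' : Finset ℕ) ∧ (∀ q < M, 1 ≤ dg n' q ∧ dg n' q ≤ mx') := by
  intro ps
  induction ps with
  | nil =>
    intro n mx f A _ _ hq _ hf _ hw
    refine ⟨n, mx, f, ?_, fun q _ => rfl, fun x _ => rfl, ?_, hf, fun q hqM => hq q hqM (by simp)⟩
    · simpa [win] using hw
    · intro p hp; simp at hp
  | cons p ps ih =>
    intro n mx f A hnd hps hq hlen hf hA hw
    have hpp := hps p (by simp)
    have hnd' : p ∉ ps ∧ ps.Nodup := by simpa using hnd
    have hlen' : mx + (ps.length + 1) ≤ 15 := by simpa using hlen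
    rw [win] at hw
    have hw1 : win P pre k ps (setd n p (mx + 1)) (mx + 1) = true := by
      cases h : win P pre k ps (setd n p (mx + 1)) (mx + 1) with
      | true => rfl
      | false => rw [h] at hw; simp at hw
    rw [hw1] at hw
    simp only at hw
    have hgen : ∀ x, 1 ≤ x → x ≤ mx + 1 → ∀ q, dg (setd n p x) q = if q = p then x else dg n q :=
      fun x h1 h2 q => dg_setd n p x hpp.1 hpp.2 (by omega) q
    have hps' : ∀ x, 1 ≤ x → x ≤ mx + 1 → ∀ p' ∈ ps, p' < 16 ∧ dg (setd n p x) p' = 16 + p' := by
      intro x h1 h2 p' hp'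
      have h3 := hps p' (by simp [hp'])
      refine ⟨h3.1, ?_⟩
      rw [hgen x h1 h2, if_neg, h3.2]
      rintro rfl
      exact hnd'.1 hp'
    have hq' : ∀ x mx', 1 ≤ x → x ≤ mx + 1 → x ≤ mx' → mx ≤ mx' → ∀ q < M, q ∉ ps →
        1 ≤ dg (setd n p x) q ∧ dg (setd n p x) q ≤ mx' := by
      intro x mx' h1 h2 h3 h4 q hqM hqp
      rw [hgen x h1 h2]
      split_ifs with h5
      · exact ⟨h1, h3⟩
      · have := hq q hqM (by simp [h5, hqp])
        exact ⟨this.1, this.2.trans h4⟩
    by_cases hfresh : ∃ a ∈ A p, ∀ x ∈ Icc 1 mx, f x ≠ a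
    · obtain ⟨a, haA, ha⟩ := hfresh
      have hf1 : Set.InjOn (Function.update f (mx + 1) a) (Icc 1 (mx + 1) : Finset ℕ) := by
        intro x hx y hy hxy
        simp only [coe_Icc, Set.mem_Icc] at hx hy
        simp only [Function.update_apply] at hxy
        split_ifs at hxy with h1 h2 h2
        · omega
        · exact absurd hxy.symm (ha y (by simp; omega))
        · exact absurd hxy (ha x (by simp; omega))
        · exact hf (by simp; omega) (by simp; omega) hxy
      obtain ⟨n', mx', f', r1, r2, r3, r4, r5, r6⟩ := ih (setd n p (mx + 1)) (mx + 1)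
        (Function.update f (mx + 1) a) A hnd'.2 (hps' _ (by omega) le_rfl)
        (hq' _ _ (by omega) le_rfl le_rfl (by omega)) (by omega) hf1
        (fun q hq => hA q (by simp [hq])) hw1
      refine ⟨n', mx', f', r1, ?_, ?_, ?_, r5, r6⟩
      · intro q hq
        simp only [List.mem_cons, not_or] at hq
        rw [r2 q hq.2, hgen _ (by omega) le_rfl, if_neg hq.1]
      · intro x hx
        rw [r3 x (by simp at hx ⊢; omega), Function.update_apply, if_neg]
        simp at hx; omega
      · intro q hq
        rcases List.mem_cons.1 hq with rfl | hq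
        · rw [r2 q hnd'.1, hgen _ (by omega) le_rfl, if_pos rfl, r3 _ (by simp),
            Function.update_apply, if_pos rfl]
          exact haA
        · exact r4 q hq
    · push Not at hfresh
      have hX : k + 1 ≤ ((Icc 1 mx).filter (fun x => f x ∈ A p)).card := by
        refine (hA p (by simp)).trans ?_
        have : A p ⊆ ((Icc 1 mx).filter (fun x => f x ∈ A p)).image f := by
          intro a ha
          obtain ⟨x, hx, hxa⟩ := hfresh a ha
          rw [mem_image]
          exact ⟨x, by rw [mem_filter]; exact ⟨hx, by rw [hxa]; exact ha⟩, hxa⟩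
        exact (card_le_card this).trans card_image_le
      have hL := atMost_sound _ mx k hw
      obtain ⟨x, hx1, hx2⟩ : ∃ x ∈ ((Icc 1 mx).filter (fun x => f x ∈ A p)),
          x ∉ ((Icc 1 mx).filter (fun x => (match pre (setd n p x) with
            | false => false
            | true => win P pre k ps (setd n p x) mx) = false)) := by
        by_contra hcon
        push Not at hcon
        have := card_le_card (fun x hx => hcon x hx)
        omega
      rw [mem_filter, mem_Icc] at hx1
      have hwx : win P pre k ps (setd n p x) mx = true := by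
        rw [mem_filter, not_and] at hx2
        have h3 := hx2 (by rw [mem_Icc]; exact hx1.1)
        cases h4 : pre (setd n p x) with
        | false => rw [h4] at h3; simp at h3
        | true =>
          rw [h4] at h3
          simpa using h3
      obtain ⟨n', mx', f', r1, r2, r3, r4, r5, r6⟩ := ih (setd n p x) mx f A hnd'.2
        (hps' _ hx1.1.1 (by omega)) (hq' _ _ hx1.1.1 (by omega) hx1.1.2 le_rfl) (by omega) hf
        (fun q hq => hA q (by simp [hq])) hwx
      refine ⟨n', mx', f', r1, ?_, r3, ?_, r5, r6⟩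
      · intro q hq
        simp only [List.mem_cons, not_or] at hq
        rw [r2 q hq.2, hgen _ hx1.1.1 (by omega), if_neg hq.1]
      · intro q hq
        rcases List.mem_cons.1 hq with rfl | hq
        · rw [r2 q hnd'.1, hgen _ hx1.1.1 (by omega), if_pos rfl,
            r3 _ (by simp; exact hx1.1)]
          exact hx1.2
        · exact r4 q hq

end Pool.Agent.H58.NR
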