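import Pool.Agent.H58.NRPop3

set_option autoImplicit false

namespace Pool.Agent.H58.NR

open Finset

lemma leg_first {P : Par} {d : ℕ → ℕ} (h : ParOK P d) {N : ℕ} {l : List ℕ} (hl : l ∈ S P N)
    {g : ℕ → ℕ} (hg : ∀ i, 1 ≤ i → i ≤ N → g i = l.getD (N - i) 0) (i : ℕ) (h1 : 1 ≤ i)
    (h9 : i ≤ 9) (hN : i ≤ N) : g i = d (i - 1) := by
  rw [hg i h1 hN, first_letters h hl (N - i) (by omega) (by omega)]
  congr 1; omega

theorem legGood_of {P : Par} {d : ℕ → ℕ} (h : ParOK P d) {l : List ℕ}
    (hl : l ∈ S P (NN P.K)) {g : ℕ → ℕ}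
    (hg : ∀ i, 1 ≤ i → i ≤ NN P.K → g i = l.getD (NN P.K - i) 0)
    (hnear : ∀ t, NN P.K < t + P.K → t ≤ NN P.K + 3 * P.K →
      ∃ b, 1 ≤ b ∧ b + 5 * P.K ≤ NN P.K ∧ g b ≠ g (b + t)) :
    LegGood P.K P.c P.forb g := by
  have hK := h.K100
  set N := NN P.K with hN
  have hN' : N = 50 * P.K := rfl
  -- letters of the suffixes
  have hw : ∀ n, n ≤ N → l.drop (N - n) ∈ S P n := by
    intro n hn
    have := drop_S hl (N - n) (by omega)
    have e : N - (N - n) = n := by omega
    rwa [e] at this
  have hwg : ∀ n, n ≤ N → ∀ i, i < n → (l.drop (N - n)).getD i 0 = g (n - i) := by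
    intro n hn i hi
    rw [getD_drop, hg (n - i) (by omega) (by omega)]
    congr 1; omega
  refine ⟨?_, ?_, ?_, ?_, ?_, ?_, hnear⟩
  · intro i h1 h9
    rw [leg_first h hl hg i h1 h9 (by omega)]
    exact h.dc _ (by omega)
  · intro hT
    apply h.pre.nt
    refine Threat.congr ?_ hT
    intro j hj
    rw [leg_first h hl hg (j + 1) (by omega) (by omega) (by omega)]
    rfl
  · intro t h10 ht hgt
    have hwt := hw t (by omega)
    have hwgt := hwg t (by omega)
    obtain ⟨m, rfl⟩ : ∃ m, t = m + 1 := ⟨t - 1, by omega⟩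
    obtain ⟨x, l', e, _, h2, h3⟩ := mem_S_succ.1 hwt
    have hl' := length_S h2
    have hx : x = P.c := by
      have := hwgt 0 (by omega)
      rw [e] at this
      simp only [List.getD_cons_zero] at this
      rw [this, ← hgt]; congr 1
    obtain ⟨y, hy⟩ := (h3.2.2 (by omega) (by omega)).2.1 hx
    refine Threat.congr ?_ hy.threat
    intro j hj
    have := hwgt (j + 1) (by omega)
    rw [e, List.getD_cons_succ] at this
    rw [this]
    congr 1
    omega
  · intro t h10 ht hgt
    by_contra hcon
    push Not at hcon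
    have hwt := hw (2 * t - 9) (by omega)
    have hwgt := hwg (2 * t - 9) (by omega)
    obtain ⟨m, hm⟩ : ∃ m, 2 * t - 9 = m + 1 := ⟨2 * t - 10, by omega⟩
    rw [hm] at hwt hwgt
    obtain ⟨x, l', e, _, h2, h3⟩ := mem_S_succ.1 hwt
    have hl' := length_S h2
    have hlp := (h3.2.2 (by omega) (by omega)).2.2 (t - 9)
    apply hlp
    rw [← e]
    have hlen : (l.drop (N - (m + 1))).length = m + 1 := length_S hwt
    refine ⟨by omega, by omega, ?_, ?_⟩
    · have h4 : (l.drop (N - (m + 1))).drop (t - 9 + 9) =
          ((l.drop (N - (m + 1))).drop (t - 9 + 9)).take (t - 9) := by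
        rw [List.take_of_length_le]
        rw [List.length_drop, hlen]; omega
      rw [h4, take_eq_iff _ _ _ (by omega) (by rw [List.length_drop, hlen]; omega)]
      intro i hi
      rw [getD_drop (l.drop (N - (m + 1))) (t - 9 + 9) i, hwgt i (by omega),
        hwgt (t - 9 + 9 + i) (by omega)]
      have := hcon (t - 9 - i) (by omega) (by omega)
      have e1 : m + 1 - i = t + (t - 9 - i) := by omega
      have e2 : m + 1 - (t - 9 + 9 + i) = t - 9 - i := by omega
      rw [e1, e2]; exact this
    · rw [hwgt (t - 9) (by omega), ← hgt]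
      congr 1; omega
  · intro x y hx hxy hy
    by_contra hcon
    push Not at hcon
    have hwt := hw (y + P.K - 1) (by omega)
    have hwgt := hwg (y + P.K - 1) (by omega)
    have hlen := length_S hwt
    obtain ⟨m, hm⟩ : ∃ m, y + P.K - 1 = m + 1 := ⟨y + P.K - 2, by omega⟩
    rw [hm] at hwt hwgt hlen
    obtain ⟨x', l', e, _, h2, h3⟩ := mem_S_succ.1 hwt
    have h4 := h3.2.1
    rw [← e] at h4
    have h5 := (h4 (by omega)).2 (y - x) (by omega) (by omega) (by omega)
    apply h5
    rw [take_eq_iff _ _ _ (by rw [List.length_drop, hlen]; omega) (by omega)]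
    intro i hi
    rw [getD_drop (l.drop (N - (m + 1))) (y - x) i, hwgt i (by omega),
      hwgt (y - x + i) (by omega)]
    have := hcon (P.K - 1 - i) (by omega)
    have e1 : m + 1 - i = y + (P.K - 1 - i) := by omega
    have e2 : m + 1 - (y - x + i) = x + (P.K - 1 - i) := by omega
    rw [e1, e2]; exact this
  · intro x hx hxN
    have hwt := hw (x + P.K - 1) (by omega)
    have hwgt := hwg (x + P.K - 1) (by omega)
    have hlen := length_S hwt
    obtain ⟨m, hm⟩ : ∃ m, x + P.K - 1 = m + 1 := ⟨x + P.K - 2, by omega⟩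
    rw [hm] at hwt hwgt hlen
    obtain ⟨x', l', e, _, h2, h3⟩ := mem_S_succ.1 hwt
    have h4 := h3.2.1
    rw [← e] at h4
    have h5 := (h4 (by omega)).1
    have : window P.K g x = ((l.drop (N - (m + 1))).take P.K).reverse := by
      apply List.ext_getElem
      · simp only [window, List.length_map, List.length_range, List.length_reverse,
          List.length_take, hlen]
        omega
      · intro i h6 h7
        simp only [window, List.length_map, List.length_range] at h6
        simp only [List.length_reverse, List.length_take] at h7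
        rw [List.getElem_reverse, List.getElem_take]
        simp only [window, List.getElem_map, List.getElem_range, List.length_take, hlen]
        have h8 : min P.K (m + 1) = P.K := by omega
        have h9 := hwgt (P.K - 1 - i) (by omega)
        rw [List.getD_eq_getElem _ _ (by rw [hlen]; omega)] at h9
        have e1 : m + 1 - (P.K - 1 - i) = x + i := by omega
        rw [e1] at h9
        rw [← h9]
        congr 1
        rw [h8]
    rw [this]
    exact h5

end Pool.Agent.H58.NR
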