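import Mathlib

set_option autoImplicit false

namespace Pool.Agent.H58.NR

open Finset

/-- prefix sums -/
noncomputable def Ts (a : ℕ → ℝ) (n : ℕ) : ℝ := ∑ i ∈ range (n + 1), a i
/-- double prefix sums -/
noncomputable def Fs (a : ℕ → ℝ) (n : ℕ) : ℝ := ∑ i ∈ range (n + 1), Ts a i

lemma Ts_succ (a : ℕ → ℝ) (n : ℕ) : Ts a (n + 1) = Ts a n + a (n + 1) := by
  unfold Ts; rw [sum_range_succ]
lemma Fs_succ (a : ℕ → ℝ) (n : ℕ) : Fs a (n + 1) = Fs a n + Ts a (n + 1) := by
  unfold Fs; rw [sum_range_succ]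

lemma Ts_refl (a : ℕ → ℝ) (n : ℕ) : Ts a n = ∑ i ∈ range (n + 1), a (n - i) := by
  unfold Ts
  rw [← sum_range_reflect]
  apply sum_congr rfl
  intro i hi
  congr 1

lemma sum_le_Ts (a : ℕ → ℝ) (pos : ∀ n, 0 ≤ a n) (n m : ℕ) (h : m ≤ n + 1) :
    ∑ i ∈ range m, a (n - i) ≤ Ts a n := by
  rw [Ts_refl]
  exact sum_le_sum_of_subset_of_nonneg (range_subset_range.2 h) (fun i _ _ => pos _)

/-- the far terms -/
noncomputable def far (a : ℕ → ℝ) (K : ℕ) (G : ℝ) (n : ℕ) : ℝ :=
  if K ≤ n + 1 then G * a (n + 1 - K) else 0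

/-- the terms coming from the no-long-repetition rule -/
noncomputable def lpt (a : ℕ → ℝ) (n : ℕ) : ℝ :=
  if 10 ≤ n ∧ n % 2 = 0 then a (n / 2 + 4) else 0

/-- growth hypotheses -/
structure Growth (a : ℕ → ℝ) (K R : ℕ) (G : ℝ) : Prop where
  pos : ∀ n, 0 ≤ a n
  one : ∀ i, i ≤ 9 → a i = 1
  r1 : ∀ n, 9 ≤ n → n ≤ R →
    2 * a n ≤ a (n + 1) + ∑ i ∈ range ((n + 1) / 2 - 5), a (n - 5 - i) + lpt a n + far a K G n
  r2 : ∀ n, R + 1 ≤ n →
    3 * a n ≤ a (n + 1) + a (n - 1) + Ts a (n - 2) + far a K G n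
  r3 : ∀ n, R + 1 ≤ n →
    2 * a n + 2 * a (n - 1) ≤ a (n + 1) + Ts a (n - 2) + Ts a (n - 3) + far a K G n
      + far a K G (n - 1)

section
variable {a : ℕ → ℝ} {K R : ℕ} {G : ℝ}

lemma growth_small (h : Growth a K R G) (hK : 100 ≤ K) (hR : 100 ≤ R) :
    (∀ n, 18 ≤ n → n < 23 → 7/4 * a n ≤ a (n + 1)) ∧ Ts a 18 ≤ 49/20 * a 18 ∧
      (∀ n, n < 18 → a n ≤ a (n + 1)) := by
  have farz : ∀ n, n ≤ 22 → far a K G n = 0 := by
    intro n hn; unfold far; rw [if_neg]; omega
  have e6 := h.one 6 (by norm_num)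
  have e7 := h.one 7 (by norm_num)
  have e8 := h.one 8 (by norm_num)
  have e9 := h.one 9 (by norm_num)
  have h9 := h.r1 9 (by norm_num) (by omega)
  have h10 := h.r1 10 (by norm_num) (by omega)
  have h11 := h.r1 11 (by norm_num) (by omega)
  have h12 := h.r1 12 (by norm_num) (by omega)
  have h13 := h.r1 13 (by norm_num) (by omega)
  have h14 := h.r1 14 (by norm_num) (by omega)
  have h15 := h.r1 15 (by norm_num) (by omega)
  have h16 := h.r1 16 (by norm_num) (by omega)
  have h17 := h.r1 17 (by norm_num) (by omega)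
  have h18 := h.r1 18 (by norm_num) (by omega)
  have h19 := h.r1 19 (by norm_num) (by omega)
  have h20 := h.r1 20 (by norm_num) (by omega)
  have h21 := h.r1 21 (by norm_num) (by omega)
  have h22 := h.r1 22 (by norm_num) (by omega)
  rw [farz _ (by norm_num)] at h9 h10 h11 h12 h13 h14 h15 h16 h17 h18 h19 h20 h21 h22
  norm_num [lpt, sum_range_succ] at h9 h10 h11 h12 h13 h14 h15 h16 h17 h18 h19 h20 h21 h22
  have hT : Ts a 18 = 9 + a 9 + a 10 + a 11 + a 12 + a 13 + a 14 + a 15 + a 16 + a 17 + a 18 := by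
    unfold Ts
    norm_num [sum_range_succ]
    rw [h.one 0 (by norm_num), h.one 1 (by norm_num), h.one 2 (by norm_num),
      h.one 3 (by norm_num), h.one 4 (by norm_num), h.one 5 (by norm_num), e6, e7, e8]
    ring
  have p := h.pos
  have c10 : 2 * a 9 ≤ a 10 := by linarith
  have c11 : 3 * a 10 ≤ 2 * a 11 := by linarith
  have c12 : 5 * a 11 ≤ 3 * a 12 := by linarith
  have c13 : 7 * a 12 ≤ 5 * a 13 := by linarith
  have c14 : 12 * a 13 ≤ 7 * a 14 := by linarith
  have c15 : 19 * a 14 ≤ 12 * a 15 := by linarith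
  have c16 : 34 * a 15 ≤ 19 * a 16 := by linarith
  have c17 : 57 * a 16 ≤ 34 * a 17 := by linarith
  have c18 : 103 * a 17 ≤ 57 * a 18 := by linarith
  have c19 : 182 * a 18 ≤ 103 * a 19 := by linarith
  have c20 : 335 * a 19 ≤ 182 * a 20 := by linarith
  have c21 : 610 * a 20 ≤ 335 * a 21 := by linarith
  have c22 : 1140 * a 21 ≤ 610 * a 22 := by linarith
  have c23 : 2127 * a 22 ≤ 1140 * a 23 := by linarith
  refine ⟨?_, ?_, ?_⟩
  · intro n h1 h2
    interval_cases n
    · linarith [p 18]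
    · linarith [p 19]
    · linarith [p 20]
    · linarith [p 21]
    · linarith [p 22]
  · rw [hT]; linarith
  · intro n hn
    by_cases h8 : n ≤ 8
    · rw [h.one n (by omega), h.one (n + 1) (by omega)]
    · have h8' : 9 ≤ n := by omega
      interval_cases n
      · linarith [p 9]
      · linarith [p 10, p 11]
      · linarith [p 11, p 12]
      · linarith [p 12, p 13]
      · linarith [p 13, p 14]
      · linarith [p 14, p 15]
      · linarith [p 15, p 16]
      · linarith [p 16, p 17]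
      · linarith [p 17, p 18]

/-- geometric growth from a ratio bound -/
lemma geom {a : ℕ → ℝ} {n0 n : ℕ} {r : ℝ} (hr : 0 ≤ r)
    (H : ∀ m, n0 ≤ m → m < n → a m ≤ r * a (m + 1)) :
    ∀ k, n0 + k ≤ n → a (n - k) ≤ r ^ k * a n := by
  intro k
  induction k with
  | zero => intro _; simp
  | succ k ih =>
    intro hk
    have h1 := ih (by omega)
    have h2 := H (n - (k + 1)) (by omega) (by omega)
    have e : n - (k + 1) + 1 = n - k := by omega
    rw [e] at h2
    calc a (n - (k + 1)) ≤ r * a (n - k) := h2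
      _ ≤ r * (r ^ k * a n) := mul_le_mul_of_nonneg_left h1 hr
      _ = r ^ (k + 1) * a n := by ring

lemma growth1 (h : Growth a K R G) (hK : 100 ≤ K) (hR : 100 ≤ R) (hG : 0 ≤ G) {ε : ℝ}
    (hε : G * (4/7) ^ (K - 19) ≤ ε) (hε' : ε ≤ 1/1000) :
    ∀ n, 18 ≤ n → 7/4 * a n ≤ a (n + 1) ∧ Ts a n ≤ 49/20 * a n ∧ far a K G n ≤ ε * a n := by
  obtain ⟨s1, s2, s3⟩ := growth_small h hK hR
  have p := h.pos
  intro n
  induction n using Nat.strong_induction_on with
  | _ n ih =>
  intro hn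
  have rat : ∀ m, 18 ≤ m → m < n → a m ≤ 4/7 * a (m + 1) := by
    intro m h1 h2
    have := (ih m h2 h1).1
    linarith
  have gm := geom (a := a) (n0 := 18) (n := n) (r := 4/7) (by norm_num) rat
  -- monotone
  have mono1 : ∀ m, m < n → a m ≤ a (m + 1) := by
    intro m hm
    by_cases h18 : m < 18
    · exact s3 m h18
    · have := rat m (by omega) hm
      linarith [p (m + 1)]
  have mono : ∀ j, j ≤ n → ∀ i, i ≤ j → a i ≤ a j := by
    intro j
    induction j with
    | zero => intro _ i hi; rw [Nat.le_zero.1 hi]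
    | succ j ihj =>
      intro hj i hi
      rcases Nat.lt_or_ge i (j + 1) with h1 | h1
      · exact (ihj (by omega) i (by omega)).trans (mono1 j (by omega))
      · rw [le_antisymm hi h1]
  -- prefix sums
  have hT : Ts a n ≤ 49/20 * a n := by
    rcases Nat.lt_or_ge 18 n with h1 | h1
    · obtain ⟨m, rfl⟩ : ∃ m, n = m + 1 := ⟨n - 1, by omega⟩
      have h2 := (ih m (by omega) (by omega)).2.1
      have h3 := rat m (by omega) (by omega)
      rw [Ts_succ]
      linarith [p (m + 1)]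
    · have : n = 18 := by omega
      subst this; exact s2
  -- far
  have hfar : far a K G n ≤ ε * a n := by
    unfold far
    split_ifs with hk
    · have hb : a (n + 1 - K) ≤ (4/7) ^ (K - 19) * a n := by
        by_cases h1 : 18 ≤ n + 1 - K
        · have h2 := gm (K - 1) (by omega)
          have e : n - (K - 1) = n + 1 - K := by omega
          rw [e] at h2
          refine h2.trans ?_
          apply mul_le_mul_of_nonneg_right _ (p n)
          apply pow_le_pow_of_le_one (by norm_num) (by norm_num)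
          omega
        · have h2 := gm (n - 18) (by omega)
          have e : n - (n - 18) = 18 := by omega
          rw [e] at h2
          refine (mono 18 hn _ (by omega)).trans (h2.trans ?_)
          apply mul_le_mul_of_nonneg_right _ (p n)
          apply pow_le_pow_of_le_one (by norm_num) (by norm_num)
          omega
      calc G * a (n + 1 - K) ≤ G * ((4/7) ^ (K - 19) * a n) := mul_le_mul_of_nonneg_left hb hG
        _ = (G * (4/7) ^ (K - 19)) * a n := by ring
        _ ≤ ε * a n := mul_le_mul_of_nonneg_right hε (p n)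
    · have : 0 ≤ G * (4/7) ^ (K - 19) := by positivity
      exact mul_nonneg (by linarith) (p n)
  refine ⟨?_, hT, hfar⟩
  by_cases h23 : n < 23
  · exact s1 n hn h23
  have h5 := gm 5 (by omega)
  have hfar' : far a K G n ≤ 1/1000 * a n :=
    hfar.trans (mul_le_mul_of_nonneg_right hε' (p n))
  rcases Nat.lt_or_ge R n with hnR | hnR
  · -- region 2
    have r3 := h.r3 n (by omega)
    have t2 := (ih (n - 2) (by omega) (by omega)).2.1
    have t3 := (ih (n - 3) (by omega) (by omega)).2.1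
    have f1 := (ih (n - 1) (by omega) (by omega)).2.2
    have q1 := rat (n - 1) (by omega) (by omega)
    have q2 := rat (n - 2) (by omega) (by omega)
    have q3 := rat (n - 3) (by omega) (by omega)
    rw [show n - 1 + 1 = n by omega] at q1
    rw [show n - 2 + 1 = n - 1 by omega] at q2
    rw [show n - 3 + 1 = n - 2 by omega] at q3
    have f1' : far a K G (n - 1) ≤ 1/1000 * a (n - 1) :=
      f1.trans (mul_le_mul_of_nonneg_right hε' (p _))
    linarith [p n, p (n - 1), p (n - 2), p (n - 3)]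
  · have r1 := h.r1 n (by omega) hnR
    have hs : ∑ i ∈ range ((n + 1) / 2 - 5), a (n - 5 - i) ≤ Ts a (n - 5) :=
      sum_le_Ts a p (n - 5) _ (by omega)
    have ht := (ih (n - 5) (by omega) (by omega)).2.1
    have hl : lpt a n ≤ a (n - 5) := by
      unfold lpt
      split_ifs with h1
      · exact mono (n - 5) (by omega) _ (by omega)
      · exact p _
    have e5 : ((4:ℝ)/7) ^ 5 ≤ 61/1000 := by norm_num
    have h5' : a (n - 5) ≤ 61/1000 * a n := h5.trans (mul_le_mul_of_nonneg_right e5 (p n))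
    linarith [p n]

end

/-- lower bound for the number of extensions by an arbitrary list of size four -/
def VB (a : ℕ → ℝ) (K : ℕ) (G : ℝ) (n : ℕ) (v : ℝ) : Prop :=
  3 * a n ≤ v + a (n - 1) + Ts a (n - 2) ∧
  2 * a n + 2 * a (n - 1) ≤ v + Ts a (n - 2) + Ts a (n - 3) + far a K G (n - 1)

/-- state of the bootstrap -/
structure St (a : ℕ → ℝ) (K : ℕ) (G : ℝ) (n0 : ℕ) (ρ κ φ ε : ℝ) : Prop where
  ratio : ∀ n, n0 ≤ n → ρ * a n ≤ a (n + 1)
  ts : ∀ n, n0 ≤ n → Ts a n ≤ κ * a n
  fs : ∀ n, n0 ≤ n → Fs a n ≤ φ * a n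
  farb : ∀ n, n0 ≤ n → far a K G n ≤ ε * a n

lemma stage_v {a : ℕ → ℝ} {K : ℕ} {G : ℝ} {n0 : ℕ} {ρ κ φ ε lam del : ℝ}
    (pos : ∀ n, 0 ≤ a n) (S : St a K G n0 ρ κ φ ε) (hρ : 0 < ρ) (hκ : 0 ≤ κ)
    (l0 : 0 ≤ lam) (l1 : lam ≤ 1)
    (cond : κ / ρ + (1 - lam) * (κ / ρ ^ 2 + ε) ≤ 2 - 3 * lam + del * ρ) (hdel : 0 ≤ del)
    (n : ℕ) (hn : n0 + 3 ≤ n) (v : ℝ) (hv : VB a K G n v) :
    (2 + lam - del) * a n ≤ v := by
  obtain ⟨v1, v2⟩ := hv
  have q1 := S.ratio (n - 1) (by omega)
  have q2 := S.ratio (n - 2) (by omega)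
  have q3 := S.ratio (n - 3) (by omega)
  rw [show n - 1 + 1 = n by omega] at q1
  rw [show n - 2 + 1 = n - 1 by omega] at q2
  rw [show n - 3 + 1 = n - 2 by omega] at q3
  have t2 := S.ts (n - 2) (by omega)
  have t3 := S.ts (n - 3) (by omega)
  have f1 := S.farb (n - 1) (by omega)
  have p1 := pos (n - 1)
  -- T(n-2) ≤ κ/ρ a(n-1)
  have b2 : a (n - 2) ≤ a (n - 1) / ρ := by rw [le_div_iff₀ hρ]; linarith
  have b3 : a (n - 3) ≤ a (n - 1) / ρ ^ 2 := by
    rw [le_div_iff₀ (by positivity)]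
    have : ρ * (ρ * a (n - 3)) ≤ ρ * a (n - 2) := mul_le_mul_of_nonneg_left q3 hρ.le
    nlinarith
  have T2 : Ts a (n - 2) ≤ κ / ρ * a (n - 1) := by
    calc Ts a (n - 2) ≤ κ * a (n - 2) := t2
      _ ≤ κ * (a (n - 1) / ρ) := mul_le_mul_of_nonneg_left b2 hκ
      _ = κ / ρ * a (n - 1) := by ring
  have T3 : Ts a (n - 3) ≤ κ / ρ ^ 2 * a (n - 1) := by
    calc Ts a (n - 3) ≤ κ * a (n - 3) := t3
      _ ≤ κ * (a (n - 1) / ρ ^ 2) := mul_le_mul_of_nonneg_left b3 hκ
      _ = κ / ρ ^ 2 * a (n - 1) := by ring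
  have w1 : lam * (3 * a n) ≤ lam * (v + a (n - 1) + Ts a (n - 2)) :=
    mul_le_mul_of_nonneg_left v1 l0
  have w2 : (1 - lam) * (2 * a n + 2 * a (n - 1)) ≤
      (1 - lam) * (v + Ts a (n - 2) + κ / ρ ^ 2 * a (n - 1) + ε * a (n - 1)) := by
    apply mul_le_mul_of_nonneg_left _ (by linarith)
    linarith
  have w3 : (κ / ρ + (1 - lam) * (κ / ρ ^ 2 + ε)) * a (n - 1) ≤
      (2 - 3 * lam + del * ρ) * a (n - 1) := mul_le_mul_of_nonneg_right cond p1
  have w4 : del * (ρ * a (n - 1)) ≤ del * a n := mul_le_mul_of_nonneg_left q1 hdel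
  nlinarith

lemma stage {a : ℕ → ℝ} {K R : ℕ} {G : ℝ} (h : Growth a K R G) {n0 : ℕ}
    {ρ κ φ ε : ℝ} (lam del : ℝ) (ρ' κ' φ' : ℝ)
    (S : St a K G n0 ρ κ φ ε) (hR : R + 1 ≤ n0) (hρ : 0 < ρ) (hκ : 0 ≤ κ) (hφ : 0 ≤ φ)
    (l0 : 0 ≤ lam) (l1 : lam ≤ 1) (hdel : 0 ≤ del)
    (cond : κ / ρ + (1 - lam) * (κ / ρ ^ 2 + ε) ≤ 2 - 3 * lam + del * ρ)
    (hρ' : ρ' ≤ 2 + lam - del - ε) (hρ0 : 0 < ρ')
    (hκ' : κ / ρ' + 1 ≤ κ') (hφ' : φ / ρ' + κ' ≤ φ') :
    St a K G (n0 + 4) ρ' κ' φ' ε := by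
  have p := h.pos
  have rat : ∀ n, n0 + 3 ≤ n → ρ' * a n ≤ a (n + 1) := by
    intro n hn
    have hv : VB a K G n (a (n + 1) + far a K G n) := by
      refine ⟨?_, ?_⟩
      · have := h.r2 n (by omega); linarith
      · have := h.r3 n (by omega); linarith
    have h1 := stage_v p S hρ hκ l0 l1 cond hdel n hn _ hv
    have h2 := S.farb n (by omega)
    have h3 : ρ' * a n ≤ (2 + lam - del - ε) * a n := mul_le_mul_of_nonneg_right hρ' (p n)
    linarith
  have tss : ∀ n, n0 + 4 ≤ n → Ts a n ≤ κ' * a n := by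
    intro n hn
    obtain ⟨m, rfl⟩ : ∃ m, n = m + 1 := ⟨n - 1, by omega⟩
    have h1 := S.ts m (by omega)
    have h2 := rat m (by omega)
    have h3 : a m ≤ a (m + 1) / ρ' := by rw [le_div_iff₀ hρ0]; linarith
    rw [Ts_succ]
    have h4 : κ * a m ≤ κ * (a (m + 1) / ρ') := mul_le_mul_of_nonneg_left h3 hκ
    have h5 : (κ / ρ' + 1) * a (m + 1) ≤ κ' * a (m + 1) := mul_le_mul_of_nonneg_right hκ' (p _)
    have h6 : κ * (a (m + 1) / ρ') = κ / ρ' * a (m + 1) := by ring
    linarith
  refine ⟨fun n hn => rat n (by omega), tss, ?_, fun n hn => S.farb n (by omega)⟩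
  intro n hn
  obtain ⟨m, rfl⟩ : ∃ m, n = m + 1 := ⟨n - 1, by omega⟩
  have h1 := S.fs m (by omega)
  have h2 := rat m (by omega)
  have h3 : a m ≤ a (m + 1) / ρ' := by rw [le_div_iff₀ hρ0]; linarith
  have h7 := tss (m + 1) hn
  rw [Fs_succ]
  have h4 : φ * a m ≤ φ * (a (m + 1) / ρ') := mul_le_mul_of_nonneg_left h3 hφ
  have h5 : (φ / ρ' + κ') * a (m + 1) ≤ φ' * a (m + 1) := mul_le_mul_of_nonneg_right hφ' (p _)
  have h6 : φ * (a (m + 1) / ρ') = φ / ρ' * a (m + 1) := by ring
  linarith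

lemma Fs_le {a : ℕ → ℝ} (n : ℕ) (mono : ∀ i, i ≤ n → Ts a i ≤ Ts a n) :
    Fs a n ≤ (n + 1) * Ts a n := by
  unfold Fs
  calc ∑ i ∈ range (n + 1), Ts a i ≤ ∑ _i ∈ range (n + 1), Ts a n :=
        sum_le_sum (fun i hi => mono i (by simp at hi; omega))
    _ = (n + 1) * Ts a n := by simp

lemma Ts_mono {a : ℕ → ℝ} (p : ∀ n, 0 ≤ a n) {i n : ℕ} (h : i ≤ n) : Ts a i ≤ Ts a n := by
  unfold Ts
  exact sum_le_sum_of_subset_of_nonneg (range_subset_range.2 (by omega)) (fun i _ _ => p _)

/-- The final growth statement. -/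
theorem growth_final {a : ℕ → ℝ} {K R : ℕ} {G : ℝ} (h : Growth a K R G)
    (hK : 100 ≤ K) (hR : 100 ≤ R) (hG : 0 ≤ G)
    (hε : G * (4/7) ^ (K - 19) ≤ 1/10000) :
    St a K G 18 (7/4) (49/20) 47 (1/10000) ∧
    St a K G (R + 60) (2349/1000) (1743/1000) (381/125) (1/10000) ∧
    (∀ n, R + 60 ≤ n → ∀ v, VB a K G n v → 235/100 * a n ≤ v) := by
  have g1 := growth1 h hK hR hG hε (by norm_num)
  have p := h.pos
  have S : St a K G 18 (7/4) (49/20) 47 (1/10000) := by
    refine ⟨fun n hn => (g1 n hn).1, fun n hn => (g1 n hn).2.1, ?_, fun n hn => (g1 n hn).2.2⟩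
    intro n hn
    induction n, hn using Nat.le_induction with
    | base =>
      have h1 := Fs_le (a := a) 18 (fun i hi => Ts_mono p hi)
      have h2 := (g1 18 le_rfl).2.1
      have := p 18
      push_cast at h1
      linarith
    | succ m hm ih =>
      have h1 := (g1 m hm).1
      have h2 := (g1 (m + 1) (by omega)).2.1
      rw [Fs_succ]
      have := p (m + 1)
      linarith
  have S0 : St a K G (R + 1) (7/4) (49/20) 47 (1/10000) :=
    ⟨fun n hn => S.ratio n (by omega), fun n hn => S.ts n (by omega),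
      fun n hn => S.fs n (by omega), fun n hn => S.farb n (by omega)⟩
  have S1 := stage h 0 (23/200) (471/250) (2301/1000) (3406/125) S0 (by omega) (by norm_num) (by norm_num)
    (by norm_num) (by norm_num) (by norm_num) (by norm_num) (by norm_num) (by norm_num)
    (by norm_num) (by norm_num) (by norm_num)
  have S2 := stage h (11/200) 0 (1027/500) (2121/1000) (15387/1000) S1 (by omega) (by norm_num) (by norm_num)
    (by norm_num) (by norm_num) (by norm_num) (by norm_num) (by norm_num) (by norm_num)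
    (by norm_num) (by norm_num) (by norm_num)
  have S3 := stage h (93/500) 0 (437/200) (1971/1000) (4507/500) S2 (by omega) (by norm_num) (by norm_num)
    (by norm_num) (by norm_num) (by norm_num) (by norm_num) (by norm_num) (by norm_num)
    (by norm_num) (by norm_num) (by norm_num)
  have S4 := stage h (33/125) 0 (2263/1000) (1871/1000) (1171/200) S3 (by omega) (by norm_num) (by norm_num)
    (by norm_num) (by norm_num) (by norm_num) (by norm_num) (by norm_num) (by norm_num)
    (by norm_num) (by norm_num) (by norm_num)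
  have S5 := stage h (153/500) 0 (461/200) (453/250) (4353/1000) S4 (by omega) (by norm_num) (by norm_num)
    (by norm_num) (by norm_num) (by norm_num) (by norm_num) (by norm_num) (by norm_num)
    (by norm_num) (by norm_num) (by norm_num)
  have S6 := stage h (41/125) 0 (2327/1000) (1779/1000) (73/20) S5 (by omega) (by norm_num) (by norm_num)
    (by norm_num) (by norm_num) (by norm_num) (by norm_num) (by norm_num) (by norm_num)
    (by norm_num) (by norm_num) (by norm_num)
  have S7 := stage h (339/1000) 0 (1169/500) (1761/1000) (3323/1000) S6 (by omega) (by norm_num) (by norm_num)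
    (by norm_num) (by norm_num) (by norm_num) (by norm_num) (by norm_num) (by norm_num)
    (by norm_num) (by norm_num) (by norm_num)
  have S8 := stage h (69/200) 0 (293/125) (219/125) (317/100) S7 (by omega) (by norm_num) (by norm_num)
    (by norm_num) (by norm_num) (by norm_num) (by norm_num) (by norm_num) (by norm_num)
    (by norm_num) (by norm_num) (by norm_num)
  have S9 := stage h (87/250) 0 (2347/1000) (1747/1000) (1549/500) S8 (by omega) (by norm_num) (by norm_num)
    (by norm_num) (by norm_num) (by norm_num) (by norm_num) (by norm_num) (by norm_num)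
    (by norm_num) (by norm_num) (by norm_num)
  have S10 := stage h (349/1000) 0 (587/250) (349/200) (613/200) S9 (by omega) (by norm_num) (by norm_num)
    (by norm_num) (by norm_num) (by norm_num) (by norm_num) (by norm_num) (by norm_num)
    (by norm_num) (by norm_num) (by norm_num)
  have S11 := stage h (7/20) 0 (2349/1000) (1743/1000) (381/125) S10 (by omega) (by norm_num) (by norm_num)
    (by norm_num) (by norm_num) (by norm_num) (by norm_num) (by norm_num) (by norm_num)
    (by norm_num) (by norm_num) (by norm_num)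
  refine ⟨S, ?_, ?_⟩
  · exact ⟨fun n hn => S11.ratio n (by omega), fun n hn => S11.ts n (by omega),
      fun n hn => S11.fs n (by omega), fun n hn => S11.farb n (by omega)⟩
  · intro n hn v hv
    have := stage_v (lam := 7/20) (del := 0) p S11 (by norm_num) (by norm_num) (by norm_num)
      (by norm_num) (by norm_num) (by norm_num) n (by omega) v hv
    norm_num at this ⊢
    linarith

lemma Fs_eq (a : ℕ → ℝ) (n : ℕ) : Fs a n = ∑ k ∈ range (n + 1), ((k : ℝ) + 1) * a (n - k) := by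
  induction n with
  | zero => simp [Fs, Ts]
  | succ n ih =>
    rw [Fs_succ, ih, Ts_succ, sum_range_succ' _ (n + 1), Ts_refl]
    have : ∑ k ∈ range (n + 1), ((((k + 1 : ℕ) : ℝ)) + 1) * a (n + 1 - (k + 1)) =
        ∑ k ∈ range (n + 1), (((k : ℝ) + 1) * a (n - k) + a (n - k)) := by
      apply sum_congr rfl
      intro k _
      have e : n + 1 - (k + 1) = n - k := by omega
      rw [e]; push_cast; ring
    rw [this, sum_add_distrib]
    simp
    ring

lemma sum_le_Fs (a : ℕ → ℝ) (pos : ∀ n, 0 ≤ a n) (n m : ℕ) (h : m ≤ n + 1) :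
    ∑ k ∈ range m, ((k : ℝ) + 1) * a (n - k) ≤ Fs a n := by
  rw [Fs_eq]
  apply sum_le_sum_of_subset_of_nonneg (range_subset_range.2 h)
  intro i _ _
  have := pos (n - i)
  positivity

/-- positivity -/
lemma growth_pos {a : ℕ → ℝ} {K R : ℕ} {G : ℝ} (h : Growth a K R G)
    (hK : 100 ≤ K) (hR : 100 ≤ R) (hG : 0 ≤ G)
    (hε : G * (4/7) ^ (K - 19) ≤ 1/10000) (n : ℕ) (hn : 18 ≤ n) : 1 ≤ a n := by
  have s3 := (growth_small h hK hR).2.2
  have h18 : ∀ m, 9 ≤ m → m ≤ 18 → 1 ≤ a m := by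
    intro m hm
    induction m, hm using Nat.le_induction with
    | base => intro _; rw [h.one 9 le_rfl]
    | succ m hm ih => intro h'; exact (ih (by omega)).trans (s3 m (by omega))
  induction n, hn using Nat.le_induction with
  | base => exact h18 18 (by norm_num) le_rfl
  | succ m hm ih =>
    have := (growth1 h hK hR hG hε (by norm_num) m hm).1
    linarith

end Pool.Agent.H58.NR
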