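import Pool.Agent.H58.NRPrefix
import Pool.Agent.H58.NRNum

set_option autoImplicit false

namespace Pool.Agent.H58.NR

open Finset

/-! ### Lists -/

lemma take_eq_iff (u v : List ℕ) (p : ℕ) (hu : p ≤ u.length) (hv : p ≤ v.length) :
    u.take p = v.take p ↔ ∀ i < p, u.getD i 0 = v.getD i 0 := by
  constructor
  · intro h i hi
    have h1 : (u.take p).getD i 0 = (v.take p).getD i 0 := by rw [h]
    simpa [List.getD_eq_getElem?_getD, List.getElem?_take, hi] using h1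
  · intro h
    apply List.ext_getElem
    · simp [hu, hv]
    · intro i h1 h2
      have hi : i < p := by simp at h1; omega
      have := h i hi
      rw [List.getD_eq_getElem _ _ (by omega), List.getD_eq_getElem _ _ (by omega)] at this
      simpa using this

lemma getD_drop (u : List ℕ) (k i : ℕ) : (u.drop k).getD i 0 = u.getD (k + i) 0 := by
  simp [List.getD_eq_getElem?_getD, List.getElem?_drop]

/-- `w` has a square of period `p` at its head -/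
def HSq (p : ℕ) (w : List ℕ) : Prop :=
  1 ≤ p ∧ 2 * p ≤ w.length ∧ w.take p = (w.drop p).take p

lemma HSq_iff (p : ℕ) (w : List ℕ) : HSq p w ↔ 1 ≤ p ∧ 2 * p ≤ w.length ∧
    ∀ i < p, w.getD i 0 = w.getD (p + i) 0 := by
  unfold HSq
  constructor
  · rintro ⟨h1, h2, h3⟩
    refine ⟨h1, h2, ?_⟩
    rw [take_eq_iff _ _ _ (by omega) (by simp; omega)] at h3
    intro i hi
    rw [h3 i hi, getD_drop]
  · rintro ⟨h1, h2, h3⟩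
    refine ⟨h1, h2, ?_⟩
    rw [take_eq_iff _ _ _ (by omega) (by simp; omega)]
    intro i hi
    rw [h3 i hi, getD_drop]

/-- `ThrL l x`: the word `l` (newest letter first) threatens the letter `x` -/
def ThrL (l : List ℕ) (x : ℕ) : Prop :=
  (l.getD 0 0 = l.getD 2 0 ∧ x = l.getD 1 0) ∨
  (l.getD 0 0 = l.getD 3 0 ∧ l.getD 1 0 = l.getD 4 0 ∧ x = l.getD 2 0) ∨
  (l.getD 0 0 = l.getD 4 0 ∧ l.getD 1 0 = l.getD 5 0 ∧ l.getD 2 0 = l.getD 6 0 ∧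
    x = l.getD 3 0) ∨
  (l.getD 0 0 = l.getD 5 0 ∧ l.getD 1 0 = l.getD 6 0 ∧ l.getD 2 0 = l.getD 7 0 ∧
    l.getD 3 0 = l.getD 8 0 ∧ x = l.getD 4 0) ∨
  (l.getD 1 0 = l.getD 3 0 ∧ l.getD 3 0 = l.getD 5 0 ∧ l.getD 0 0 = l.getD 4 0 ∧
    x = l.getD 1 0) ∨
  (l.getD 1 0 = l.getD 4 0 ∧ l.getD 4 0 = l.getD 6 0 ∧ l.getD 0 0 = l.getD 5 0 ∧
    l.getD 2 0 = l.getD 7 0 ∧ x = l.getD 1 0)

lemma ThrL.threat {l : List ℕ} {x : ℕ} (h : ThrL l x) : Threat (fun j => l.getD j 0) := by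
  unfold ThrL at h
  unfold Threat
  tauto

/-- squarefree (in the sense of heads of suffixes) and free of the two extra patterns at the
head -/
structure Clean (l : List ℕ) : Prop where
  len : 9 ≤ l.length
  sf : ∀ k p, ¬ HSq p (l.drop k)
  p1 : ¬ (l.getD 0 0 = l.getD 2 0 ∧ l.getD 2 0 = l.getD 4 0 ∧ l.getD 4 0 = l.getD 6 0 ∧
    l.getD 1 0 = l.getD 5 0)
  p2 : ¬ (l.getD 0 0 = l.getD 2 0 ∧ l.getD 2 0 = l.getD 5 0 ∧ l.getD 5 0 = l.getD 7 0 ∧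
    l.getD 1 0 = l.getD 6 0 ∧ l.getD 3 0 = l.getD 8 0)

lemma Clean.adj {l : List ℕ} (h : Clean l) (k : ℕ) (hk : k + 1 < 9) :
    l.getD k 0 ≠ l.getD (k + 1) 0 := by
  intro e
  apply h.sf k 1
  rw [HSq_iff]
  have := h.len
  refine ⟨le_rfl, by simp; omega, ?_⟩
  intro i hi
  have : i = 0 := by omega
  subst this
  simpa [getD_drop, add_comm] using e

lemma Clean.sq2 {l : List ℕ} (h : Clean l) (k : ℕ) (hk : k + 3 < 9) :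
    ¬ (l.getD k 0 = l.getD (k + 2) 0 ∧ l.getD (k + 1) 0 = l.getD (k + 3) 0) := by
  rintro ⟨e1, e2⟩
  apply h.sf k 2
  rw [HSq_iff]
  have := h.len
  refine ⟨by norm_num, by simp; omega, ?_⟩
  intro i hi
  rw [getD_drop, getD_drop]
  interval_cases i
  · simpa using e1
  · simpa [add_assoc] using e2

lemma uniq_aux (l0 l1 l2 l3 l4 l5 l6 l7 l8 x y : ℕ)
    (a0 : l0 ≠ l1) (a2 : l2 ≠ l3) (a3 : l3 ≠ l4) (a4 : l4 ≠ l5)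
    (b0 : ¬ (l0 = l2 ∧ l1 = l3)) (b3 : ¬ (l3 = l5 ∧ l4 = l6))
    (c1 : ¬ (l0 = l2 ∧ l2 = l4 ∧ l4 = l6 ∧ l1 = l5))
    (c2 : ¬ (l0 = l2 ∧ l2 = l5 ∧ l5 = l7 ∧ l1 = l6 ∧ l3 = l8))
    (hx : (l0 = l2 ∧ x = l1) ∨ (l0 = l3 ∧ l1 = l4 ∧ x = l2) ∨
      (l0 = l4 ∧ l1 = l5 ∧ l2 = l6 ∧ x = l3) ∨ (l0 = l5 ∧ l1 = l6 ∧ l2 = l7 ∧ l3 = l8 ∧ x = l4) ∨
      (l1 = l3 ∧ l3 = l5 ∧ l0 = l4 ∧ x = l1) ∨ (l1 = l4 ∧ l4 = l6 ∧ l0 = l5 ∧ l2 = l7 ∧ x = l1))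
    (hy : (l0 = l2 ∧ y = l1) ∨ (l0 = l3 ∧ l1 = l4 ∧ y = l2) ∨
      (l0 = l4 ∧ l1 = l5 ∧ l2 = l6 ∧ y = l3) ∨ (l0 = l5 ∧ l1 = l6 ∧ l2 = l7 ∧ l3 = l8 ∧ y = l4) ∨
      (l1 = l3 ∧ l3 = l5 ∧ l0 = l4 ∧ y = l1) ∨ (l1 = l4 ∧ l4 = l6 ∧ l0 = l5 ∧ l2 = l7 ∧ y = l1)) :
    x = y := by
  rcases hx with ⟨hx1, hx2⟩ | ⟨hx1, hx2, hx3⟩ | ⟨hx1, hx2, hx3, hx4⟩ | ⟨hx1, hx2, hx3, hx4, hx5⟩ |
    ⟨hx1, hx2, hx3, hx4⟩ | ⟨hx1, hx2, hx3, hx4, hx5⟩ <;>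
  rcases hy with ⟨hy1, hy2⟩ | ⟨hy1, hy2, hy3⟩ | ⟨hy1, hy2, hy3, hy4⟩ | ⟨hy1, hy2, hy3, hy4, hy5⟩ |
    ⟨hy1, hy2, hy3, hy4⟩ | ⟨hy1, hy2, hy3, hy4, hy5⟩ <;>
  grind

/-- at most one letter is threatened -/
lemma ThrL.unique {l : List ℕ} (h : Clean l) {x y : ℕ} (hx : ThrL l x) (hy : ThrL l y) :
    x = y :=
  uniq_aux _ _ _ _ _ _ _ _ _ x y (h.adj 0 (by norm_num)) (h.adj 2 (by norm_num))
    (h.adj 3 (by norm_num)) (h.adj 4 (by norm_num)) (h.sq2 0 (by norm_num))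
    (h.sq2 3 (by norm_num)) h.p1 h.p2 hx hy

end Pool.Agent.H58.NR
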