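import Pool.Agent.H58.NRPop

set_option autoImplicit false

namespace Pool.Agent.H58.NR

open Finset

/-- Parameters of one leg. `L i` is the list of the letter at distance `i + 1`. -/
structure Par where
  K : ℕ
  c : ℕ
  L : ℕ → Finset ℕ
  forb : Finset (List ℕ)

structure ParOK (P : Par) (d : ℕ → ℕ) : Prop where
  K100 : 100 ≤ P.K
  pre : PrefixOK d
  dc : ∀ i, i < 9 → d i ≠ P.c
  L9 : ∀ i, i < 9 → P.L i = {d i}
  L4 : ∀ i, 9 ≤ i → (P.L i).card = 4

def OkS (w : List ℕ) : Prop := ∀ p, ¬ HSq p w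

def OkW (P : Par) (w : List ℕ) : Prop := P.K ≤ w.length →
  (w.take P.K).reverse ∉ P.forb ∧
  ∀ d, P.K ≤ d → d ≤ NN P.K → d + P.K ≤ w.length → (w.drop d).take P.K ≠ w.take P.K

def LPbad (P : Par) (w : List ℕ) (q : ℕ) : Prop :=
  1 ≤ q ∧ w.length = 2 * q + 9 ∧ w.take q = w.drop (q + 9) ∧ w.getD q 0 = P.c

def OkN (P : Par) (x : ℕ) (l : List ℕ) : Prop := 9 ≤ l.length → l.length < 14 * P.K →
  ¬ ThrL l x ∧ (x = P.c → ∃ y, ThrL l y) ∧ ∀ q, ¬ LPbad P (x :: l) q

def Ok (P : Par) (x : ℕ) (l : List ℕ) : Prop :=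
  OkS (x :: l) ∧ OkW P (x :: l) ∧ OkN P x l

open Classical in
/-- the population of legs of length `n` (newest letter first) -/
noncomputable def S (P : Par) : ℕ → Finset (List ℕ)
  | 0 => {[]}
  | n + 1 => ((P.L n ×ˢ S P n).filter (fun q => Ok P q.1 q.2)).image (fun q => q.1 :: q.2)

lemma mem_S_succ {P : Par} {n : ℕ} {w : List ℕ} :
    w ∈ S P (n + 1) ↔ ∃ x l, w = x :: l ∧ x ∈ P.L n ∧ l ∈ S P n ∧ Ok P x l := by
  classical
  simp only [S, mem_image, mem_filter, mem_product, Prod.exists]
  constructor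
  · rintro ⟨x, l, ⟨⟨h1, h2⟩, h3⟩, rfl⟩
    exact ⟨x, l, rfl, h1, h2, h3⟩
  · rintro ⟨x, l, rfl, h1, h2, h3⟩
    exact ⟨x, l, ⟨⟨h1, h2⟩, h3⟩, rfl⟩

lemma length_S {P : Par} : ∀ {n : ℕ} {w : List ℕ}, w ∈ S P n → w.length = n := by
  intro n
  induction n with
  | zero => intro w hw; simp only [S, mem_singleton] at hw; simp [hw]
  | succ n ih =>
    intro w hw
    obtain ⟨x, l, rfl, _, h2, _⟩ := mem_S_succ.1 hw
    simp [ih h2]

lemma tail_S {P : Par} {n : ℕ} {w : List ℕ} (hw : w ∈ S P (n + 1)) : w.tail ∈ S P n := by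
  obtain ⟨x, l, rfl, _, h2, _⟩ := mem_S_succ.1 hw
  simpa using h2

lemma drop_S {P : Par} {n : ℕ} {w : List ℕ} (hw : w ∈ S P n) (k : ℕ) (hk : k ≤ n) :
    w.drop k ∈ S P (n - k) := by
  induction k with
  | zero => simpa using hw
  | succ k ih =>
    have h1 := ih (by omega)
    have e : n - k = (n - (k + 1)) + 1 := by omega
    rw [e] at h1
    have := tail_S h1
    rwa [List.tail_drop] at this

/-- counting words determined by a suffix -/
lemma card_le_of_drop {P : Par} {X : Finset (List ℕ)} {p m : ℕ}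
    (h1 : ∀ w ∈ X, w.drop p ∈ S P m)
    (h2 : ∀ w ∈ X, ∀ w' ∈ X, w.drop p = w'.drop p → w = w') : X.card ≤ (S P m).card :=
  card_le_card_of_injOn (fun w => w.drop p) h1 (fun w hw w' hw' h => h2 w hw w' hw' h)

/-- extensions of the words of `S P n` by letters of `A` -/
def Ex (P : Par) (n : ℕ) (A : Finset ℕ) (w : List ℕ) : Prop :=
  ∃ x l, w = x :: l ∧ x ∈ A ∧ l ∈ S P n

lemma Ex.length {P : Par} {n : ℕ} {A : Finset ℕ} {w : List ℕ} (h : Ex P n A w) :
    w.length = n + 1 := by
  obtain ⟨x, l, rfl, _, h2⟩ := h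
  simp [length_S h2]

lemma Ex.drop {P : Par} {n : ℕ} {A : Finset ℕ} {w : List ℕ} (h : Ex P n A w) (p : ℕ)
    (hp : 1 ≤ p) (hp' : p ≤ n + 1) : w.drop p ∈ S P (n + 1 - p) := by
  obtain ⟨x, l, rfl, _, h2⟩ := h
  obtain ⟨p', rfl⟩ : ∃ p', p = p' + 1 := ⟨p - 1, by omega⟩
  have := drop_S h2 p' (by omega)
  have e : n + 1 - (p' + 1) = n - p' := by omega
  rw [e]
  simpa using this

lemma sq_card {P : Par} {n : ℕ} {A : Finset ℕ} {X : Finset (List ℕ)} {p : ℕ} (hp : p ≤ n + 1)
    (hX : ∀ w ∈ X, Ex P n A w ∧ HSq p w) : X.card ≤ (S P (n + 1 - p)).card := by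
  by_cases h0 : X = ∅
  · simp [h0]
  obtain ⟨w0, hw0⟩ := nonempty_iff_ne_empty.2 h0
  have hp1 : 1 ≤ p := (hX w0 hw0).2.1
  apply card_le_of_drop (p := p)
  · intro w hw
    exact (hX w hw).1.drop p hp1 hp
  · intro w hw w' hw' h
    rw [← List.take_append_drop p w, ← List.take_append_drop p w', (hX w hw).2.2.2,
      (hX w' hw').2.2.2, h]

open Classical in
lemma sqs_card {P : Par} {n : ℕ} {A : Finset ℕ} {X : Finset (List ℕ)} (p0 : ℕ)
    (hp0 : 1 ≤ p0) (hX : ∀ w ∈ X, Ex P n A w ∧ ∃ p, p0 ≤ p ∧ HSq p w) :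
    X.card ≤ ∑ i ∈ range ((n + 1) / 2 + 1 - p0), (S P (n + 1 - p0 - i)).card := by
  have hsub : X ⊆ (range ((n + 1) / 2 + 1 - p0)).biUnion
      (fun i => X.filter (fun w => HSq (p0 + i) w)) := by
    intro w hw
    obtain ⟨h1, p, h2, h3⟩ := hX w hw
    have hl := h1.length
    have := h3.2.1
    rw [mem_biUnion]
    refine ⟨p - p0, ?_, ?_⟩
    · rw [mem_range]; omega
    · rw [mem_filter]
      refine ⟨hw, ?_⟩
      have e : p0 + (p - p0) = p := by omega
      rw [e]; exact h3
  refine (card_le_card hsub).trans (card_biUnion_le.trans (sum_le_sum ?_))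
  intro i hi
  rw [mem_range] at hi
  have := sq_card (P := P) (n := n) (A := A) (X := X.filter (fun w => HSq (p0 + i) w))
    (p := p0 + i) (by omega)
    (by intro w hw; rw [mem_filter] at hw; exact ⟨(hX w hw.1).1, hw.2⟩)
  rw [Nat.sub_sub]
  exact this

/-- number of forbidden-window events -/
def GG (P : Par) : ℕ := P.forb.card + NN P.K

open Classical in
lemma win_card {P : Par} {n : ℕ} {A : Finset ℕ} {X : Finset (List ℕ)} (hK : 1 ≤ P.K)
    (hX : ∀ w ∈ X, Ex P n A w ∧ ¬ OkW P w) :
    X.card ≤ if P.K ≤ n + 1 then GG P * (S P (n + 1 - P.K)).card else 0 := by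
  split_ifs with hKn
  · -- bad words of the first kind
    have h1 : (X.filter (fun w => (w.take P.K).reverse ∈ P.forb)).card ≤
        P.forb.card * (S P (n + 1 - P.K)).card := by
      have hsub : X.filter (fun w => (w.take P.K).reverse ∈ P.forb) ⊆
          P.forb.biUnion (fun f => X.filter (fun w => (w.take P.K).reverse = f)) := by
        intro w hw
        rw [mem_filter] at hw
        rw [mem_biUnion]
        exact ⟨_, hw.2, by rw [mem_filter]; exact ⟨hw.1, rfl⟩⟩
      refine (card_le_card hsub).trans (card_biUnion_le.trans ?_)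
      refine (sum_le_card_nsmul _ _ ((S P (n + 1 - P.K)).card) ?_).trans (by simp)
      intro f _
      apply card_le_of_drop (p := P.K)
      · intro w hw
        rw [mem_filter] at hw
        exact (hX w hw.1).1.drop _ hK hKn
      · intro w hw w' hw' h
        rw [mem_filter] at hw hw'
        have e1 : w.take P.K = w'.take P.K := by
          have := hw.2.trans hw'.2.symm
          exact List.reverse_injective this
        rw [← List.take_append_drop P.K w, ← List.take_append_drop P.K w', e1, h]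
    have h2 : (X.filter (fun w => ∃ d, P.K ≤ d ∧ d ≤ NN P.K ∧ d + P.K ≤ w.length ∧
        (w.drop d).take P.K = w.take P.K)).card ≤ NN P.K * (S P (n + 1 - P.K)).card := by
      have hsub : X.filter (fun w => ∃ d, P.K ≤ d ∧ d ≤ NN P.K ∧ d + P.K ≤ w.length ∧
          (w.drop d).take P.K = w.take P.K) ⊆
          (Icc P.K (NN P.K)).biUnion (fun d => X.filter (fun w =>
            (w.drop d).take P.K = w.take P.K)) := by
        intro w hw
        rw [mem_filter] at hw
        obtain ⟨hw1, d, hd1, hd2, hd3, hd4⟩ := hw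
        rw [mem_biUnion]
        exact ⟨d, by rw [mem_Icc]; exact ⟨hd1, hd2⟩, by rw [mem_filter]; exact ⟨hw1, hd4⟩⟩
      refine (card_le_card hsub).trans (card_biUnion_le.trans ?_)
      refine (sum_le_card_nsmul _ _ ((S P (n + 1 - P.K)).card) ?_).trans ?_
      · intro d hd
        rw [mem_Icc] at hd
        apply card_le_of_drop (p := P.K)
        · intro w hw
          rw [mem_filter] at hw
          exact (hX w hw.1).1.drop _ hK hKn
        · intro w hw w' hw' h
          rw [mem_filter] at hw hw'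
          have e1 : w.take P.K = w'.take P.K := by
            rw [← hw.2, ← hw'.2]
            obtain ⟨t, rfl⟩ : ∃ t, d = P.K + t := ⟨d - P.K, by omega⟩
            rw [← List.drop_drop, ← List.drop_drop, h]
          rw [← List.take_append_drop P.K w, ← List.take_append_drop P.K w', e1, h]
      · rw [smul_eq_mul]
        apply Nat.mul_le_mul_right
        simp; omega
    have hsub : X ⊆ X.filter (fun w => (w.take P.K).reverse ∈ P.forb) ∪
        X.filter (fun w => ∃ d, P.K ≤ d ∧ d ≤ NN P.K ∧ d + P.K ≤ w.length ∧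
        (w.drop d).take P.K = w.take P.K) := by
      intro w hw
      rw [mem_union, mem_filter, mem_filter]
      have h3 := (hX w hw).2
      unfold OkW at h3
      push Not at h3
      obtain ⟨h4, h5⟩ := h3
      by_cases h6 : (w.take P.K).reverse ∈ P.forb
      · left; exact ⟨hw, h6⟩
      · right
        obtain ⟨d, d1, d2, d3, d4⟩ := h5 h6
        exact ⟨hw, d, d1, d2, d3, d4⟩
    refine (card_le_card hsub).trans ((card_union_le _ _).trans ?_)
    unfold GG
    rw [add_mul]
    exact add_le_add h1 h2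
  · rw [Nat.le_zero, card_eq_zero, eq_empty_iff_forall_notMem]
    intro w hw
    obtain ⟨h1, h2⟩ := hX w hw
    apply h2
    intro h3
    rw [h1.length] at h3
    omega

lemma lp_card {P : Par} {n : ℕ} {A : Finset ℕ} {X : Finset (List ℕ)}
    (hX : ∀ w ∈ X, Ex P n A w ∧ ∃ q, LPbad P w q) :
    X.card ≤ if 10 ≤ n ∧ n % 2 = 0 then (S P (n / 2 + 4)).card else 0 := by
  split_ifs with hn
  · obtain ⟨q, hq⟩ : ∃ q, n = 2 * q + 8 := ⟨n / 2 - 4, by omega⟩
    have e : n / 2 + 4 = n + 1 - (q + 1) := by omega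
    rw [e]
    have key : ∀ w ∈ X, Ex P n A w ∧ LPbad P w q := by
      intro w hw
      obtain ⟨h1, q', h2⟩ := hX w hw
      have h3 := h1.length
      have h4 := h2.2.1
      have : q' = q := by omega
      subst this
      exact ⟨h1, h2⟩
    apply card_le_of_drop (p := q + 1)
    · intro w hw
      exact (key w hw).1.drop _ (by omega) (by omega)
    · intro w hw w' hw' h
      obtain ⟨k1, k2, k3, k4, k5⟩ := key w hw
      obtain ⟨k1', k2', k3', k4', k5'⟩ := key w' hw'
      have e1 : w.take q = w'.take q := by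
        rw [k4, k4']
        have h8 := congrArg (List.drop 8) h
        rw [List.drop_drop, List.drop_drop] at h8
        exact h8
      have e2 : w.take (q + 1) = w'.take (q + 1) := by
        rw [List.take_add_one, List.take_add_one, e1]
        congr 1
        have l1 : q < w.length := by omega
        have l2 : q < w'.length := by omega
        rw [List.getD_eq_getElem _ _ l1] at k5
        rw [List.getD_eq_getElem _ _ l2] at k5'
        rw [List.getElem?_eq_getElem l1, List.getElem?_eq_getElem l2, k5, k5']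
      rw [← List.take_append_drop (q + 1) w, ← List.take_append_drop (q + 1) w', e2, h]
  · rw [Nat.le_zero, card_eq_zero, eq_empty_iff_forall_notMem]
    intro w hw
    obtain ⟨h1, q, h2⟩ := hX w hw
    have h3 := h1.length
    have h4 := h2.2.1
    have h5 := h2.1
    apply hn
    omega

end Pool.Agent.H58.NR
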