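import Pool.Agent.H58.NRPop2

set_option autoImplicit false

namespace Pool.Agent.H58.NR

open Finset

/-- extensions of the words of `T`, the new letter of `l` being in `B l` -/
def extF (T : Finset (List ℕ)) (B : List ℕ → Finset ℕ) : Finset (List ℕ) :=
  (T.sigma B).image (fun q => q.2 :: q.1)

lemma mem_extF {T : Finset (List ℕ)} {B : List ℕ → Finset ℕ} {w : List ℕ} :
    w ∈ extF T B ↔ ∃ x l, w = x :: l ∧ l ∈ T ∧ x ∈ B l := by
  simp only [extF, mem_image, mem_sigma, Sigma.exists]
  constructor
  · rintro ⟨l, x, ⟨h1, h2⟩, rfl⟩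
    exact ⟨x, l, rfl, h1, h2⟩
  · rintro ⟨x, l, rfl, h1, h2⟩
    exact ⟨l, x, ⟨h1, h2⟩, rfl⟩

lemma card_extF {T : Finset (List ℕ)} {B : List ℕ → Finset ℕ} :
    (extF T B).card = ∑ l ∈ T, (B l).card := by
  unfold extF
  rw [card_image_of_injective, card_sigma]
  rintro ⟨l, x⟩ ⟨l', x'⟩ h
  simp only [List.cons.injEq] at h
  obtain ⟨rfl, rfl⟩ := h
  rfl

lemma le_card_extF {T : Finset (List ℕ)} {B : List ℕ → Finset ℕ} {m : ℕ}
    (h : ∀ l ∈ T, m ≤ (B l).card) : m * T.card ≤ (extF T B).card := by
  rw [card_extF, mul_comm, ← smul_eq_mul]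
  exact card_nsmul_le_sum _ _ _ h

/-- number of words, as a real sequence -/
noncomputable def an (P : Par) (n : ℕ) : ℝ := ((S P n).card : ℝ)

lemma letter_S {P : Par} : ∀ {n : ℕ} {w : List ℕ}, w ∈ S P n → ∀ i, i < n →
    w.getD i 0 ∈ P.L (n - 1 - i) := by
  intro n
  induction n with
  | zero => intro w _ i hi; omega
  | succ n ih =>
    intro w hw i hi
    obtain ⟨x, l, rfl, h1, h2, _⟩ := mem_S_succ.1 hw
    rcases i with _ | i
    · simpa using h1
    · have := ih h2 i (by omega)
      have e : n + 1 - 1 - (i + 1) = n - 1 - i := by omega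
      rw [e]
      simpa using this

lemma okS_S {P : Par} {n : ℕ} {w : List ℕ} (hw : w ∈ S P n) (k : ℕ) : OkS (w.drop k) := by
  by_cases hk : k < n
  · have h1 := drop_S hw k (by omega)
    obtain ⟨m, hm⟩ : ∃ m, n - k = m + 1 := ⟨n - k - 1, by omega⟩
    rw [hm] at h1
    obtain ⟨x, l, e, _, _, h4⟩ := mem_S_succ.1 h1
    rw [e]
    exact h4.1
  · intro p hp
    have := hp.2.1
    have h1 := hp.1
    simp [length_S hw] at this
    omega

lemma first_letters {P : Par} {d : ℕ → ℕ} (h : ParOK P d) {n : ℕ} {w : List ℕ}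
    (hw : w ∈ S P n) (i : ℕ) (hi : i < n) (h9 : n - 1 - i < 9) :
    w.getD i 0 = d (n - 1 - i) := by
  have := letter_S hw i hi
  rw [h.L9 _ h9, mem_singleton] at this
  exact this

lemma clean_S {P : Par} {d : ℕ → ℕ} (h : ParOK P d) {n : ℕ} {w : List ℕ}
    (hw : w ∈ S P n) (h9 : 9 ≤ n) (hn : n ≤ 14 * P.K) : Clean w := by
  have hl := length_S hw
  refine ⟨by omega, fun k p => okS_S hw k p, ?_, ?_⟩
  · rcases Nat.lt_or_ge 9 n with h10 | h10
    · obtain ⟨m, rfl⟩ : ∃ m, n = m + 1 := ⟨n - 1, by omega⟩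
      obtain ⟨x, l, rfl, _, h2, h3⟩ := mem_S_succ.1 hw
      have hl' := length_S h2
      have h4 := (h3.2.2 (by omega) (by omega)).1
      rintro ⟨e1, e2, e3, e4⟩
      apply h4
      simp only [List.getD_cons_zero, List.getD_cons_succ] at e1 e2 e3 e4
      right; right; right; right; left
      exact ⟨e2, e3, e4, e1⟩
    · have : n = 9 := by omega
      subst this
      have f := fun i hi => first_letters h hw i hi (by omega)
      rintro ⟨e1, e2, e3, e4⟩
      rw [f 0 (by norm_num), f 2 (by norm_num)] at e1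
      rw [f 2 (by norm_num), f 4 (by norm_num)] at e2
      rw [f 4 (by norm_num), f 6 (by norm_num)] at e3
      rw [f 1 (by norm_num), f 5 (by norm_num)] at e4
      exact h.pre.p1 ⟨e3.symm, e2.symm, e1.symm, e4.symm⟩
  · rcases Nat.lt_or_ge 9 n with h10 | h10
    · obtain ⟨m, rfl⟩ : ∃ m, n = m + 1 := ⟨n - 1, by omega⟩
      obtain ⟨x, l, rfl, _, h2, h3⟩ := mem_S_succ.1 hw
      have hl' := length_S h2
      have h4 := (h3.2.2 (by omega) (by omega)).1
      rintro ⟨e1, e2, e3, e4, e5⟩
      apply h4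
      simp only [List.getD_cons_zero, List.getD_cons_succ] at e1 e2 e3 e4 e5
      right; right; right; right; right
      exact ⟨e2, e3, e4, e5, e1⟩
    · have : n = 9 := by omega
      subst this
      have f := fun i hi => first_letters h hw i hi (by omega)
      rintro ⟨e1, e2, e3, e4, e5⟩
      rw [f 0 (by norm_num), f 2 (by norm_num)] at e1
      rw [f 2 (by norm_num), f 5 (by norm_num)] at e2
      rw [f 5 (by norm_num), f 7 (by norm_num)] at e3
      rw [f 1 (by norm_num), f 6 (by norm_num)] at e4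
      rw [f 3 (by norm_num), f 8 (by norm_num)] at e5
      exact h.pre.p2 ⟨e3.symm, e2.symm, e1.symm, e4.symm, e5.symm⟩

lemma card_S_small {P : Par} {d : ℕ → ℕ} (h : ParOK P d) : ∀ n, n ≤ 9 → (S P n).card = 1 := by
  classical
  intro n
  induction n with
  | zero => intro _; simp [S]
  | succ n ih =>
    intro hn
    have h1 := ih (by omega)
    rw [card_eq_one] at h1
    obtain ⟨w, hw⟩ := h1
    have hwS : w ∈ S P n := by rw [hw]; simp
    have hlen := length_S hwS
    have hok : Ok P (d n) w := by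
      refine ⟨?_, ?_, ?_⟩
      · intro p hp
        rw [HSq_iff] at hp
        obtain ⟨p1, p2, p3⟩ := hp
        have p2' : 2 * p ≤ n + 1 := by simpa [hlen] using p2
        have hget : ∀ j, j ≤ n → (d n :: w).getD j 0 = d (n - j) := by
          intro j hj
          rcases j with _ | j
          · simp
          · rw [List.getD_cons_succ, first_letters h hwS j (by omega) (by omega)]
            congr 1; omega
        obtain ⟨k, hk, hne⟩ := h.pre.sf p (n + 1 - 2 * p) p1 (by omega)
        apply hne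
        have := p3 (p - 1 - k) (by omega)
        rw [hget _ (by omega), hget _ (by omega)] at this
        have e1 : n - (p - 1 - k) = n + 1 - 2 * p + p + k := by omega
        have e2 : n - (p + (p - 1 - k)) = n + 1 - 2 * p + k := by omega
        rw [e1, e2] at this
        exact this.symm
      · intro hK
        have := h.K100
        simp [hlen] at hK
        omega
      · intro h9
        omega
    have : S P (n + 1) = {d n :: w} := by
      ext v
      rw [mem_S_succ, mem_singleton, hw, h.L9 n (by omega)]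
      constructor
      · rintro ⟨x, l, rfl, hx, hl, _⟩
        rw [mem_singleton] at hx hl
        rw [hx, hl]
      · rintro rfl
        exact ⟨d n, w, rfl, by simp, by simp, hok⟩
    rw [this, card_singleton]

/-- locally allowed letters near the branch vertex -/
def BL (P : Par) (l : List ℕ) (x : ℕ) : Prop :=
  x ≠ l.getD 0 0 ∧ ¬ ThrL l x ∧ (x = P.c → ∃ y, ThrL l y)

open Classical in
lemma card_BL {P : Par} {l : List ℕ} (hl : Clean l) {A : Finset ℕ} (hA : A.card = 4) :
    2 ≤ (A.filter (fun x => BL P l x)).card := by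
  have key : ∀ u v : ℕ, (∀ x, ¬ BL P l x → x = u ∨ x = v) →
      2 ≤ (A.filter (fun x => BL P l x)).card := by
    intro u v huv
    have hsub : A ⊆ (A.filter (fun x => BL P l x)) ∪ {u, v} := by
      intro x hx
      by_cases hb : BL P l x
      · rw [mem_union, mem_filter]; left; exact ⟨hx, hb⟩
      · rw [mem_union]; right
        rcases huv x hb with h | h <;> simp [h]
    have h1 := card_le_card hsub
    have h2 := card_union_le (A.filter (fun x => BL P l x)) {u, v}
    have h3 : ({u, v} : Finset ℕ).card ≤ 2 := card_le_two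
    omega
  by_cases hT : ∃ y, ThrL l y
  · obtain ⟨y, hy⟩ := hT
    apply key (l.getD 0 0) y
    intro x hx
    unfold BL at hx
    by_contra hcon
    push Not at hcon
    apply hx
    exact ⟨hcon.1, fun h => hcon.2 (ThrL.unique hl h hy), fun _ => ⟨y, hy⟩⟩
  · apply key (l.getD 0 0) P.c
    intro x hx
    unfold BL at hx
    by_contra hcon
    push Not at hcon
    apply hx
    exact ⟨hcon.1, fun h => hT ⟨x, h⟩, fun h => absurd h hcon.2⟩

lemma okS_of_local {l : List ℕ} {x : ℕ} (h1 : x ≠ l.getD 0 0) (h2 : ¬ ThrL l x)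
    (h3 : ∀ p, 6 ≤ p → ¬ HSq p (x :: l)) : OkS (x :: l) := by
  intro p hp
  by_cases h6 : 6 ≤ p
  · exact h3 p h6 hp
  · rw [HSq_iff] at hp
    obtain ⟨p1, _, p3⟩ := hp
    have p5 : p ≤ 5 := by omega
    interval_cases p
    · have := p3 0 (by norm_num)
      simp only [List.getD_cons_zero, List.getD_cons_succ, add_zero] at this
      exact h1 this
    · have q0 := p3 0 (by norm_num)
      have q1 := p3 1 (by norm_num)
      simp only [List.getD_cons_zero, List.getD_cons_succ, add_zero, Nat.reduceAdd] at q0 q1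
      exact h2 (Or.inl ⟨q1, q0⟩)
    · have q0 := p3 0 (by norm_num)
      have q1 := p3 1 (by norm_num)
      have q2 := p3 2 (by norm_num)
      simp only [List.getD_cons_zero, List.getD_cons_succ, add_zero, Nat.reduceAdd] at q0 q1 q2
      exact h2 (Or.inr (Or.inl ⟨q1, q2, q0⟩))
    · have q0 := p3 0 (by norm_num)
      have q1 := p3 1 (by norm_num)
      have q2 := p3 2 (by norm_num)
      have q3 := p3 3 (by norm_num)
      simp only [List.getD_cons_zero, List.getD_cons_succ, add_zero, Nat.reduceAdd]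
        at q0 q1 q2 q3
      exact h2 (Or.inr (Or.inr (Or.inl ⟨q1, q2, q3, q0⟩)))
    · have q0 := p3 0 (by norm_num)
      have q1 := p3 1 (by norm_num)
      have q2 := p3 2 (by norm_num)
      have q3 := p3 3 (by norm_num)
      have q4 := p3 4 (by norm_num)
      simp only [List.getD_cons_zero, List.getD_cons_succ, add_zero, Nat.reduceAdd]
        at q0 q1 q2 q3 q4
      exact h2 (Or.inr (Or.inr (Or.inr (Or.inl ⟨q1, q2, q3, q4, q0⟩))))

lemma card_union4 {A B C D X : Finset (List ℕ)} (h : X ⊆ A ∪ B ∪ C ∪ D) :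
    X.card ≤ A.card + B.card + C.card + D.card := by
  refine (card_le_card h).trans ((card_union_le _ _).trans ?_)
  have h1 := card_union_le (A ∪ B) C
  have h2 := card_union_le A B
  omega

lemma cast_far (P : Par) (n : ℕ) :
    (((if P.K ≤ n + 1 then GG P * (S P (n + 1 - P.K)).card else 0 : ℕ)) : ℝ) =
      far (an P) P.K (GG P) n := by
  unfold far an
  split_ifs <;> simp

lemma cast_lpt (P : Par) (n : ℕ) :
    (((if 10 ≤ n ∧ n % 2 = 0 then (S P (n / 2 + 4)).card else 0 : ℕ)) : ℝ) = lpt (an P) n := by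
  unfold lpt an
  split_ifs <;> simp

open Classical in
lemma growth_r1 {P : Par} {d : ℕ → ℕ} (h : ParOK P d) (n : ℕ) (h9 : 9 ≤ n)
    (hn : n ≤ 14 * P.K) :
    2 * an P n ≤ an P (n + 1) + ∑ i ∈ range ((n + 1) / 2 - 5), an P (n - 5 - i) +
      lpt (an P) n + far (an P) P.K (GG P) n := by
  set X := extF (S P n) (fun l => (P.L n).filter (fun x => BL P l x)) with hX
  have hXc : 2 * (S P n).card ≤ X.card := by
    apply le_card_extF
    intro l hl
    exact card_BL (clean_S h hl h9 hn) (h.L4 n h9)
  have hEx : ∀ w ∈ X, Ex P n (P.L n) w := by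
    intro w hw
    rw [hX, mem_extF] at hw
    obtain ⟨x, l, rfl, h1, h2⟩ := hw
    rw [mem_filter] at h2
    exact ⟨x, l, rfl, h2.1, h1⟩
  have hsub : X ⊆ S P (n + 1) ∪ X.filter (fun w => ∃ p, 6 ≤ p ∧ HSq p w) ∪
      X.filter (fun w => ∃ q, LPbad P w q) ∪ X.filter (fun w => ¬ OkW P w) := by
    intro w hw
    by_cases b1 : ∃ p, 6 ≤ p ∧ HSq p w
    · simp only [mem_union, mem_filter]; left; left; right; exact ⟨hw, b1⟩
    by_cases b2 : ∃ q, LPbad P w q
    · simp only [mem_union, mem_filter]; left; right; exact ⟨hw, b2⟩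
    by_cases b3 : OkW P w
    · simp only [mem_union]; left; left; left
      rw [hX, mem_extF] at hw
      obtain ⟨x, l, rfl, h1, h2⟩ := hw
      rw [mem_filter] at h2
      rw [mem_S_succ]
      refine ⟨x, l, rfl, h2.1, h1, ?_, b3, ?_⟩
      · apply okS_of_local h2.2.1 h2.2.2.1
        intro p hp hs
        exact b1 ⟨p, hp, hs⟩
      · intro _ _
        exact ⟨h2.2.2.1, h2.2.2.2, fun q hq => b2 ⟨q, hq⟩⟩
    · simp only [mem_union, mem_filter]; right; exact ⟨hw, b3⟩
  have c1 := card_union4 hsub
  have c2 := sqs_card (P := P) (n := n) (A := P.L n)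
    (X := X.filter (fun w => ∃ p, 6 ≤ p ∧ HSq p w)) 6 (by norm_num)
    (by intro w hw; rw [mem_filter] at hw; exact ⟨hEx w hw.1, hw.2⟩)
  have c3 := lp_card (P := P) (n := n) (A := P.L n)
    (X := X.filter (fun w => ∃ q, LPbad P w q))
    (by intro w hw; rw [mem_filter] at hw; exact ⟨hEx w hw.1, hw.2⟩)
  have c4 := win_card (P := P) (n := n) (A := P.L n) (X := X.filter (fun w => ¬ OkW P w))
    (by have := h.K100; omega)
    (by intro w hw; rw [mem_filter] at hw; exact ⟨hEx w hw.1, hw.2⟩)
  have tot : 2 * (S P n).card ≤ (S P (n + 1)).card +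
      ∑ i ∈ range ((n + 1) / 2 + 1 - 6), (S P (n + 1 - 6 - i)).card +
      (if 10 ≤ n ∧ n % 2 = 0 then (S P (n / 2 + 4)).card else 0) +
      (if P.K ≤ n + 1 then GG P * (S P (n + 1 - P.K)).card else 0) := by omega
  have tot' : ((2 * (S P n).card : ℕ) : ℝ) ≤ (((S P (n + 1)).card +
      ∑ i ∈ range ((n + 1) / 2 + 1 - 6), (S P (n + 1 - 6 - i)).card +
      (if 10 ≤ n ∧ n % 2 = 0 then (S P (n / 2 + 4)).card else 0) +
      (if P.K ≤ n + 1 then GG P * (S P (n + 1 - P.K)).card else 0) : ℕ) : ℝ) := by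
    exact_mod_cast tot
  rw [Nat.cast_add, Nat.cast_add, Nat.cast_add, cast_far, cast_lpt,
    Nat.cast_sum] at tot'
  have e1 : (n + 1) / 2 + 1 - 6 = (n + 1) / 2 - 5 := by omega
  rw [e1] at tot'
  have e2 : ∑ i ∈ range ((n + 1) / 2 - 5), (((S P (n + 1 - 6 - i)).card : ℕ) : ℝ) =
      ∑ i ∈ range ((n + 1) / 2 - 5), an P (n - 5 - i) := by
    apply sum_congr rfl
    intro i _
    unfold an
    congr 3
  rw [e2] at tot'
  have e3 : ((2 * (S P n).card : ℕ) : ℝ) = 2 * an P n := by unfold an; push_cast; ring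
  rw [e3] at tot'
  exact tot'

lemma card_union3 {A B C X : Finset (List ℕ)} (h : X ⊆ A ∪ B ∪ C) :
    X.card ≤ A.card + B.card + C.card := by
  refine (card_le_card h).trans ((card_union_le _ _).trans ?_)
  have h2 := card_union_le A B
  omega

lemma Ts_two (a : ℕ → ℝ) (n : ℕ) (hn : 2 ≤ n) : Ts a n = Ts a (n - 2) + a (n - 1) + a n := by
  obtain ⟨m, rfl⟩ : ∃ m, n = m + 2 := ⟨n - 2, by omega⟩
  rw [Ts_succ, Ts_succ]
  rfl

open Classical in
/-- the number of squarefree extensions of the words of length `n` by letters of `A` -/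
noncomputable def vn (P : Par) (n : ℕ) (A : Finset ℕ) : ℕ :=
  ((extF (S P n) (fun _ => A)).filter (fun w => OkS w)).card

lemma an_nonneg (P : Par) (n : ℕ) : 0 ≤ an P n := by unfold an; positivity

lemma sqs_card' {P : Par} {n : ℕ} {A : Finset ℕ} {X : Finset (List ℕ)} (p0 : ℕ)
    (hp0 : 1 ≤ p0) (hn : p0 ≤ n + 1) (hX : ∀ w ∈ X, Ex P n A w ∧ ∃ p, p0 ≤ p ∧ HSq p w) :
    (X.card : ℝ) ≤ Ts (an P) (n + 1 - p0) := by
  have h1 := sqs_card p0 hp0 hX
  have h2 : (X.card : ℝ) ≤ ∑ i ∈ range ((n + 1) / 2 + 1 - p0), an P (n + 1 - p0 - i) := by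
    calc (X.card : ℝ) ≤ ((∑ i ∈ range ((n + 1) / 2 + 1 - p0),
        (S P (n + 1 - p0 - i)).card : ℕ) : ℝ) := by exact_mod_cast h1
      _ = _ := by rw [Nat.cast_sum]; rfl
  exact h2.trans (sum_le_Ts _ (an_nonneg P) _ _ (by omega))

open Classical in
lemma vb_all {P : Par} {d : ℕ → ℕ} (h : ParOK P d) (n : ℕ) (hn : 14 * P.K + 1 ≤ n)
    {A : Finset ℕ} (hA : A.card = 4) : VB (an P) P.K (GG P) n (vn P n A) := by
  have hK := h.K100
  set X := extF (S P n) (fun _ => A) with hX
  have hXc : X.card = 4 * (S P n).card := by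
    rw [hX, card_extF, sum_const, hA, smul_eq_mul, mul_comm]
  have hEx : ∀ w ∈ X, Ex P n A w := by
    intro w hw
    rw [hX, mem_extF] at hw
    obtain ⟨x, l, rfl, h1, h2⟩ := hw
    exact ⟨x, l, rfl, h2, h1⟩
  have hXr : (X.card : ℝ) = 4 * an P n := by rw [hXc]; unfold an; push_cast; ring
  refine ⟨?_, ?_⟩
  · have hsub : X ⊆ X.filter (fun w => OkS w) ∪ X.filter (fun w => ∃ p, 1 ≤ p ∧ HSq p w) := by
      intro w hw
      rw [mem_union, mem_filter, mem_filter]
      by_cases b : OkS w
      · left; exact ⟨hw, b⟩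
      · right
        unfold OkS at b
        push Not at b
        obtain ⟨p, hp⟩ := b
        exact ⟨hw, p, hp.1, hp⟩
    have c1 := (card_le_card hsub).trans (card_union_le _ _)
    have c2 := sqs_card' (P := P) (n := n) (A := A)
      (X := X.filter (fun w => ∃ p, 1 ≤ p ∧ HSq p w)) 1 le_rfl (by omega)
      (by intro w hw; rw [mem_filter] at hw; exact ⟨hEx w hw.1, hw.2⟩)
    have c1' : (X.card : ℝ) ≤ (vn P n A : ℝ) +
        ((X.filter (fun w => ∃ p, 1 ≤ p ∧ HSq p w)).card : ℝ) := by
      have : X.card ≤ vn P n A + (X.filter (fun w => ∃ p, 1 ≤ p ∧ HSq p w)).card := c1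
      exact_mod_cast this
    have e1 : n + 1 - 1 = n := by omega
    rw [e1, Ts_two _ n (by omega)] at c2
    linarith
  · -- words of length n with equal letters 0 and 2
    have hsub : X ⊆ X.filter (fun w => OkS w) ∪ X.filter (fun w => HSq 1 w) ∪
        X.filter (fun w => HSq 2 w) ∪ X.filter (fun w => ∃ p, 3 ≤ p ∧ HSq p w) := by
      intro w hw
      simp only [mem_union, mem_filter]
      by_cases b : OkS w
      · left; left; left; exact ⟨hw, b⟩
      · unfold OkS at b
        push Not at b
        obtain ⟨p, hp⟩ := b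
        have := hp.1
        rcases Nat.lt_or_ge p 3 with h3 | h3
        · interval_cases p
          · left; left; right; exact ⟨hw, hp⟩
          · left; right; exact ⟨hw, hp⟩
        · right; exact ⟨hw, p, h3, hp⟩
    have c1 := card_union4 hsub
    have c2 := sq_card (P := P) (n := n) (A := A) (X := X.filter (fun w => HSq 1 w)) (p := 1)
      (by omega) (by intro w hw; rw [mem_filter] at hw; exact ⟨hEx w hw.1, hw.2⟩)
    have c4 := sqs_card' (P := P) (n := n) (A := A)
      (X := X.filter (fun w => ∃ p, 3 ≤ p ∧ HSq p w)) 3 (by norm_num) (by omega)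
      (by intro w hw; rw [mem_filter] at hw; exact ⟨hEx w hw.1, hw.2⟩)
    -- period 2
    have c3 : (X.filter (fun w => HSq 2 w)).card ≤
        ((S P n).filter (fun l => l.getD 0 0 = l.getD 2 0)).card := by
      apply card_le_card_of_injOn (fun w => w.drop 1)
      · intro w hw
        simp only [coe_filter, Set.mem_ofPred_eq] at hw
        have h1 := (hEx w hw.1).drop 1 le_rfl (by omega)
        have h2 := hw.2
        rw [HSq_iff] at h2
        simp only [coe_filter, Set.mem_ofPred_eq]
        refine ⟨by simpa using h1, ?_⟩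
        rw [getD_drop, getD_drop]
        have := h2.2.2 1 (by norm_num)
        simpa using this
      · intro w hw w' hw' he
        simp only [coe_filter, Set.mem_ofPred_eq] at hw hw'
        have h2 := hw.2.2.2
        have h2' := hw'.2.2.2
        have g1 : w.getD 0 0 = w'.getD 0 0 := by
          have a1 := ((HSq_iff 2 w).1 hw.2).2.2 0 (by norm_num)
          have a2 := ((HSq_iff 2 w').1 hw'.2).2.2 0 (by norm_num)
          have a3 : (w.drop 1).getD 1 0 = (w'.drop 1).getD 1 0 := by
            simp only at he; rw [he]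
          rw [getD_drop, getD_drop] at a3
          simp only [add_zero, Nat.reduceAdd] at a1 a2 a3
          rw [a1, a2, a3]
        obtain ⟨x, l, rfl, _, _⟩ := hEx w hw.1
        obtain ⟨x', l', rfl, _, _⟩ := hEx w' hw'.1
        simp at he g1
        rw [he, g1]
    -- words with different letters 0 and 2
    obtain ⟨m, rfl⟩ : ∃ m, n = m + 1 := ⟨n - 1, by omega⟩
    set Y := extF (S P m) (fun l => (P.L m).filter (fun x => x ≠ l.getD 0 0 ∧ x ≠ l.getD 1 0))
      with hY
    have hYc : 2 * (S P m).card ≤ Y.card := by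
      apply le_card_extF
      intro l _
      have hsub : P.L m ⊆ (P.L m).filter (fun x => x ≠ l.getD 0 0 ∧ x ≠ l.getD 1 0) ∪
          {l.getD 0 0, l.getD 1 0} := by
        intro x hx
        rw [mem_union, mem_filter]
        by_cases b1 : x = l.getD 0 0
        · right; simp [b1]
        · by_cases b2 : x = l.getD 1 0
          · right; simp [b2]
          · left; exact ⟨hx, b1, b2⟩
      have h1 := card_le_card hsub
      have h2 := card_union_le ((P.L m).filter (fun x => x ≠ l.getD 0 0 ∧ x ≠ l.getD 1 0))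
        {l.getD 0 0, l.getD 1 0}
      have h3 : ({l.getD 0 0, l.getD 1 0} : Finset ℕ).card ≤ 2 := card_le_two
      have h4 := h.L4 m (by omega)
      omega
    have hYE : ∀ w ∈ Y, Ex P m (P.L m) w := by
      intro w hw
      rw [hY, mem_extF] at hw
      obtain ⟨x, l, rfl, h1, h2⟩ := hw
      rw [mem_filter] at h2
      exact ⟨x, l, rfl, h2.1, h1⟩
    have hsubY : Y ⊆ (S P (m + 1)).filter (fun l => ¬ l.getD 0 0 = l.getD 2 0) ∪
        Y.filter (fun w => ∃ p, 3 ≤ p ∧ HSq p w) ∪ Y.filter (fun w => ¬ OkW P w) := by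
      intro w hw
      by_cases b1 : ∃ p, 3 ≤ p ∧ HSq p w
      · simp only [mem_union, mem_filter]; left; right; exact ⟨hw, b1⟩
      by_cases b3 : OkW P w
      · simp only [mem_union, mem_filter]; left; left
        rw [hY, mem_extF] at hw
        obtain ⟨x, l, rfl, h1, h2⟩ := hw
        rw [mem_filter] at h2
        have hx2 : ¬ (x :: l).getD 0 0 = (x :: l).getD 2 0 := by
          simp only [List.getD_cons_zero, List.getD_cons_succ]
          exact h2.2.2
        refine ⟨?_, hx2⟩
        rw [mem_S_succ]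
        refine ⟨x, l, rfl, h2.1, h1, ?_, b3, ?_⟩
        · intro p hp
          have p1 := hp.1
          rcases Nat.lt_or_ge p 3 with h3 | h3
          · interval_cases p
            · rw [HSq_iff] at hp
              have := hp.2.2 0 (by norm_num)
              simp only [List.getD_cons_zero, List.getD_cons_succ, add_zero] at this
              exact h2.2.1 this
            · rw [HSq_iff] at hp
              have := hp.2.2 0 (by norm_num)
              exact hx2 this
          · exact b1 ⟨p, h3, hp⟩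
        · intro _ h14
          rw [length_S h1] at h14
          omega
      · simp only [mem_union, mem_filter]; right; exact ⟨hw, b3⟩
    have d1 := card_union3 hsubY
    have d2 := sqs_card' (P := P) (n := m) (A := P.L m)
      (X := Y.filter (fun w => ∃ p, 3 ≤ p ∧ HSq p w)) 3 (by norm_num) (by omega)
      (by intro w hw; rw [mem_filter] at hw; exact ⟨hYE w hw.1, hw.2⟩)
    have d3 := win_card (P := P) (n := m) (A := P.L m) (X := Y.filter (fun w => ¬ OkW P w))
      (by omega) (by intro w hw; rw [mem_filter] at hw; exact ⟨hYE w hw.1, hw.2⟩)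
    have d3' : ((Y.filter (fun w => ¬ OkW P w)).card : ℝ) ≤ far (an P) P.K (GG P) m := by
      rw [← cast_far]; exact_mod_cast d3
    have d4 : ((S P (m + 1)).filter (fun l => l.getD 0 0 = l.getD 2 0)).card +
        ((S P (m + 1)).filter (fun l => ¬ l.getD 0 0 = l.getD 2 0)).card =
        (S P (m + 1)).card := card_filter_add_card_filter_not _
    have tot1 : (X.card : ℝ) ≤ (vn P (m + 1) A : ℝ) + (X.filter (fun w => HSq 1 w)).card +
        (X.filter (fun w => HSq 2 w)).card +
        (X.filter (fun w => ∃ p, 3 ≤ p ∧ HSq p w)).card := by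
      have : X.card ≤ vn P (m + 1) A + (X.filter (fun w => HSq 1 w)).card +
        (X.filter (fun w => HSq 2 w)).card +
        (X.filter (fun w => ∃ p, 3 ≤ p ∧ HSq p w)).card := c1
      exact_mod_cast this
    have tot2 : (2 * (S P m).card : ℝ) ≤ ((S P (m + 1)).filter
        (fun l => ¬ l.getD 0 0 = l.getD 2 0)).card +
        (Y.filter (fun w => ∃ p, 3 ≤ p ∧ HSq p w)).card +
        (Y.filter (fun w => ¬ OkW P w)).card := by
      exact_mod_cast hYc.trans d1
    have c2' : ((X.filter (fun w => HSq 1 w)).card : ℝ) ≤ an P (m + 1) := by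
      unfold an; exact_mod_cast c2
    have c3' : ((X.filter (fun w => HSq 2 w)).card : ℝ) ≤
        (((S P (m + 1)).filter (fun l => l.getD 0 0 = l.getD 2 0)).card : ℝ) := by
      exact_mod_cast c3
    have d4' : (((S P (m + 1)).filter (fun l => l.getD 0 0 = l.getD 2 0)).card : ℝ) +
        ((S P (m + 1)).filter (fun l => ¬ l.getD 0 0 = l.getD 2 0)).card = an P (m + 1) := by
      unfold an; exact_mod_cast d4
    have e1 : m + 1 + 1 - 3 = m + 1 - 2 := by omega
    have e2 : m + 1 - 3 = m + 1 - 3 := rfl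
    rw [e1] at c4
    have e3 : m + 1 - 1 = m := by omega
    rw [e3]
    have e4 : an P m = ((S P m).card : ℝ) := rfl
    rw [e4]
    linarith

open Classical in
lemma v_le {P : Par} {d : ℕ → ℕ} (h : ParOK P d) (n : ℕ) (hn : 14 * P.K ≤ n) :
    (vn P n (P.L n) : ℝ) ≤ an P (n + 1) + far (an P) P.K (GG P) n := by
  have hK := h.K100
  set Z := (extF (S P n) (fun _ => P.L n)).filter (fun w => OkS w) with hZ
  have hEx : ∀ w ∈ Z, Ex P n (P.L n) w := by
    intro w hw
    rw [hZ, mem_filter, mem_extF] at hw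
    obtain ⟨⟨x, l, rfl, h1, h2⟩, _⟩ := hw
    exact ⟨x, l, rfl, h2, h1⟩
  have hsub : Z ⊆ S P (n + 1) ∪ Z.filter (fun w => ¬ OkW P w) := by
    intro w hw
    by_cases b3 : OkW P w
    · rw [mem_union]; left
      rw [hZ, mem_filter, mem_extF] at hw
      obtain ⟨⟨x, l, rfl, h1, h2⟩, h3⟩ := hw
      rw [mem_S_succ]
      refine ⟨x, l, rfl, h2, h1, h3, b3, ?_⟩
      intro _ h14
      rw [length_S h1] at h14
      omega
    · rw [mem_union, mem_filter]; right; exact ⟨hw, b3⟩
  have c1 := (card_le_card hsub).trans (card_union_le _ _)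
  have c2 := win_card (P := P) (n := n) (A := P.L n) (X := Z.filter (fun w => ¬ OkW P w))
    (by omega) (by intro w hw; rw [mem_filter] at hw; exact ⟨hEx w hw.1, hw.2⟩)
  rw [← cast_far]
  unfold an
  have : vn P n (P.L n) ≤ (S P (n + 1)).card +
    (if P.K ≤ n + 1 then GG P * (S P (n + 1 - P.K)).card else 0) :=
    c1.trans (Nat.add_le_add_left c2 _)
  exact_mod_cast this

theorem growth_pop {P : Par} {d : ℕ → ℕ} (h : ParOK P d) :
    Growth (an P) P.K (14 * P.K) (GG P) := by
  have hK := h.K100
  refine ⟨an_nonneg P, ?_, fun n h1 h2 => growth_r1 h n h1 h2, ?_, ?_⟩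
  · intro i hi
    unfold an
    rw [card_S_small h i hi]; simp
  · intro n hn
    have h1 := (vb_all h n hn (h.L4 n (by omega))).1
    have h2 := v_le h n (by omega)
    linarith
  · intro n hn
    have h1 := (vb_all h n hn (h.L4 n (by omega))).2
    have h2 := v_le h n (by omega)
    linarith

end Pool.Agent.H58.NR
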