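import Pool.Agent.H58.NRBlock

set_option autoImplicit false

namespace Pool.Agent.H58.NR

open Finset

def thr9 (e : ℕ → ℕ → Bool) : Bool :=
  e 0 2 || (e 0 3 && e 1 4) || (e 0 4 && e 1 5 && e 2 6) || (e 0 5 && e 1 6 && e 2 7 && e 3 8) ||
  (e 1 3 && e 3 5 && e 0 4) || (e 1 4 && e 4 6 && e 0 5 && e 2 7)

def leaf9 (n : ℕ) : Bool :=
  nosq (ed n) 1 8 && nosq (ed n) 2 6 && nosq (ed n) 3 4 && nosq (ed n) 4 2 &&
  !(ed n 2 4 && ed n 4 6 && ed n 6 8 && ed n 3 7) &&
  !(ed n 1 3 && ed n 3 6 && ed n 6 8 && ed n 2 7 && ed n 0 5) &&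
  !(thr9 (ed n))

def ini9 : ℕ := 16 + 17 * 2^5 + 18 * 2^10 + 19 * 2^15 + 20 * 2^20 + 21 * 2^25 + 22 * 2^30 +
  23 * 2^35 + 24 * 2^40

def ord9 : List ℕ := [0, 1, 2, 3, 4, 5, 6, 7, 8]

theorem win9 : win leaf9 leaf9 2 ord9 ini9 0 = true := by decide +kernel

/-- a good choice of the first nine letters -/
structure PrefixOK (d : ℕ → ℕ) : Prop where
  sf : ∀ p i, 1 ≤ p → i + 2 * p ≤ 9 → ∃ k < p, d (i + k) ≠ d (i + p + k)
  p1 : ¬ (d 2 = d 4 ∧ d 4 = d 6 ∧ d 6 = d 8 ∧ d 3 = d 7)
  p2 : ¬ (d 1 = d 3 ∧ d 3 = d 6 ∧ d 6 = d 8 ∧ d 2 = d 7 ∧ d 0 = d 5)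
  nt : ¬ Threat d

theorem prefix_exists (Λ : ℕ → Finset ℕ) (hΛ : ∀ i, i < 9 → 3 ≤ (Λ i).card) :
    ∃ d : ℕ → ℕ, (∀ i, i < 9 → d i ∈ Λ i) ∧ PrefixOK d := by
  obtain ⟨n', mx', f', r1, r2, r3, r4, r5, r6⟩ := win_sound leaf9 leaf9 2 9 ord9 ini9 0 id Λ
    (by decide) (by decide) (by decide) (by decide) (by simp)
    (fun p hp => hΛ p (by simp [ord9] at hp; omega)) win9
  refine ⟨fun i => f' (dg n' i), ?_, ?_⟩
  · intro i hi
    apply r4
    interval_cases i <;> decide
  · have he : ∀ i j, i < 9 → j < 9 → (f' (dg n' i) = f' (dg n' j) ↔ ed n' i j = true) := by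
      intro i j hi hj
      unfold ed
      constructor
      · intro h
        have := r5 (by simpa using r6 i hi) (by simpa using r6 j hj) h
        rw [this]; exact Nat.beq_refl _
      · intro h; rw [Nat.eq_of_beq_eq_true h]
    unfold leaf9 at r1
    simp only [Bool.and_eq_true, Bool.not_eq_true'] at r1
    obtain ⟨⟨⟨⟨⟨⟨h1, h2⟩, h3⟩, h4⟩, h5⟩, h6⟩, h7⟩ := r1
    refine ⟨?_, ?_, ?_, ?_⟩
    · have conv : ∀ p i m, i < m → m + 2 * p ≤ 10 → nosq (ed n') p m = true →
          ∃ k < p, f' (dg n' (i + k)) ≠ f' (dg n' (i + p + k)) := by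
        intro p i m him hm h
        obtain ⟨k, hk, hek⟩ := nosq_sound _ p m h i him
        refine ⟨k, hk, ?_⟩
        intro hcon
        have e1 : i + p + k = i + k + p := by omega
        rw [e1] at hcon
        have := (he (i + k) (i + k + p) (by omega) (by omega)).1 hcon
        rw [hek] at this
        exact absurd this (by simp)
      intro p i hp hi
      have : p ≤ 4 := by omega
      interval_cases p
      · exact conv 1 i 8 (by omega) (by norm_num) h1
      · exact conv 2 i 6 (by omega) (by norm_num) h2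
      · exact conv 3 i 4 (by omega) (by norm_num) h3
      · exact conv 4 i 2 (by omega) (by norm_num) h4
    · rintro ⟨a1, a2, a3, a4⟩
      rw [(he 2 4 (by norm_num) (by norm_num)).1 a1, (he 4 6 (by norm_num) (by norm_num)).1 a2,
        (he 6 8 (by norm_num) (by norm_num)).1 a3, (he 3 7 (by norm_num) (by norm_num)).1 a4] at h5
      simp at h5
    · rintro ⟨a1, a2, a3, a4, a5⟩
      rw [(he 1 3 (by norm_num) (by norm_num)).1 a1, (he 3 6 (by norm_num) (by norm_num)).1 a2,
        (he 6 8 (by norm_num) (by norm_num)).1 a3, (he 2 7 (by norm_num) (by norm_num)).1 a4,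
        (he 0 5 (by norm_num) (by norm_num)).1 a5] at h6
      simp at h6
    · intro hT
      have : thr9 (ed n') = true := by
        unfold Threat at hT
        rw [he 0 2 (by norm_num) (by norm_num), he 0 3 (by norm_num) (by norm_num),
          he 1 4 (by norm_num) (by norm_num), he 0 4 (by norm_num) (by norm_num),
          he 1 5 (by norm_num) (by norm_num), he 2 6 (by norm_num) (by norm_num),
          he 0 5 (by norm_num) (by norm_num), he 1 6 (by norm_num) (by norm_num),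
          he 2 7 (by norm_num) (by norm_num), he 3 8 (by norm_num) (by norm_num),
          he 1 3 (by norm_num) (by norm_num), he 3 5 (by norm_num) (by norm_num),
          he 4 6 (by norm_num) (by norm_num)] at hT
        rcases hT with a | ⟨a, b⟩ | ⟨a, b, c⟩ | ⟨a, b, c, d⟩ | ⟨a, b, c⟩ | ⟨a, b, c, d⟩
        · simp [thr9, a]
        · simp [thr9, a, b]
        · simp [thr9, a, b, c]
        · simp [thr9, a, b, c, d]
        · simp [thr9, a, b, c]
        · simp [thr9, a, b, c, d]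
      rw [this] at h7
      exact absurd h7 (by simp)

end Pool.Agent.H58.NR
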