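import Pool.Agent.H58.NRClose4

set_option autoImplicit false

namespace Pool.Agent.H58.NR

open Finset

/-- the parameters of a leg -/
def mkPar (K c : ℕ) (Λ : ℕ → Finset ℕ) (forb : Finset (List ℕ)) (d : ℕ → ℕ) : Par :=
  { K := K, c := c, L := fun i => if i < 9 then {d i} else Λ (i + 1), forb := forb }

lemma mkPar_ok {K c : ℕ} {Λ : ℕ → Finset ℕ} {forb : Finset (List ℕ)} {d : ℕ → ℕ}
    (hK : 100 ≤ K) (hΛ : ∀ i, (Λ i).card = 4) (hd : PrefixOK d)
    (hdc : ∀ i, i < 9 → d i ≠ c) : ParOK (mkPar K c Λ forb d) d := by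
  refine ⟨hK, hd, hdc, ?_, ?_⟩
  · intro i hi
    simp [mkPar, hi]
  · intro i hi
    simp only [mkPar, if_neg (show ¬ i < 9 by omega)]
    exact hΛ _

lemma prefix_for (c : ℕ) (Λ : ℕ → Finset ℕ) (hΛ : ∀ i, (Λ i).card = 4) :
    ∃ d : ℕ → ℕ, (∀ i, i < 9 → d i ∈ Λ (i + 1) ∧ d i ≠ c) ∧ PrefixOK d := by
  obtain ⟨d, h1, h2⟩ := prefix_exists (fun i => (Λ (i + 1)).erase c) (by
    intro i _
    have := pred_card_le_card_erase (s := Λ (i + 1)) (a := c)
    rw [hΛ] at this
    exact this)
  refine ⟨d, ?_, h2⟩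
  intro i hi
  have := h1 i hi
  rw [mem_erase] at this
  exact ⟨this.2, this.1⟩

lemma exists_K (C : ℕ) : ∃ K : ℕ, 100 ≤ K ∧
    (((C + 50) * K : ℕ) : ℝ) * (4/7) ^ (K - 19) ≤ 1/10000 := by
  have h := tendsto_pow_const_mul_const_pow_of_abs_lt_one 1 (r := (4/7 : ℝ))
    (by rw [abs_of_nonneg] <;> norm_num)
  have hδ : (0 : ℝ) < (4/7) ^ 19 / (10000 * (C + 50)) := by positivity
  have h2 := (h.eventually (gt_mem_nhds hδ)).and (Filter.eventually_ge_atTop 100)
  obtain ⟨K, h3, h4⟩ := h2.exists
  refine ⟨K, h4, ?_⟩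
  rw [pow_one, lt_div_iff₀ (by positivity)] at h3
  have e : (4/7 : ℝ) ^ K = (4/7) ^ (K - 19) * (4/7) ^ 19 := by
    rw [← pow_add]; congr 1; omega
  rw [e] at h3
  have h19 : (0 : ℝ) < (4/7) ^ 19 := by positivity
  have h5 : ((K : ℝ) * (4/7) ^ (K - 19) * (10000 * (C + 50))) * (4/7) ^ 19 < 1 * (4/7) ^ 19 := by
    calc ((K : ℝ) * (4/7) ^ (K - 19) * (10000 * (C + 50))) * (4/7) ^ 19
        = (K : ℝ) * ((4/7) ^ (K - 19) * (4/7) ^ 19) * (10000 * (C + 50)) := by ring
      _ < (4/7) ^ 19 := h3
      _ = 1 * (4/7) ^ 19 := by ring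
  have h6 := lt_of_mul_lt_mul_right h5 h19.le
  push_cast
  nlinarith

theorem threadThm : ThreadThm := by
  intro C
  obtain ⟨K, hK, hKC⟩ := exists_K C
  refine ⟨K, hK, ?_⟩
  intro c c' Λ forb hΛ hforb
  -- the two legs
  obtain ⟨d, hd1, hd2⟩ := prefix_for c Λ hΛ
  obtain ⟨d', hd1', hd2'⟩ := prefix_for c' (fun i => Λ (DD K - i)) (fun i => hΛ _)
  set P := mkPar K c Λ forb d with hPdef
  set P' := mkPar K c' (fun i => Λ (DD K - i)) forb d' with hP'def
  have hP : ParOK P d := mkPar_ok hK hΛ hd2 (fun i hi => (hd1 i hi).2)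
  have hP' : ParOK P' d' := mkPar_ok hK (fun i => hΛ _) hd2' (fun i hi => (hd1' i hi).2)
  have hPK : P.K = K := rfl
  have hPK' : P'.K = K := rfl
  have hNK : NN K = 50 * K := rfl
  have hDK : DD K = 100 * K + 11 := rfl
  have hGG : ((forb.card + NN K : ℕ) : ℝ) * (4/7) ^ (K - 19) ≤ 1/10000 := by
    refine le_trans ?_ hKC
    apply mul_le_mul_of_nonneg_right _ (by positivity)
    have : forb.card + NN K ≤ (C + 50) * K := by
      rw [hNK, add_mul]; omega
    exact_mod_cast this
  have n : LegNum P := legNum_of hP hGG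
  have n' : LegNum P' := legNum_of hP' hGG
  -- the ends of the block
  obtain ⟨x, hx, y, hy, hxy, hF⟩ := pair_exists n (A := Λ (NN K + 1)) (B := Λ (NN K + 2))
    (hΛ _) (hΛ _)
  obtain ⟨x', hx', y', hy', hxy', hF'⟩ := pair_exists n' (A := Λ (NN K + 10))
    (B := Λ (NN K + 9)) (hΛ _) (hΛ _)
  obtain ⟨r, r0, r1, r8, r9, hr, hb⟩ := block_exists (fun i => Λ (NN K + 1 + i))
    (fun i _ _ => (hΛ _).ge) x y y' x' hxy (fun e => hxy' e.symm)
  have e0 : rrev r 0 = x' := r9
  have e1 : rrev r 1 = y' := r8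
  obtain ⟨l, hl, m, hm, s1, s2, s3⟩ := close_exists hP hP' rfl n n' hb
    (by rw [r0, r1]; exact hF) (by rw [e0, e1]; exact hF')
  simp only [hPK] at hl hm s1 s2 s3
  refine ⟨GF (NN K) r l m, ?_, ?_, ?_, ?_⟩
  · intro i h1 h2
    by_cases a1 : i ≤ NN K
    · rw [GF_left a1]
      have := letter_S hl (NN K - i) (by omega)
      have e : NN K - 1 - (NN K - i) = i - 1 := by omega
      rw [e] at this
      by_cases h9 : i - 1 < 9
      · simp only [hPdef, mkPar, if_pos h9, mem_singleton] at this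
        rw [this]
        have h3 := (hd1 (i - 1) h9).1
        have e2 : i - 1 + 1 = i := by omega
        rwa [e2] at h3
      · simp only [hPdef, mkPar, if_neg h9] at this
        have e2 : i - 1 + 1 = i := by omega
        rwa [e2] at this
    · by_cases a2 : i ≤ NN K + 10
      · rw [GF_mid (by omega) a2]
        have key : ∀ j, j < 10 → r j ∈ Λ (NN K + 1 + j) := by
          intro j hj
          by_cases j0 : j = 0
          · subst j0; rw [r0]; exact hx
          by_cases j1 : j = 1
          · subst j1; rw [r1]; exact hy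
          by_cases j8 : j = 8
          · subst j8; rw [r8]; exact hy'
          by_cases j9 : j = 9
          · subst j9; rw [r9]; exact hx'
          exact hr j (by omega) (by omega)
        have := key (i - NN K - 1) (by omega)
        have e : NN K + 1 + (i - NN K - 1) = i := by omega
        rwa [e] at this
      · rw [GF_right (by omega)]
        have := letter_S hm (i - NN K - 11) (by omega)
        by_cases h9 : NN K - 1 - (i - NN K - 11) < 9
        · simp only [hP'def, mkPar, if_pos h9, mem_singleton] at this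
          rw [this]
          have h3 := (hd1' _ h9).1
          have e2 : DD K - (NN K - 1 - (i - NN K - 11) + 1) = i := by omega
          rwa [e2] at h3
        · simp only [hP'def, mkPar, if_neg h9] at this
          have e2 : DD K - (NN K - 1 - (i - NN K - 11) + 1) = i := by omega
          rwa [e2] at this
  · intro p i hp hi hf
    have := s1 p i hp hi (by omega)
    unfold Sq at this
    push Not at this
    exact this
  · exact legGood_of hP hl (fun i _ h2 => GF_left h2) s2
  · apply legGood_of hP' hm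
    · intro i h1 h2
      simp only [hPK'] at h2
      have : DD K - i = 2 * NN K + 11 - i := by omega
      rw [this, GF_mirror h1 (by omega), GF_left h2]
      rfl
    · intro t ht1 ht2
      simp only [hPK'] at ht1 ht2
      obtain ⟨b, hb1, hb2, hb3⟩ := s3 t ht1 ht2
      refine ⟨b, hb1, hb2, ?_⟩
      have q1 : DD K - b = 2 * NN K + 11 - b := by omega
      have q2 : DD K - (b + t) = 2 * NN K + 11 - (b + t) := by omega
      rw [q1, q2, GF_mirror (by omega) (by omega), GF_mirror (by omega) (by omega)]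
      exact hb3

end Pool.Agent.H58.NR
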